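import Pool.Agent.V11212.XI.Defs

set_option autoImplicit false

open Set Filter Topology
open scoped BigOperators

namespace Pool.Agent.V11212.XI

/-- closed simplex -/
def Sx {V : Type} [Fintype V] (s : Set V) : Set (V → ℝ) :=
  {x | (∀ v, 0 ≤ x v) ∧ ∑ v, x v = 1 ∧ ∀ v, v ∉ s → x v = 0}

theorem Sx_closed {V : Type} [Fintype V] (s : Set V) : IsClosed (Sx s) := by
  have : Sx s = (⋂ v, {x : V → ℝ | 0 ≤ x v}) ∩ ({x : V → ℝ | ∑ v, x v = 1} ∩
      ⋂ v, ⋂ (_ : v ∉ s), {x : V → ℝ | x v = 0}) := by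
    ext x
    simp only [Sx, mem_ofPred_eq, mem_inter_iff, mem_iInter]
  rw [this]
  refine IsClosed.inter (isClosed_iInter fun v => isClosed_le continuous_const
    (continuous_apply v)) (IsClosed.inter (isClosed_eq (by fun_prop) continuous_const) ?_)
  exact isClosed_iInter fun v => isClosed_iInter fun _ => isClosed_eq (continuous_apply v)
    continuous_const

theorem support_nonempty {V : Type} [Fintype V] {x : V → ℝ} (h : ∑ v, x v = 1) :
    (Function.support x).Nonempty := by
  by_contra hne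
  rw [Set.not_nonempty_iff_eq_empty, Function.support_eq_empty_iff] at hne
  rw [hne] at h
  simp at h

theorem Sx_sub {V : Type} [Fintype V] {K : Set (Set V)}
    (hd : ∀ s ∈ K, ∀ t, t ⊆ s → t.Nonempty → t ∈ K) {s : Set V} (hs : s ∈ K) : Sx s ⊆ Geo K := by
  rintro x ⟨h0, h1, h2⟩
  refine ⟨h0, h1, hd s hs _ ?_ (support_nonempty h1)⟩
  intro v hv
  by_contra hvs
  exact hv (h2 v hvs)

theorem Geo_sub {V : Type} [Fintype V] {K : Set (Set V)} {x : V → ℝ} (hx : x ∈ Geo K) :
    x ∈ Sx (Function.support x) :=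
  ⟨hx.1, hx.2.1, fun v hv => by simpa using hv⟩

/-- gluing: continuity on the closed simplices -/
theorem contOn_geo {V : Type} [Fintype V] {Y : Type*} [TopologicalSpace Y] {K : Set (Set V)}
    (hd : ∀ s ∈ K, ∀ t, t ⊆ s → t.Nonempty → t ∈ K) {f : (V → ℝ) → Y}
    (hf : ∀ s ∈ K, ContinuousOn f (Sx s)) : ContinuousOn f (Geo K) := by
  have hfin : Finite K := inferInstance
  have e : Geo K = ⋃ s : K, Sx (s : Set V) := by
    ext x
    rw [mem_iUnion]
    constructor
    · intro hx
      exact ⟨⟨_, hx.2.2⟩, Geo_sub hx⟩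
    · rintro ⟨⟨s, hs⟩, hx⟩
      exact Sx_sub hd hs hx
  rw [e]
  exact (locallyFinite_of_finite _).continuousOn_iUnion (fun s => Sx_closed _)
    fun s => hf s s.2

theorem Geo_mono {V : Type} [Fintype V] {K K' : Set (Set V)} (h : K ⊆ K') : Geo K ⊆ Geo K' :=
  fun _ hx => ⟨hx.1, hx.2.1, h hx.2.2⟩

section act

variable {G V : Type} [Group G] [MulAction G V]

theorem mv_apply (g : G) (x : V → ℝ) (v : V) : mv g x v = x (g⁻¹ • v) := rfl

theorem mv_mv (g h : G) (x : V → ℝ) : mv g (mv h x) = mv (g * h) x := by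
  funext v
  simp only [mv_apply, mul_inv_rev, mul_smul]

theorem mv_one (x : V → ℝ) : mv (1 : G) x = x := by
  funext v
  simp [mv_apply]

theorem support_mv (g : G) (x : V → ℝ) :
    Function.support (mv g x) = (g • ·) '' Function.support x := by
  ext v
  rw [Function.mem_support, mem_image]
  constructor
  · intro h
    exact ⟨g⁻¹ • v, h, smul_inv_smul g v⟩
  · rintro ⟨w, hw, rfl⟩
    rw [mv_apply, inv_smul_smul]
    exact hw

theorem sum_mv [Fintype V] (g : G) (x : V → ℝ) : ∑ v, mv g x v = ∑ v, x v :=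
  Equiv.sum_comp (MulAction.toPerm g⁻¹) x

theorem mv_mem [Fintype V] {K : Set (Set V)} (hK : ∀ (g : G), ∀ s ∈ K, (g • ·) '' s ∈ K) (g : G)
    {x : V → ℝ} (hx : x ∈ Geo K) : mv g x ∈ Geo K := by
  refine ⟨fun v => hx.1 _, ?_, ?_⟩
  · rw [sum_mv]; exact hx.2.1
  · rw [support_mv]; exact hK g _ hx.2.2

theorem mv_mem_Sx [Fintype V] {s : Set V} (g : G) {x : V → ℝ} (hx : x ∈ Sx s) :
    mv g x ∈ Sx ((g • ·) '' s) := by
  refine ⟨fun v => hx.1 _, ?_, ?_⟩
  · rw [sum_mv]; exact hx.2.1
  · intro v hv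
    refine hx.2.2 _ fun h => hv ⟨_, h, smul_inv_smul g v⟩

theorem continuous_mv (g : G) : Continuous (mv g : (V → ℝ) → (V → ℝ)) :=
  continuous_pi fun v => continuous_apply (g⁻¹ • v)

end act

theorem joinC_gc (G : Type) [Group G] (n : ℕ) : IsGC G (joinC G n) := by
  refine ⟨fun s hs => hs.1, fun s hs t hts ht => ⟨ht, fun a ha b hb => hs.2 a (hts ha) b (hts hb)⟩,
    fun g s hs => ⟨hs.1.image _, ?_⟩⟩
  rintro _ ⟨a, ha, rfl⟩ _ ⟨b, hb, rfl⟩ hab
  have : a = b := hs.2 a ha b hb hab
  rw [this]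

theorem orderC_gc (G : Type) [Group G] (P : Type) [PartialOrder P] [MulAction G P]
    (hm : ∀ (g : G) (p q : P), p ≤ q → g • p ≤ g • q) : IsGC G (orderC P) := by
  refine ⟨fun s hs => hs.1, fun s hs t hts ht => ⟨ht, hs.2.mono hts⟩,
    fun g s hs => ⟨hs.1.image _, ?_⟩⟩
  rintro _ ⟨a, ha, rfl⟩ _ ⟨b, hb, rfl⟩ hab
  have hne : a ≠ b := fun h => hab (by rw [h])
  rcases hs.2 ha hb hne with h | h
  · exact Or.inl (hm g _ _ h)
  · exact Or.inr (hm g _ _ h)

section top

variable {G : Type} [Group G] [Fintype G]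

/-- composition with an equivariant continuous map -/
theorem TopLe.comp {V W : Type} [Fintype V] [Fintype W] [MulAction G V] [MulAction G W]
    {K : Set (Set V)} {L : Set (Set W)} {k : ℕ} (h : TopLe G L k) (μ : (V → ℝ) → (W → ℝ))
    (hc : ContinuousOn μ (Geo K)) (hm : ∀ x ∈ Geo K, μ x ∈ Geo L)
    (he : ∀ g : G, ∀ x ∈ Geo K, μ (mv g x) = mv g (μ x)) : TopLe G K k := by
  obtain ⟨φ, h1, h2, h3⟩ := h
  refine ⟨fun x => φ (μ x), h1.comp hc hm, fun x hx => h2 _ (hm x hx), fun g x hx => ?_⟩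
  show φ (μ (mv g x)) = mv g (φ (μ x))
  rw [he g x hx, h3 g _ (hm x hx)]

/-- push forward of barycentric coordinates -/
noncomputable def push {V W : Type} [Fintype V] (f : V → W) (x : V → ℝ) : W → ℝ := by
  classical
  exact fun w => ∑ v, if f v = w then x v else 0

theorem push_apply {V W : Type} [Fintype V] [DecidableEq W] (f : V → W) (x : V → ℝ) (w : W) :
    push f x w = ∑ v, if f v = w then x v else 0 := by
  unfold push
  refine Finset.sum_congr rfl fun v _ => ?_
  by_cases h : f v = w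
  · rw [if_pos h, if_pos h]
  · rw [if_neg h, if_neg h]

theorem push_cont {V W : Type} [Fintype V] (f : V → W) : Continuous (push f) := by
  classical
  refine continuous_pi fun w => ?_
  simp only [push_apply]
  refine continuous_finsetSum _ fun v _ => ?_
  by_cases h : f v = w
  · simp only [h, if_true]; exact continuous_apply _
  · simp only [h, if_false]; exact continuous_const

theorem push_sum {V W : Type} [Fintype V] [Fintype W] (f : V → W) (x : V → ℝ) :
    ∑ w, push f x w = ∑ v, x v := by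
  classical
  simp only [push_apply]
  rw [Finset.sum_comm]
  refine Finset.sum_congr rfl fun v _ => ?_
  rw [Finset.sum_ite_eq Finset.univ (f v) (fun _ => x v)]
  simp

theorem push_support {V W : Type} [Fintype V] (f : V → W) (x : V → ℝ) (h0 : ∀ v, 0 ≤ x v) :
    Function.support (push f x) = f '' Function.support x := by
  classical
  ext w
  rw [Function.mem_support, push_apply]
  constructor
  · intro h
    obtain ⟨v, -, hv⟩ := Finset.exists_ne_zero_of_sum_ne_zero h
    by_cases hvw : f v = w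
    · rw [if_pos hvw] at hv
      exact ⟨v, hv, hvw⟩
    · rw [if_neg hvw] at hv
      exact absurd rfl hv
  · rintro ⟨v, hv, rfl⟩ h
    have := (Finset.sum_eq_zero_iff_of_nonneg (fun v _ => by
      split_ifs
      exacts [h0 _, le_rfl])).mp h v (Finset.mem_univ _)
    rw [if_pos rfl] at this
    exact hv this

theorem push_nonneg {V W : Type} [Fintype V] (f : V → W) (x : V → ℝ) (h0 : ∀ v, 0 ≤ x v) (w : W) :
    0 ≤ push f x w := by
  classical
  rw [push_apply]
  exact Finset.sum_nonneg fun v _ => by split_ifs; exacts [h0 _, le_rfl]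

theorem push_mem {V W : Type} [Fintype V] [Fintype W] {K : Set (Set V)} {L : Set (Set W)}
    (f : V → W) (hf : ∀ s ∈ K, f '' s ∈ L) {x : V → ℝ} (hx : x ∈ Geo K) : push f x ∈ Geo L := by
  refine ⟨push_nonneg f x hx.1, ?_, ?_⟩
  · rw [push_sum]; exact hx.2.1
  · rw [push_support f x hx.1]; exact hf _ hx.2.2

theorem push_mv {V W : Type} [Fintype V] [MulAction G V] [MulAction G W] (f : V → W)
    (hf : ∀ (g : G) v, f (g • v) = g • f v) (g : G) (x : V → ℝ) :
    push f (mv g x) = mv g (push f x) := by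
  classical
  funext w
  rw [mv_apply, push_apply, push_apply]
  rw [← Equiv.sum_comp (MulAction.toPerm g) (fun v => if f v = w then mv g x v else 0)]
  refine Finset.sum_congr rfl fun v _ => ?_
  simp only [MulAction.toPerm_apply, mv_apply, inv_smul_smul, hf]
  have e : g • f v = w ↔ f v = g⁻¹ • w := by
    constructor
    · intro h; rw [← h, inv_smul_smul]
    · intro h; rw [h, smul_inv_smul]
  by_cases h : g • f v = w
  · rw [if_pos h, if_pos (e.mp h)]
  · rw [if_neg h, if_neg (fun h' => h (e.mpr h'))]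

/-- pulling back along a simplicial map -/
theorem TopLe.pull {V W : Type} [Fintype V] [Fintype W] [MulAction G V] [MulAction G W]
    {K : Set (Set V)} {L : Set (Set W)} {k : ℕ} (h : TopLe G L k) (f : V → W)
    (hf : ∀ s ∈ K, f '' s ∈ L) (he : ∀ (g : G) v, f (g • v) = g • f v) : TopLe G K k :=
  h.comp (push f) (push_cont f).continuousOn (fun _ hx => push_mem f hf hx)
    (fun g x _ => push_mv f he g x)

theorem TopLe.mono {V : Type} [Fintype V] [MulAction G V]
    {K L : Set (Set V)} {k : ℕ} (h : TopLe G L k) (hKL : K ⊆ L) : TopLe G K k :=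
  h.comp id continuousOn_id (fun _ hx => Geo_mono hKL hx) (fun _ _ _ => rfl)

theorem topLe_join (n : ℕ) : TopLe G (joinC G n) n :=
  ⟨id, continuousOn_id, fun _ hx => hx, fun _ _ _ => rfl⟩

theorem SimpLe.topLe {V : Type} [Fintype V] [MulAction G V] {K : Set (Set V)} {k : ℕ}
    (h : SimpLe G K k) : TopLe G K k := by
  obtain ⟨f, h1, h2⟩ := h
  exact (topLe_join k).pull f h2 h1

end top

theorem CrossLe.simpLe {G : Type} [Group G] {P : Type} [PartialOrder P] [MulAction G P] {k : ℕ}
    (h : CrossLe G P k) : SimpLe G (orderC P) k := by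
  obtain ⟨f, h1, h2⟩ := h
  refine ⟨f, h1, fun s hs => ⟨hs.1.image _, ?_⟩⟩
  rintro _ ⟨a, ha, rfl⟩ _ ⟨b, hb, rfl⟩ hab
  by_cases hne : a = b
  · rw [hne]
  · rcases hs.2 ha hb hne with h | h
    · rcases h2 h with h3 | h3
      · exact h3
      · exact absurd hab (ne_of_lt h3)
    · rcases h2 h with h3 | h3
      · exact h3.symm
      · exact absurd hab.symm (ne_of_lt h3)

/-- point masses -/
noncomputable def pt {V : Type} (v : V) : V → ℝ := by
  classical
  exact fun w => if w = v then 1 else 0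

theorem pt_self {V : Type} (v : V) : pt v v = 1 := by simp [pt]

theorem pt_ne {V : Type} {v w : V} (h : w ≠ v) : pt v w = 0 := by simp [pt, h]

theorem pt_nonneg {V : Type} (v w : V) : 0 ≤ pt v w := by
  by_cases h : w = v
  · rw [h, pt_self]; exact zero_le_one
  · rw [pt_ne h]

theorem pt_sum {V : Type} [Fintype V] (v : V) : ∑ w, pt v w = 1 := by
  classical
  rw [Finset.sum_eq_single v (fun w _ h => pt_ne h) (fun h => absurd (Finset.mem_univ _) h),
    pt_self]

theorem pt_mem {V : Type} [Fintype V] {K : Set (Set V)} {v : V} (h : {v} ∈ K) : pt v ∈ Geo K := by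
  refine ⟨pt_nonneg v, pt_sum v, ?_⟩
  have : Function.support (pt v) = {v} := by
    ext w
    rw [Function.mem_support, mem_singleton_iff]
    by_cases h : w = v
    · rw [h, pt_self]; simp
    · rw [pt_ne h]; simp [h]
  rw [this]; exact h

theorem mv_pt {G V : Type} [Group G] [MulAction G V] (g : G) (v : V) :
    mv g (pt v) = pt (g • v) := by
  funext w
  rw [mv_apply]
  by_cases h : g⁻¹ • w = v
  · have : w = g • v := by rw [← h, smul_inv_smul]
    rw [h, this, pt_self, pt_self]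
  · have : w ≠ g • v := fun h' => h (by rw [h', inv_smul_smul])
    rw [pt_ne h, pt_ne this]

/-- convex combination of two points whose supports lie in a common simplex -/
theorem seg_mem {V : Type} [Fintype V] {K : Set (Set V)}
    (hd : ∀ s ∈ K, ∀ t, t ⊆ s → t.Nonempty → t ∈ K) {x y : V → ℝ} {s : Set V} (hs : s ∈ K)
    (hx : x ∈ Sx s) (hy : y ∈ Sx s) {a b : ℝ} (ha : 0 ≤ a) (hb : 0 ≤ b) (hab : a + b = 1) :
    (fun v => a * x v + b * y v) ∈ Geo K := by
  apply Sx_sub hd hs
  refine ⟨fun v => add_nonneg (mul_nonneg ha (hx.1 v)) (mul_nonneg hb (hy.1 v)), ?_, ?_⟩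
  · rw [Finset.sum_add_distrib, ← Finset.mul_sum, ← Finset.mul_sum, hx.2.1, hy.2.1, mul_one,
      mul_one, hab]
  · intro v hv
    show a * x v + b * y v = 0
    rw [hx.2.2 v hv, hy.2.2 v hv, mul_zero, mul_zero, add_zero]

theorem joined_seg {V : Type} [Fintype V] {K : Set (Set V)}
    (hd : ∀ s ∈ K, ∀ t, t ⊆ s → t.Nonempty → t ∈ K) {x y : V → ℝ} {s : Set V} (hs : s ∈ K)
    (hx : x ∈ Sx s) (hy : y ∈ Sx s) : JoinedIn (Geo K) x y := by
  refine JoinedIn.ofLine (f := fun t : ℝ => fun v => (1 - t) * x v + t * y v) ?_ ?_ ?_ ?_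
  · fun_prop
  · funext v; simp
  · funext v; simp
  · rintro _ ⟨t, ht, rfl⟩
    exact seg_mem hd hs hx hy (by linarith [ht.2]) ht.1 (by ring)

/-- `E_m G` is path connected for `m ≥ 1` -/
theorem join_joined (G : Type) [Group G] [Fintype G] (m : ℕ) (hm : 1 ≤ m) {x y : QP G m → ℝ}
    (hx : x ∈ Geo (joinC G m)) (hy : y ∈ Geo (joinC G m)) : JoinedIn (Geo (joinC G m)) x y := by
  have hd := (joinC_gc G m).2.1
  have hpt : ∀ x : QP G m → ℝ, x ∈ Geo (joinC G m) → ∃ a, JoinedIn (Geo (joinC G m)) x (pt a) := by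
    intro x hx
    obtain ⟨a, ha⟩ := support_nonempty hx.2.1
    refine ⟨a, joined_seg hd hx.2.2 (Geo_sub hx) ⟨pt_nonneg a, pt_sum a, fun v hv => ?_⟩⟩
    exact pt_ne (fun h => hv (h ▸ ha))
  have hv1 : ∀ a b : QP G m, a.2 ≠ b.2 → JoinedIn (Geo (joinC G m)) (pt a) (pt b) := by
    intro a b hab
    refine joined_seg hd (s := {a, b}) ⟨⟨a, Or.inl rfl⟩, ?_⟩ ⟨pt_nonneg a, pt_sum a, fun v hv =>
      pt_ne (fun h => hv (Or.inl h))⟩ ⟨pt_nonneg b, pt_sum b, fun v hv =>
      pt_ne (fun h => hv (Or.inr h))⟩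
    rintro c (rfl | rfl) d (rfl | rfl) hcd
    · rfl
    · exact absurd hcd hab
    · exact absurd hcd.symm hab
    · rfl
  have hv2 : ∀ a b : QP G m, JoinedIn (Geo (joinC G m)) (pt a) (pt b) := by
    intro a b
    by_cases hab : a.2 = b.2
    · obtain ⟨j, hj⟩ : ∃ j : Fin (m + 1), j ≠ a.2 := by
        have : Nontrivial (Fin (m + 1)) := Fin.nontrivial_iff_two_le.mpr (by omega)
        exact exists_ne a.2
      exact (hv1 a (a.1, j) (Ne.symm hj)).trans (hv1 (a.1, j) b (by rw [← hab]; exact hj))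
    · exact hv1 a b hab
  obtain ⟨a, ha⟩ := hpt x hx
  obtain ⟨b, hb⟩ := hpt y hy
  exact (ha.trans (hv2 a b)).trans hb.symm

/-- continuous on two closed pieces -/
theorem contOn_two {X Y : Type*} [TopologicalSpace X] [TopologicalSpace Y] {A B C : Set X}
    {f : X → Y} (hA : IsClosed A) (hB : IsClosed B) (hC : C ⊆ A ∪ B)
    (h1 : ContinuousOn f (C ∩ A)) (h2 : ContinuousOn f (C ∩ B)) : ContinuousOn f C := by
  intro x hx
  have e : C = (C ∩ A) ∪ (C ∩ B) := by
    ext z
    constructor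
    · intro hz
      rcases hC hz with h | h
      · exact Or.inl ⟨hz, h⟩
      · exact Or.inr ⟨hz, h⟩
    · rintro (h | h) <;> exact h.1
  rw [e]
  refine ContinuousWithinAt.union ?_ ?_
  · by_cases hxA : x ∈ A
    · exact h1 x ⟨hx, hxA⟩
    · have : 𝓝[C ∩ A] x = ⊥ := by
        rw [← notMem_closure_iff_nhdsWithin_eq_bot]
        intro h
        exact hxA (hA.closure_subset_iff.mpr inter_subset_right h)
      rw [ContinuousWithinAt, this]
      exact tendsto_bot
  · by_cases hxB : x ∈ B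
    · exact h2 x ⟨hx, hxB⟩
    · have : 𝓝[C ∩ B] x = ⊥ := by
        rw [← notMem_closure_iff_nhdsWithin_eq_bot]
        intro h
        exact hxB (hB.closure_subset_iff.mpr inter_subset_right h)
      rw [ContinuousWithinAt, this]
      exact tendsto_bot

end Pool.Agent.V11212.XI
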