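import Pool.Agent.V11212.XI.Basic

set_option autoImplicit false

open Set Filter Topology
open scoped BigOperators

namespace Pool.Agent.V11212.XI

/-- the vertex set: `C` copies of `V`, and new vertices `Z` -/
def CW (C V Z : Type) : Type := (C × V) ⊕ Z

instance (C V Z : Type) [Fintype C] [Fintype V] [Fintype Z] : Fintype (CW C V Z) :=
  inferInstanceAs (Fintype ((C × V) ⊕ Z))

instance (G C V Z : Type) [Group G] [MulAction G V] [MulAction G Z] : MulAction G (CW C V Z) where
  smul g w := Sum.elim (fun a => Sum.inl (a.1, g • a.2)) (fun z => Sum.inr (g • z)) w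
  one_smul w := by
    rcases w with a | z
    · show Sum.inl (a.1, (1 : G) • a.2) = Sum.inl a
      rw [one_smul]
    · show Sum.inr ((1 : G) • z) = Sum.inr z
      rw [one_smul]
  mul_smul g h w := by
    rcases w with a | z
    · show Sum.inl (a.1, (g * h) • a.2) = Sum.inl (a.1, g • (h • a.2))
      rw [mul_smul]
    · show Sum.inr ((g * h) • z) = Sum.inr (g • (h • z))
      rw [mul_smul]

/-- a vertex in copy `c` -/
def cin {C V Z : Type} (c : C) (v : V) : CW C V Z := Sum.inl (c, v)

/-- a new vertex -/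
def zin {C V Z : Type} (z : Z) : CW C V Z := Sum.inr z

theorem cin_inj {C V Z : Type} {c c' : C} {v v' : V} (h : (cin c v : CW C V Z) = cin c' v') :
    c = c' ∧ v = v' := by
  have := Sum.inl.inj h
  exact ⟨congrArg Prod.fst this, congrArg Prod.snd this⟩

theorem zin_inj {C V Z : Type} {z z' : Z} (h : (zin z : CW C V Z) = zin z') : z = z' :=
  Sum.inr.inj h

theorem cin_ne {C V Z : Type} {c : C} {v : V} {z : Z} : (cin c v : CW C V Z) ≠ zin z := by
  intro h
  exact absurd h (by unfold cin zin; simp)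

theorem CW_cases {C V Z : Type} (w : CW C V Z) : (∃ c v, w = cin c v) ∨ ∃ z, w = zin z := by
  rcases w with ⟨c, v⟩ | z
  · exact Or.inl ⟨c, v, rfl⟩
  · exact Or.inr ⟨z, rfl⟩

/-- disjoint copies of `K`, and cones with the new vertices over parts of the copies -/
def coneC {V C Z : Type} (K : Set (Set V)) (ap : Z → C → V) : Set (Set (CW C V Z)) :=
  {s | s.Nonempty ∧ ∃ c t, (t ∈ K ∧ s = cin c '' t) ∨
    ∃ z, insert (ap z c) t ∈ K ∧ s = insert (zin z) (cin c '' t)}

variable {G V C Z : Type} [Group G] [Fintype G] [Fintype V] [Fintype C] [Fintype Z]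
  [MulAction G V] [MulAction G Z]

omit [Fintype V] [Fintype C] [Fintype Z] in
theorem coneC_down {K : Set (Set V)} {ap : Z → C → V}
    (hd : ∀ s ∈ K, ∀ t, t ⊆ s → t.Nonempty → t ∈ K) :
    ∀ s ∈ coneC K ap, ∀ t, t ⊆ s → t.Nonempty → t ∈ coneC K ap := by
  rintro s ⟨-, c, t0, h⟩ t hts ht
  refine ⟨ht, c, {v | cin c v ∈ t}, ?_⟩
  rcases h with ⟨h1, rfl⟩ | ⟨z, h1, rfl⟩
  · left
    have e : t = cin c '' {v | cin c v ∈ t} := by
      ext w
      constructor
      · intro hw
        obtain ⟨v, hv, rfl⟩ := hts hw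
        exact ⟨v, hw, rfl⟩
      · rintro ⟨v, hv, rfl⟩
        exact hv
    refine ⟨hd t0 h1 _ ?_ ?_, e⟩
    · intro v hv
      obtain ⟨v', hv', h⟩ := hts hv
      rw [← (cin_inj h).2]
      exact hv'
    · obtain ⟨w, hw⟩ := ht
      obtain ⟨v, hv, rfl⟩ := hts hw
      exact ⟨v, hw⟩
  · have hsub : {v | cin c v ∈ t} ⊆ t0 := by
      intro v hv
      rcases hts hv with h | ⟨v', hv', h⟩
      · exact absurd h cin_ne
      · rw [← (cin_inj h).2]
        exact hv'
    by_cases hz : zin z ∈ t
    · right
      refine ⟨z, hd _ h1 _ (insert_subset_insert hsub) (insert_nonempty _ _), ?_⟩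
      ext w
      constructor
      · intro hw
        rcases hts hw with h | ⟨v, hv, rfl⟩
        · exact Or.inl h
        · exact Or.inr ⟨v, hw, rfl⟩
      · rintro (rfl | ⟨v, hv, rfl⟩)
        · exact hz
        · exact hv
    · left
      have e : t = cin c '' {v | cin c v ∈ t} := by
        ext w
        constructor
        · intro hw
          rcases hts hw with h | ⟨v, hv, rfl⟩
          · exact absurd (h ▸ hw) hz
          · exact ⟨v, hw, rfl⟩
        · rintro ⟨v, hv, rfl⟩
          exact hv
      refine ⟨hd _ h1 _ (hsub.trans (subset_insert _ _)) ?_, e⟩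
      obtain ⟨w, hw⟩ := ht
      rcases hts hw with h | ⟨v, hv, rfl⟩
      · exact absurd (h ▸ hw) hz
      · exact ⟨v, hw⟩

/-- the support of `x` lies in copy `c` and the new vertex `z` -/
def Dm (z : Z) (c : C) (x : CW C V Z → ℝ) : Prop := ∀ w, x w ≠ 0 → w = zin z ∨ ∃ v, w = cin c v

theorem Dm_sum {z : Z} {c : C} {x : CW C V Z → ℝ} (h : Dm z c x) :
    ∑ w, x w = (∑ v, x (cin c v)) + x (zin z) := by
  classical
  have e : ∑ w, x w = ∑ w : (C × V) ⊕ Z, x w := rfl
  rw [e, Fintype.sum_sum_type, Fintype.sum_prod_type]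
  congr 1
  · rw [Finset.sum_eq_single c]
    · rfl
    · intro c' _ hc'
      refine Finset.sum_eq_zero fun v _ => ?_
      by_contra hne
      rcases h _ hne with h1 | ⟨v', h1⟩
      · exact cin_ne (z := z) h1
      · exact hc' (cin_inj h1).1
    · intro h; exact absurd (Finset.mem_univ _) h
  · rw [Finset.sum_eq_single z]
    · rfl
    · intro z' _ hz'
      by_contra hne
      rcases h _ hne with h1 | ⟨v', h1⟩
      · exact hz' (zin_inj h1)
      · exact cin_ne h1.symm
    · intro h; exact absurd (Finset.mem_univ _) h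

/-- argument of the old map -/
noncomputable def ag (ap : Z → C → V) (z : Z) (c : C) (x : CW C V Z → ℝ) : V → ℝ := fun v =>
  (1 - 2 * x (zin z)) / (1 - x (zin z)) * x (cin c v) + 2 * x (zin z) * pt (ap z c) v

theorem ag_mem {K : Set (Set V)} {ap : Z → C → V}
    (hd : ∀ s ∈ K, ∀ t, t ⊆ s → t.Nonempty → t ∈ K) {z : Z} {c : C} {x : CW C V Z → ℝ}
    (hx : x ∈ Geo (coneC K ap)) (hD : Dm z c x) (hT : x (zin z) ≤ 1 / 2) : ag ap z c x ∈ Geo K := by
  obtain ⟨h0, h1, -, c', t, h2⟩ := hx
  have hs := Dm_sum hD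
  rw [h1] at hs
  have hT0 := h0 (zin z)
  have hpos : 0 < 1 - x (zin z) := by linarith
  have hne : ∃ v, x (cin c v) ≠ 0 := by
    by_contra hcon
    push Not at hcon
    rw [Finset.sum_eq_zero fun v _ => hcon v] at hs
    linarith
  obtain ⟨v0, hv0⟩ := hne
  have hu : (fun v => x (cin c v) / (1 - x (zin z))) ∈ Sx {v | x (cin c v) ≠ 0} := by
    refine ⟨fun v => div_nonneg (h0 _) hpos.le, ?_, fun v hv => ?_⟩
    · rw [← Finset.sum_div, div_eq_one_iff_eq hpos.ne']
      linarith
    · have : x (cin c v) = 0 := by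
        by_contra h; exact hv h
      show x (cin c v) / _ = 0
      rw [this, zero_div]
  have hag : ag ap z c x = fun v => (1 - 2 * x (zin z)) * (x (cin c v) / (1 - x (zin z))) +
      2 * x (zin z) * pt (ap z c) v := by
    funext v
    unfold ag
    ring
  rcases h2 with ⟨h3, h4⟩ | ⟨z', h3, h4⟩
  · have hz0 : x (zin z) = 0 := by
      by_contra hne
      have : (zin z : CW C V Z) ∈ cin c' '' t := by rw [← h4]; exact hne
      obtain ⟨v, -, hv⟩ := this
      exact cin_ne hv
    have hcc : c' = c := by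
      have : (cin c v0 : CW C V Z) ∈ cin c' '' t := by rw [← h4]; exact hv0
      obtain ⟨v, -, hv⟩ := this
      exact (cin_inj hv).1
    have ht : {v | x (cin c v) ≠ 0} = t := by
      ext v
      constructor
      · intro hv
        have : (cin c v : CW C V Z) ∈ cin c' '' t := by rw [← h4]; exact hv
        obtain ⟨v', hv', hvv⟩ := this
        rw [← (cin_inj hvv).2]; exact hv'
      · intro hv
        have : (cin c v : CW C V Z) ∈ Function.support x := by rw [h4, ← hcc]; exact ⟨v, hv, rfl⟩
        exact this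
    rw [hag, hz0]
    simp only [mul_zero, sub_zero, div_one, one_mul, zero_mul, add_zero]
    apply Sx_sub hd h3
    rw [hz0] at hu
    simp only [sub_zero, div_one] at hu
    rw [← ht]; exact hu
  · have hcc : c' = c := by
      have : (cin c v0 : CW C V Z) ∈ insert (zin z') (cin c' '' t) := by rw [← h4]; exact hv0
      rcases this with h | ⟨v, -, hv⟩
      · exact absurd h cin_ne
      · exact (cin_inj hv).1
    have hzz : z' = z := by
      have : (zin z' : CW C V Z) ∈ Function.support x := by rw [h4]; exact mem_insert _ _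
      rcases hD _ this with h | ⟨v, h⟩
      · exact zin_inj h
      · exact absurd h.symm cin_ne
    subst hcc hzz
    have ht : {v | x (cin c' v) ≠ 0} ⊆ t := by
      intro v hv
      have : (cin c' v : CW C V Z) ∈ insert (zin z') (cin c' '' t) := by rw [← h4]; exact hv
      rcases this with h | ⟨v', hv', hvv⟩
      · exact absurd h cin_ne
      · rw [← (cin_inj hvv).2]; exact hv'
    rw [hag]
    refine seg_mem hd h3 (s := insert (ap z' c') t) ⟨hu.1, hu.2.1, fun v hv => hu.2.2 v fun h =>
      hv (Or.inr (ht h))⟩ ⟨pt_nonneg _, pt_sum _, fun v hv => pt_ne fun h => hv (Or.inl h)⟩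
      (by linarith) (by linarith) (by ring)

/-- `LEMMA X`: adding cones over disjoint star shaped parts does not change the index -/
theorem top_cone [Nonempty Z] {K : Set (Set V)} {m : ℕ} (hK : IsGC G K) (h : TopLe G K m)
    (hm : 1 ≤ m) (ap : Z → C → V) (hap : ∀ (g : G) z c, ap (g • z) c = g • ap z c)
    (hapK : ∀ z c, {ap z c} ∈ K) (ℓ : Z → G) (hℓ : ∀ (g : G) z, ℓ (g • z) = g * ℓ z) :
    TopLe G (coneC K ap : Set (Set (CW C V Z))) m := by
  classical
  obtain ⟨φ, hφc, hφm, hφe⟩ := h
  have hd := hK.2.1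
  have hj := joinC_gc G m
  -- the paths
  let e1 : QP G m := (1, 0)
  have hsing : ∀ a : QP G m, {a} ∈ joinC G m := by
    intro a
    refine ⟨singleton_nonempty a, ?_⟩
    rintro b hb c hc -
    rw [mem_singleton_iff] at hb hc
    rw [hb, hc]
  have hpath : ∀ (z : Z) (c : C), JoinedIn (Geo (joinC G m)) (φ (pt (ap z c))) (pt e1) :=
    fun z c => join_joined G m hm (hφm _ (pt_mem (hapK z c))) (pt_mem (hsing e1))
  let z0 : Z → Z := fun z => (ℓ z)⁻¹ • z
  have hz0 : ∀ (g : G) z, z0 (g • z) = z0 z := by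
    intro g z
    show (ℓ (g • z))⁻¹ • g • z = _
    rw [hℓ, mul_inv_rev, smul_smul, mul_assoc, inv_mul_cancel, mul_one]
  let pa : Z → C → ℝ → (QP G m → ℝ) := fun z c u =>
    mv (ℓ z) ((hpath (z0 z) c).somePath.extend u)
  have hpac : ∀ z c, Continuous (pa z c) := fun z c =>
    (continuous_mv (ℓ z)).comp (Path.continuous_extend _)
  have hpam : ∀ z c u, pa z c u ∈ Geo (joinC G m) := by
    intro z c u
    refine mv_mem hj.2.2 _ ?_
    have : (hpath (z0 z) c).somePath.extend u ∈ range (hpath (z0 z) c).somePath := by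
      rw [← Path.extend_range]
      exact mem_range_self u
    obtain ⟨t, ht⟩ := this
    rw [← ht]
    exact (hpath (z0 z) c).somePath_mem t
  have hpa0 : ∀ z c, pa z c 0 = φ (pt (ap z c)) := by
    intro z c
    show mv (ℓ z) ((hpath (z0 z) c).somePath.extend 0) = _
    rw [Path.extend_zero, ← hφe _ _ (pt_mem (hapK _ _)), mv_pt, ← hap]
    show φ (pt (ap (ℓ z • (ℓ z)⁻¹ • z) c)) = _
    rw [smul_inv_smul]
  have hpa1 : ∀ z c, pa z c 1 = pt (ℓ z • e1) := by
    intro z c
    show mv (ℓ z) ((hpath (z0 z) c).somePath.extend 1) = _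
    rw [Path.extend_one, mv_pt]
  have hpae : ∀ (g : G) z c u, pa (g • z) c u = mv g (pa z c u) := by
    intro g z c u
    show mv (ℓ (g • z)) ((hpath (z0 (g • z)) c).somePath.extend u) =
      mv g (mv (ℓ z) ((hpath (z0 z) c).somePath.extend u))
    rw [mv_mv, hℓ]
    congr 1
    have : ∀ a b : Z, a = b → (hpath a c).somePath.extend u = (hpath b c).somePath.extend u := by
      rintro a b rfl; rfl
    exact this _ _ (hz0 g z)
  -- the local maps
  let Φ' : Z → C → (CW C V Z → ℝ) → (QP G m → ℝ) := fun z c x =>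
    if x (zin z) ≤ 1 / 2 then φ (ag ap z c x) else pa z c (2 * x (zin z) - 1)
  let Φ : (CW C V Z → ℝ) → (QP G m → ℝ) := fun x =>
    if h : ∃ p : Z × C, Dm p.1 p.2 x then Φ' h.choose.1 h.choose.2 x else 0
  have hindep : ∀ x : CW C V Z → ℝ, (∀ w, 0 ≤ x w) → ∑ w, x w = 1 → ∀ z c z' c', Dm z c x →
      Dm z' c' x → Φ' z c x = Φ' z' c' x := by
    intro x h0 h1 z c z' c' hD hD'
    by_cases hc : c = c'
    · subst hc
      by_cases hz : z = z'
      · rw [hz]
      · have a1 : x (zin z) = 0 := by
          by_contra hne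
          rcases hD' _ hne with h | ⟨v, h⟩
          · exact hz (zin_inj h)
          · exact cin_ne h.symm
        have a2 : x (zin z') = 0 := by
          by_contra hne
          rcases hD _ hne with h | ⟨v, h⟩
          · exact hz (zin_inj h).symm
          · exact cin_ne h.symm
        show (if x (zin z) ≤ 1 / 2 then _ else _) = (if x (zin z') ≤ 1 / 2 then _ else _)
        rw [if_pos (by rw [a1]; norm_num), if_pos (by rw [a2]; norm_num)]
        congr 1
        funext v
        unfold ag
        rw [a1, a2]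
        ring
    · have hz : ∀ v, x (cin c v) = 0 := by
        intro v
        by_contra hne
        rcases hD' _ hne with h | ⟨v', h⟩
        · exact cin_ne h
        · exact hc (cin_inj h).1
      have hs := Dm_sum hD
      rw [h1, Finset.sum_eq_zero fun v _ => hz v, zero_add] at hs
      have hzz : z = z' := by
        have : x (zin z) ≠ 0 := by rw [← hs]; norm_num
        rcases hD' _ this with h | ⟨v, h⟩
        · exact zin_inj h
        · exact absurd h.symm cin_ne
      subst hzz
      show (if x (zin z) ≤ 1 / 2 then _ else _) = (if x (zin z) ≤ 1 / 2 then _ else _)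
      rw [← hs, if_neg (by norm_num), if_neg (by norm_num)]
      norm_num
      rw [hpa1, hpa1]
  have hΦ : ∀ x : CW C V Z → ℝ, (∀ w, 0 ≤ x w) → ∑ w, x w = 1 → ∀ z c, Dm z c x →
      Φ x = Φ' z c x := by
    intro x h0 h1 z c hD
    have hex : ∃ p : Z × C, Dm p.1 p.2 x := ⟨(z, c), hD⟩
    show (if h : ∃ p : Z × C, Dm p.1 p.2 x then Φ' h.choose.1 h.choose.2 x else 0) = _
    rw [dif_pos hex]
    exact hindep x h0 h1 _ _ _ _ hex.choose_spec hD
  have hcd := coneC_down (ap := ap) hd
  -- every simplex lies in some domain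
  have hdom : ∀ s ∈ (coneC K ap : Set (Set (CW C V Z))), ∃ z c, ∀ x ∈ Sx s, Dm z c x := by
    rintro s ⟨-, c, t, ⟨h1, rfl⟩ | ⟨z, h1, rfl⟩⟩
    · obtain ⟨z⟩ := ‹Nonempty Z›
      refine ⟨z, c, fun x hx w hw => ?_⟩
      by_contra hcon
      push Not at hcon
      exact hw (hx.2.2 w fun ⟨v, _, hv⟩ => hcon.2 v hv.symm)
    · refine ⟨z, c, fun x hx w hw => ?_⟩
      by_contra hcon
      push Not at hcon
      refine hw (hx.2.2 w ?_)
      rintro (h | ⟨v, _, hv⟩)
      · exact hcon.1 h
      · exact hcon.2 v hv.symm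
  have hxdom : ∀ x ∈ Geo (coneC K ap : Set (Set (CW C V Z))), ∃ z c, Dm z c x := by
    intro x hx
    obtain ⟨z, c, h⟩ := hdom _ hx.2.2
    exact ⟨z, c, h x (Geo_sub hx)⟩
  refine ⟨Φ, ?_, ?_, ?_⟩
  · refine contOn_geo hcd fun s hs => ?_
    obtain ⟨z, c, hzc⟩ := hdom s hs
    have hcont : ContinuousOn (Φ' z c) (Sx s) := by
      refine contOn_two (A := {x : CW C V Z → ℝ | x (zin z) ≤ 1 / 2})
        (B := {x : CW C V Z → ℝ | 1 / 2 ≤ x (zin z)})
        (isClosed_le (continuous_apply _) continuous_const)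
        (isClosed_le continuous_const (continuous_apply _))
        (fun x _ => le_total (x (zin z)) (1 / 2)) ?_ ?_
      · have h1 : ContinuousOn (fun x => φ (ag ap z c x)) (Sx s ∩ {x | x (zin z) ≤ 1 / 2}) := by
          refine hφc.comp ?_ ?_
          · refine continuousOn_pi.mpr fun v => ?_
            unfold ag
            refine ContinuousOn.add (ContinuousOn.mul (ContinuousOn.div ?_ ?_ ?_) ?_) ?_
            · fun_prop
            · fun_prop
            · intro x hx
              have : x (zin z) ≤ 1 / 2 := hx.2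
              linarith
            · fun_prop
            · fun_prop
          · intro x hx
            exact ag_mem hd (Sx_sub hcd hs hx.1) (hzc x hx.1) hx.2
        refine h1.congr fun x hx => ?_
        exact if_pos hx.2
      · have h1 : ContinuousOn (fun x : CW C V Z → ℝ => pa z c (2 * x (zin z) - 1))
            (Sx s ∩ {x | 1 / 2 ≤ x (zin z)}) := by
          refine ((hpac z c).comp ?_).continuousOn
          fun_prop
        refine h1.congr fun x hx => ?_
        have hx2 : 1 / 2 ≤ x (zin z) := hx.2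
        show (if x (zin z) ≤ 1 / 2 then _ else _) = _
        split_ifs with h
        · have hh : x (zin z) = 1 / 2 := le_antisymm h hx2
          have e : ag ap z c x = pt (ap z c) := by
            funext v
            unfold ag
            rw [hh]
            norm_num
          show φ (ag ap z c x) = pa z c (2 * x (zin z) - 1)
          rw [e, hh, show (2 : ℝ) * (1 / 2) - 1 = 0 by norm_num, hpa0]
        · rfl
    exact hcont.congr fun x hx => hΦ x hx.1 hx.2.1 z c (hzc x hx)
  · intro x hx
    obtain ⟨z, c, hD⟩ := hxdom x hx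
    rw [hΦ x hx.1 hx.2.1 z c hD]
    show (if x (zin z) ≤ 1 / 2 then _ else _) ∈ _
    split_ifs with h
    · exact hφm _ (ag_mem hd hx hD h)
    · exact hpam _ _ _
  · intro g x hx
    obtain ⟨z, c, hD⟩ := hxdom x hx
    have hD' : Dm (g • z) c (mv g x) := by
      intro w hw
      rcases hD _ hw with h | ⟨v, h⟩
      · left
        rw [inv_smul_eq_iff] at h
        rw [h]; rfl
      · right
        rw [inv_smul_eq_iff] at h
        exact ⟨g • v, by rw [h]; rfl⟩
    rw [hΦ (mv g x) (fun w => hx.1 _) (by rw [sum_mv]; exact hx.2.1) _ _ hD',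
      hΦ x hx.1 hx.2.1 z c hD]
    have eT : mv g x (zin (g • z)) = x (zin z) := by
      show x (g⁻¹ • g • zin z) = _
      rw [inv_smul_smul]
    show (if mv g x (zin (g • z)) ≤ 1 / 2 then _ else _) = mv g (if x (zin z) ≤ 1 / 2 then _ else _)
    rw [eT]
    split_ifs with h
    · rw [← hφe g _ (ag_mem hd hx hD h)]
      congr 1
      funext v
      show (1 - 2 * mv g x (zin (g • z))) / (1 - mv g x (zin (g • z))) * mv g x (cin c v) +
        2 * mv g x (zin (g • z)) * pt (ap (g • z) c) v = ag ap z c x (g⁻¹ • v)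
      rw [eT, hap, ← mv_pt]
      rfl
    · rw [hpae]

end Pool.Agent.V11212.XI
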