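import Mathlib

set_option autoImplicit false

/-!
# Free `G`-posets and `G`-complexes, their topological, simplicial and cross-index

Definitions used in the statements about `MP_28f43d_co`, `MP_6f03fc_co`, `MP_848d58_co` and
`MP_172133_co`.
-/

open Set

namespace Pool.Agent.V11212.XI

/-- The ground set `G × {0, …, n}` of the poset `Q_n G`. -/
def QP (G : Type) (n : ℕ) : Type := G × Fin (n + 1)

instance (G : Type) [Fintype G] (n : ℕ) : Fintype (QP G n) :=
  inferInstanceAs (Fintype (G × Fin (n + 1)))

/-- `G` acts on `Q_n G` by `g • (h, i) = (g h, i)`. -/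
instance (G : Type) [Group G] (n : ℕ) : MulAction G (QP G n) where
  smul g a := (g * a.1, a.2)
  one_smul a := by
    show ((1 : G) * a.1, a.2) = a
    rw [one_mul]
    rfl
  mul_smul g h a := by
    show (g * h * a.1, a.2) = (g * (h * a.1), a.2)
    rw [mul_assoc]

/-- The order of `Q_n G`: `(g, i) < (h, j)` if and only if `i < j`. -/
instance (G : Type) (n : ℕ) : PartialOrder (QP G n) where
  le a b := a = b ∨ a.2 < b.2
  le_refl a := Or.inl rfl
  le_trans a b c h1 h2 := by
    rcases h1 with h1 | h1
    · rw [h1]; exact h2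
    · rcases h2 with h2 | h2
      · rw [← h2]; exact Or.inr h1
      · exact Or.inr (h1.trans h2)
  le_antisymm a b h1 h2 := by
    rcases h1 with h1 | h1
    · exact h1
    · rcases h2 with h2 | h2
      · exact h2.symm
      · exact absurd h1 (not_lt_of_gt h2)

/-- The `(n + 1)`-fold join `E_n G = G * ⋯ * G`: the simplices are the nonempty sets with at most
one element in each of the `n + 1` copies of `G`. -/
def joinC (G : Type) (n : ℕ) : Set (Set (QP G n)) :=
  {s | s.Nonempty ∧ ∀ a ∈ s, ∀ b ∈ s, a.2 = b.2 → a = b}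

/-- The geometric realisation of a finite simplicial complex `K` on the vertex set `V`, in
barycentric coordinates. -/
def Geo {V : Type} [Fintype V] (K : Set (Set V)) : Set (V → ℝ) :=
  {x | (∀ v, 0 ≤ x v) ∧ ∑ v, x v = 1 ∧ Function.support x ∈ K}

/-- The action of `G` on barycentric coordinates. -/
def mv {G V : Type} [Group G] [MulAction G V] (g : G) (x : V → ℝ) : V → ℝ := fun v => x (g⁻¹ • v)

/-- There is a continuous `G`-equivariant map from the geometric realisation of `K` to that of
`E_k G`. -/
def TopLe (G : Type) [Group G] [Fintype G] {V : Type} [Fintype V] [MulAction G V]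
    (K : Set (Set V)) (k : ℕ) : Prop :=
  ∃ φ : (V → ℝ) → (QP G k → ℝ), ContinuousOn φ (Geo K) ∧ (∀ x ∈ Geo K, φ x ∈ Geo (joinC G k)) ∧
    ∀ g : G, ∀ x ∈ Geo K, φ (mv g x) = mv g (φ x)

/-- There is a `G`-equivariant simplicial map from `K` to `E_k G`. -/
def SimpLe (G : Type) [Group G] {V : Type} [MulAction G V] (K : Set (Set V)) (k : ℕ) : Prop :=
  ∃ f : V → QP G k, (∀ (g : G) v, f (g • v) = g • f v) ∧ ∀ s ∈ K, f '' s ∈ joinC G k

/-- There is an order preserving `G`-equivariant map from `P` to `Q_k G`. -/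
def CrossLe (G : Type) [Group G] (P : Type) [PartialOrder P] [MulAction G P] (k : ℕ) : Prop :=
  ∃ f : P → QP G k, (∀ (g : G) p, f (g • p) = g • f p) ∧ Monotone f

/-- There is an order preserving `G`-equivariant map from the face poset of `K` to `Q_k G`. -/
def FaceLe (G : Type) [Group G] {V : Type} [MulAction G V] (K : Set (Set V)) (k : ℕ) : Prop :=
  ∃ f : Set V → QP G k, (∀ (g : G), ∀ s ∈ K, f ((g • ·) '' s) = g • f s) ∧
    ∀ s ∈ K, ∀ t ∈ K, s ⊆ t → f s ≤ f t

/-- The order complex of a poset: its simplices are the nonempty chains. -/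
def orderC (P : Type) [PartialOrder P] : Set (Set P) := {s | s.Nonempty ∧ IsChain (· ≤ ·) s}

/-- `K` is a simplicial complex with an action of `G`. -/
def IsGC (G : Type) [Group G] {V : Type} [MulAction G V] (K : Set (Set V)) : Prop :=
  (∀ s ∈ K, s.Nonempty) ∧ (∀ s ∈ K, ∀ t, t ⊆ s → t.Nonempty → t ∈ K) ∧
    ∀ (g : G), ∀ s ∈ K, (g • ·) '' s ∈ K

end Pool.Agent.V11212.XI
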