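import Pool.Agent.V11212.XI.Defs
import Pool.Agent.Helper954.Hopf.D1c

set_option autoImplicit false

open Set Filter Topology
open scoped BigOperators

namespace Pool.Agent.V11212.XI

open Pool.Agent.Helper954.Hopf.Dold

/-- iterated shift -/
def sha {p M : ℕ} (a : ZMod p) (x : VV p M) : VV p M := fun i l => x i (l - a)

theorem sha_mem {p M : ℕ} [NeZero p] (a : ZMod p) {x : VV p M} (hx : x ∈ JK p M) :
    sha a x ∈ JK p M := by
  obtain ⟨h0, h1, h2⟩ := hx
  refine ⟨fun i l => h0 i (l - a), ?_, fun i l l' hl => h2 i (l - a) (l' - a) (by simpa using hl)⟩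
  rw [← h1]
  refine Finset.sum_congr rfl fun i _ => ?_
  exact (Equiv.subRight a).sum_comp (fun l => x i l)

theorem dold_join (p : ℕ) [Fact p.Prime] (M N : ℕ) (hN : N < M) (ψ : VV p M → VV p N)
    (hc : ContinuousOn ψ (JK p M)) (hm : ∀ x ∈ JK p M, ψ x ∈ JK p N)
    (he : ∀ x ∈ JK p M, ψ (sh x) = sh (ψ x)) : False := by
  classical
  have : NeZero p := ⟨(Fact.out : p.Prime).ne_zero⟩
  have hcl : IsClosed (JK p M) := (D1c.dc_compact p M).isClosed
  obtain ⟨Ψ0, hΨ0⟩ := ContinuousMap.exists_restrict_eq (X := VV p M) (Y := VV p N) hcl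
    ⟨(JK p M).domRestrict ψ, continuousOn_iff_continuous_domRestrict.mp hc⟩
  have hext : ∀ x ∈ JK p M, Ψ0 x = ψ x := by
    intro x hx
    have := congrArg (fun f => f ⟨x, hx⟩) hΨ0
    exact this
  -- all shifts
  have hesh : ∀ (k : ℕ), ∀ x ∈ JK p M, ψ (sha (k : ZMod p) x) = sha (k : ZMod p) (ψ x) := by
    intro k
    induction k with
    | zero =>
      intro x hx
      have e : ∀ {M' : ℕ} (y : VV p M'), sha ((0 : ℕ) : ZMod p) y = y := by
        intro M' y
        funext i l
        simp [sha]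
      rw [e, e]
    | succ k ih =>
      intro x hx
      have e1 : sha ((k + 1 : ℕ) : ZMod p) x = sh (sha (k : ZMod p) x) := by
        funext i l
        show x i (l - ((k + 1 : ℕ) : ZMod p)) = x i (l - 1 - k)
        congr 1
        push_cast
        ring
      rw [e1, he _ (sha_mem _ hx), ih x hx]
      funext i l
      show ψ x i (l - 1 - k) = ψ x i (l - ((k + 1 : ℕ) : ZMod p))
      congr 1
      push_cast
      ring
  have hesh' : ∀ (a : ZMod p), ∀ x ∈ JK p M, ψ (sha a x) = sha a (ψ x) := by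
    intro a x hx
    have := hesh a.val x hx
    rwa [ZMod.natCast_zmod_val] at this
  let Ψ : VV p M → VV p N := fun x i l => ∑ a : ZMod p, Ψ0 (sha a x) i (l + a)
  have hshc : ∀ a : ZMod p, Continuous (sha a : VV p M → VV p M) := by
    intro a
    unfold sha
    fun_prop
  have hΨc : ∀ i l, Continuous fun x => Ψ x i l := by
    intro i l
    refine continuous_finsetSum _ fun a _ => ?_
    have h1 : Continuous fun x => Ψ0 (sha a x) := Ψ0.continuous.comp (hshc a)
    exact (continuous_apply (l + a)).comp ((continuous_apply i).comp h1)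
  have hΨsh : ∀ x i l, Ψ (sh x) i l = Ψ x i (l - 1) := by
    intro x i l
    show ∑ a : ZMod p, Ψ0 (sha a (sh x)) i (l + a) = ∑ a : ZMod p, Ψ0 (sha a x) i (l - 1 + a)
    rw [← Equiv.sum_comp (Equiv.addRight (1 : ZMod p))
      (fun a => Ψ0 (sha a x) i (l - 1 + a))]
    refine Finset.sum_congr rfl fun a _ => ?_
    have e1 : sha a (sh x) = sha (a + 1) x := by
      funext i l
      show x i (l - a - 1) = x i (l - (a + 1))
      congr 1
      ring
    have e2 : l - 1 + (a + 1) = l + a := by ring
    simp only [Equiv.coe_addRight]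
    rw [e1, e2]
  have hΨJ : ∀ x ∈ JK p M, ∀ i l, Ψ x i l = (p : ℝ) * ψ x i l := by
    intro x hx i l
    show ∑ a : ZMod p, Ψ0 (sha a x) i (l + a) = _
    have : ∀ a : ZMod p, Ψ0 (sha a x) i (l + a) = ψ x i l := by
      intro a
      rw [hext _ (sha_mem a hx), hesh' a x hx]
      show ψ x i (l + a - a) = _
      rw [add_sub_cancel_right]
    rw [Finset.sum_congr rfl fun a _ => this a, Finset.sum_const, Finset.card_univ, ZMod.card,
      nsmul_eq_mul]
  let O : Fin N → Set (VV p M) := fun j => {x | ∃ l, ∀ l', l' ≠ l → Ψ x j l' < Ψ x j l}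
  let Ol : Fin N → ZMod p → Set (VV p M) := fun j l => {x | ∀ l', l' ≠ l → Ψ x j l' < Ψ x j l}
  have hOl : ∀ j l, IsOpen (Ol j l) := by
    intro j l
    have : Ol j l = ⋂ l', ⋂ (_ : l' ≠ l), {x | Ψ x j l' < Ψ x j l} := by
      ext x
      simp only [Ol, mem_ofPred_eq, mem_iInter]
    rw [this]
    exact isOpen_iInter_of_finite fun l' => isOpen_iInter_of_finite fun _ =>
      isOpen_lt (hΨc j l') (hΨc j l)
  have huniq : ∀ j x l l', x ∈ Ol j l → x ∈ Ol j l' → l = l' := by
    intro j x l l' h h'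
    by_contra hne
    exact lt_asymm (h l' (Ne.symm hne)) (h' l hne)
  have hO : ∀ j, IsOpen (O j) := by
    intro j
    have : O j = ⋃ l, Ol j l := by
      ext x
      simp only [O, Ol, mem_ofPred_eq, mem_iUnion]
    rw [this]
    exact isOpen_iUnion fun l => hOl j l
  let lab : Fin N → VV p M → ZMod p := fun j x => if h : ∃ l, x ∈ Ol j l then h.choose else 0
  have hlabe : ∀ j x l, x ∈ Ol j l → lab j x = l := by
    intro j x l hx
    have h : ∃ l, x ∈ Ol j l := ⟨l, hx⟩
    show (if h : ∃ l, x ∈ Ol j l then h.choose else 0) = l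
    rw [dif_pos h]
    exact huniq j x _ _ h.choose_spec hx
  have hshO : ∀ j x l, x ∈ Ol j l → sh x ∈ Ol j (l + 1) := by
    intro j x l hx l' hl'
    show Ψ (sh x) j l' < Ψ (sh x) j (l + 1)
    rw [hΨsh, hΨsh, add_sub_cancel_right]
    refine hx (l' - 1) fun h => hl' ?_
    rw [← h]; ring
  obtain ⟨x, hx, hxO⟩ := D1c.join_cover p M (J := Fin N) (by simpa using hN) O hO lab
    (fun j x hx => by
      obtain ⟨l, hl⟩ := hx
      have hl' : x ∈ Ol j l := hl
      filter_upwards [(hOl j l).mem_nhds hl'] with y hy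
      rw [hlabe j y l hy, hlabe j x l hl'])
    (fun j x hx => by
      obtain ⟨l, hl⟩ := hx
      exact ⟨l + 1, hshO j x l hl⟩)
    (fun j x hx => by
      obtain ⟨l, hl⟩ := hx
      rw [hlabe j _ _ (hshO j x l hl), hlabe j x l hl])
  obtain ⟨h0, h1, h2⟩ := hm x hx
  have hz : ∀ j l, ψ x j l = 0 := by
    intro j l
    by_contra hne
    apply hxO j
    refine ⟨l, fun l' hl' => ?_⟩
    rw [hΨJ x hx, hΨJ x hx]
    have hpos : 0 < ψ x j l := lt_of_le_of_ne (h0 j l) (Ne.symm hne)
    have hz' : ψ x j l' = 0 := by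
      rcases h2 j l' l hl' with h | h
      · exact h
      · exact absurd h hne
    rw [hz', mul_zero]
    have hp : (0 : ℝ) < p := by exact_mod_cast (Fact.out : p.Prime).pos
    positivity
  have : ∑ i, ∑ l, ψ x i l = 0 :=
    Finset.sum_eq_zero fun i _ => Finset.sum_eq_zero fun l _ => hz i l
  rw [this] at h1
  norm_num at h1

/-- labels along the powers of an element of order `n` -/
theorem exists_rho {G : Type} [Group G] (γ : G) (n : ℕ) (hn : orderOf γ = n) (hn0 : n ≠ 0) :
    ∃ ρ : G → ZMod n, ∀ g, ρ (γ * g) = ρ g + 1 := by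
  classical
  let r := QuotientGroup.rightRel (Subgroup.zpowers γ)
  have key : ∀ g : G, ∃ k : ℤ, g = γ ^ k * (Quotient.out (Quotient.mk r g)) := by
    intro g
    have h : (r) (Quotient.out (Quotient.mk r g)) g := Quotient.mk_out g
    rw [QuotientGroup.rightRel_apply] at h
    obtain ⟨k, hk⟩ := Subgroup.mem_zpowers_iff.mp h
    exact ⟨k, by rw [hk]; group⟩
  choose k hk using key
  refine ⟨fun g => (k g : ZMod n), fun g => ?_⟩
  have hq : Quotient.mk r (γ * g) = Quotient.mk r g := by
    apply Quotient.sound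
    show r (γ * g) g
    rw [QuotientGroup.rightRel_apply]
    refine Subgroup.mem_zpowers_iff.mpr ⟨-1, ?_⟩
    group
  have h1 := hk (γ * g)
  have h2 := hk g
  rw [hq] at h1
  set o := Quotient.out (Quotient.mk r g) with ho
  have h3 : γ ^ (k (γ * g)) = γ ^ (k g + 1) := by
    have : γ * g = γ ^ (k g + 1) * o := by
      conv_lhs => rw [h2]
      rw [← mul_assoc, zpow_add, zpow_one, (Commute.refl γ |>.zpow_right _).eq]
    rw [h1] at this
    exact mul_right_cancel this
  have h4 := (zpow_eq_zpow_iff_modEq (x := γ)).mp h3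
  rw [hn] at h4
  have h5 := (ZMod.intCast_eq_intCast_iff _ _ n).mpr h4
  show ((k (γ * g) : ℤ) : ZMod n) = ((k g : ℤ) : ZMod n) + 1
  rw [h5]
  push_cast
  rfl

theorem dold (G : Type) [Group G] [Fintype G] [Nontrivial G] (m k : ℕ)
    (h : TopLe G (joinC G m) k) : m ≤ k := by
  classical
  by_contra hlt
  push Not at hlt
  have hcard : 1 < Fintype.card G := Fintype.one_lt_card
  have hpp : (Fintype.card G).minFac.Prime := Nat.minFac_prime (by omega)
  obtain ⟨p, hp, hpd⟩ : ∃ p, p.Prime ∧ p ∣ Fintype.card G := ⟨_, hpp, Nat.minFac_dvd _⟩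
  have : Fact p.Prime := ⟨hp⟩
  have : NeZero p := ⟨hp.ne_zero⟩
  obtain ⟨γ, hγ⟩ := exists_prime_orderOf_dvd_card p hpd
  obtain ⟨ρ, hρ⟩ := exists_rho γ p hγ hp.ne_zero
  obtain ⟨φ, hφc, hφm, hφe⟩ := h
  let J : VV p (m + 1) → (QP G m → ℝ) := fun x a =>
    ∑ l : ZMod p, if a.1 = γ ^ l.val then x a.2 l else 0
  let Ps : (QP G k → ℝ) → VV p (k + 1) := fun y i l =>
    ∑ g : G, if ρ g = l then y (g, i) else 0
  have hγs : ∀ l : ZMod p, γ ^ (l + 1).val = γ * γ ^ l.val := by
    intro l
    rw [← pow_succ']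
    apply (pow_eq_pow_iff_modEq (x := γ)).mpr
    rw [hγ, ZMod.val_add]
    have : (1 : ZMod p).val = 1 := by
      have : Fact (1 < p) := ⟨hp.one_lt⟩
      exact ZMod.val_one p
    rw [this]
    exact Nat.mod_modEq _ _
  have hγi : ∀ l l' : ZMod p, γ ^ l.val = γ ^ l'.val → l = l' := by
    intro l l' hl
    have := (pow_eq_pow_iff_modEq (x := γ)).mp hl
    rw [hγ] at this
    apply ZMod.val_injective p
    have h1 := Nat.mod_eq_of_lt (ZMod.val_lt l)
    have h2 := Nat.mod_eq_of_lt (ZMod.val_lt l')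
    rw [← h1, ← h2]
    exact this
  have hJm : ∀ x ∈ JK p (m + 1), J x ∈ Geo (joinC G m) := by
    rintro x ⟨h0, h1, h2⟩
    refine ⟨fun a => Finset.sum_nonneg fun l _ => by split_ifs; exacts [h0 _ _, le_rfl], ?_, ?_⟩
    · rw [show (∑ a : QP G m, J x a) = ∑ a : G × Fin (m + 1), J x a from rfl,
        Fintype.sum_prod_type_right]
      rw [← h1]
      refine Finset.sum_congr rfl fun i _ => ?_
      show ∑ g : G, ∑ l : ZMod p, (if g = γ ^ l.val then x i l else 0) = _
      rw [Finset.sum_comm]
      refine Finset.sum_congr rfl fun l _ => ?_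
      rw [Finset.sum_ite_eq' Finset.univ (γ ^ l.val) (fun _ => x i l)]
      simp
    · have hs : ∀ a ∈ Function.support (J x), ∃ l, a.1 = γ ^ l.val ∧ x a.2 l ≠ 0 := by
        intro a ha
        obtain ⟨l, -, hl⟩ := Finset.exists_ne_zero_of_sum_ne_zero (Function.mem_support.mp ha)
        by_cases hal : a.1 = γ ^ l.val
        · rw [if_pos hal] at hl
          exact ⟨l, hal, hl⟩
        · rw [if_neg hal] at hl
          exact absurd rfl hl
      refine ⟨?_, ?_⟩
      · by_contra hne
        rw [Set.not_nonempty_iff_eq_empty, Function.support_eq_empty_iff] at hne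
        have h3 : ∑ i, ∑ l, x i l = 0 := by
          refine Finset.sum_eq_zero fun i _ => Finset.sum_eq_zero fun l _ => ?_
          have h4 : J x (γ ^ l.val, i) = 0 := by rw [hne]; rfl
          have h5 := (Finset.sum_eq_zero_iff_of_nonneg (fun l _ => by
            split_ifs
            exacts [h0 _ _, le_rfl])).mp h4 l (Finset.mem_univ _)
          simpa using h5
        rw [h3] at h1
        norm_num at h1
      · intro a ha b hb hab
        obtain ⟨l, hl, hl'⟩ := hs a ha
        obtain ⟨l2, hl2, hl2'⟩ := hs b hb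
        have : l = l2 := by
          by_contra hne
          rcases h2 a.2 l l2 hne with h | h
          · exact hl' h
          · rw [hab] at h
            exact hl2' h
        refine Prod.ext ?_ hab
        rw [hl, hl2, this]
  have hJs : ∀ x, J (sh x) = mv γ (J x) := by
    intro x
    funext a
    show ∑ l : ZMod p, (if a.1 = γ ^ l.val then x a.2 (l - 1) else 0)
      = ∑ l : ZMod p, if (γ⁻¹ • a).1 = γ ^ l.val then x (γ⁻¹ • a).2 l else 0
    rw [← Equiv.sum_comp (Equiv.addRight (1 : ZMod p))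
      (fun l => if a.1 = γ ^ l.val then x a.2 (l - 1) else 0)]
    refine Finset.sum_congr rfl fun l _ => ?_
    simp only [Equiv.coe_addRight, add_sub_cancel_right]
    rw [hγs]
    have e : (a.1 = γ * γ ^ l.val) ↔ ((γ⁻¹ • a).1 = γ ^ l.val) := by
      show _ ↔ γ⁻¹ * a.1 = γ ^ l.val
      rw [inv_mul_eq_iff_eq_mul]
    by_cases h : a.1 = γ * γ ^ l.val
    · rw [if_pos h, if_pos (e.mp h)]
      rfl
    · rw [if_neg h, if_neg (fun h' => h (e.mpr h'))]
  have hPm : ∀ y ∈ Geo (joinC G k), Ps y ∈ JK p (k + 1) := by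
    rintro y ⟨h0, h1, h2⟩
    refine ⟨fun i l => Finset.sum_nonneg fun l _ => by split_ifs; exacts [h0 _, le_rfl], ?_, ?_⟩
    · rw [← h1, show (∑ a : QP G k, y a) = ∑ a : G × Fin (k + 1), y a from rfl,
        Fintype.sum_prod_type_right]
      refine Finset.sum_congr rfl fun i _ => ?_
      show ∑ l : ZMod p, ∑ g : G, (if ρ g = l then y (g, i) else 0) = _
      rw [Finset.sum_comm]
      refine Finset.sum_congr rfl fun g _ => ?_
      rw [Finset.sum_ite_eq Finset.univ (ρ g) (fun _ => y (g, i))]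
      simp
    · intro i l l' hl
      by_contra hcon
      push Not at hcon
      obtain ⟨ha, hb⟩ := hcon
      obtain ⟨g, -, hg⟩ := Finset.exists_ne_zero_of_sum_ne_zero ha
      obtain ⟨g', -, hg'⟩ := Finset.exists_ne_zero_of_sum_ne_zero hb
      by_cases e1 : ρ g = l
      · by_cases e2 : ρ g' = l'
        · rw [if_pos e1] at hg
          rw [if_pos e2] at hg'
          have := h2.2 (g, i) hg (g', i) hg' rfl
          have e3 : g = g' := congrArg Prod.fst this
          exact hl (by rw [← e1, ← e2, e3])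
        · rw [if_neg e2] at hg'
          exact hg' rfl
      · rw [if_neg e1] at hg
        exact hg rfl
  have hPs : ∀ y, Ps (mv γ y) = sh (Ps y) := by
    intro y
    funext i l
    show ∑ g : G, (if ρ g = l then y (γ⁻¹ * g, i) else 0)
      = ∑ g : G, if ρ g = l - 1 then y (g, i) else 0
    rw [← Equiv.sum_comp (Equiv.mulLeft γ) (fun g => if ρ g = l then y (γ⁻¹ * g, i) else 0)]
    refine Finset.sum_congr rfl fun g _ => ?_
    simp only [Equiv.coe_mulLeft, inv_mul_cancel_left]
    have e : ρ (γ * g) = l ↔ ρ g = l - 1 := by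
      rw [hρ]
      constructor
      · intro h; rw [← h]; ring
      · intro h; rw [h]; ring
    by_cases h : ρ (γ * g) = l
    · rw [if_pos h, if_pos (e.mp h)]
    · rw [if_neg h, if_neg (fun h' => h (e.mpr h'))]
  have hJc : Continuous J := by
    refine continuous_pi fun a => continuous_finsetSum _ fun l _ => ?_
    by_cases h : a.1 = γ ^ l.val
    · simp only [h, if_true]
      exact (continuous_apply l).comp (continuous_apply a.2)
    · simp only [h, if_false]
      exact continuous_const
  have hPc : Continuous Ps := by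
    refine continuous_pi fun i => continuous_pi fun l => continuous_finsetSum _ fun g _ => ?_
    by_cases h : ρ g = l
    · simp only [h, if_true]
      exact continuous_apply _
    · simp only [h, if_false]
      exact continuous_const
  refine dold_join p (m + 1) (k + 1) (by omega) (fun x => Ps (φ (J x))) ?_ ?_ ?_
  · exact hPc.comp_continuousOn (hφc.comp hJc.continuousOn hJm)
  · intro x hx
    exact hPm _ (hφm _ (hJm x hx))
  · intro x hx
    show Ps (φ (J (sh x))) = sh (Ps (φ (J x)))
    rw [hJs, hφe γ _ (hJm x hx), hPs]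

end Pool.Agent.V11212.XI
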