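import Pool.Agent.V11212.XI.Basic
import Pool.Agent.V11212.XI.Dold

set_option autoImplicit false

open Set Filter Topology
open scoped BigOperators Pointwise

namespace Pool.Agent.V11212.XI

section

variable {G : Type} [Group G] [Fintype G]

/-- composition with an equivariant continuous map, not yet normalised -/
theorem TopLe.compN {V W : Type} [Fintype V] [Fintype W] [MulAction G V] [MulAction G W]
    {K : Set (Set V)} {L : Set (Set W)} {k : ℕ} (h : TopLe G L k) (hL : ∀ s ∈ L, s.Nonempty)
    (μ : (V → ℝ) → (W → ℝ)) (hc : ContinuousOn μ (Geo K)) (h0 : ∀ x ∈ Geo K, ∀ w, 0 ≤ μ x w)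
    (hs : ∀ x ∈ Geo K, Function.support (μ x) ∈ L)
    (he : ∀ g : G, ∀ x ∈ Geo K, μ (mv g x) = mv g (μ x)) : TopLe G K k := by
  have hpos : ∀ x ∈ Geo K, 0 < ∑ w, μ x w := by
    intro x hx
    obtain ⟨w, hw⟩ := hL _ (hs x hx)
    have hw' : μ x w ≠ 0 := hw
    exact Finset.sum_pos' (fun w _ => h0 x hx w)
      ⟨w, Finset.mem_univ _, lt_of_le_of_ne (h0 x hx w) (Ne.symm hw')⟩
  refine h.comp (fun x w => μ x w / ∑ w', μ x w') ?_ ?_ ?_
  · have hc' : ∀ w, ContinuousOn (fun x => μ x w) (Geo K) := fun w =>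
      (continuous_apply w).comp_continuousOn hc
    refine continuousOn_pi.mpr fun w => ContinuousOn.div (hc' w) ?_ fun x hx => (hpos x hx).ne'
    exact continuousOn_finset_sum _ fun w' _ => hc' w'
  · intro x hx
    refine ⟨fun w => div_nonneg (h0 x hx w) (hpos x hx).le, ?_, ?_⟩
    · rw [← Finset.sum_div]
      exact div_self (hpos x hx).ne'
    · have : Function.support (fun w => μ x w / ∑ w', μ x w') = Function.support (μ x) := by
        ext w
        rw [Function.mem_support, Function.mem_support]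
        constructor
        · intro h h'
          exact h (by rw [h', zero_div])
        · intro h h'
          rcases div_eq_zero_iff.mp h' with h' | h'
          · exact h h'
          · exact (hpos x hx).ne' h'
      rw [this]
      exact hs x hx
  · intro g x hx
    funext w
    show μ (mv g x) w / ∑ w', μ (mv g x) w' = μ x (g⁻¹ • w) / ∑ w', μ x w'
    rw [he g x hx, sum_mv]
    rfl

/-- weight of the face `s` in the barycentric subdivision, not normalised -/
noncomputable def wt {V : Type} [Fintype V] (s : Set V) (x : V → ℝ) : ℝ := by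
  classical
  exact (∏ v : V, if v ∈ s then max 0 (x v) else 1) *
    ∏ v : V, ∏ u : V, if v ∈ s ∧ u ∉ s then max 0 (x v - x u) else 1

theorem wt_cont {V : Type} [Fintype V] (s : Set V) : Continuous (wt s) := by
  classical
  unfold wt
  refine Continuous.mul ?_ ?_
  · refine continuous_finset_prod _ fun v _ => ?_
    by_cases h : v ∈ s
    · simp only [h, if_true]
      fun_prop
    · simp only [h, if_false]
      exact continuous_const
  · refine continuous_finset_prod _ fun v _ => continuous_finset_prod _ fun u _ => ?_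
    by_cases h : v ∈ s ∧ u ∉ s
    · simp only [if_pos h]
      fun_prop
    · simp only [if_neg h]
      exact continuous_const

theorem wt_nonneg {V : Type} [Fintype V] (s : Set V) (x : V → ℝ) : 0 ≤ wt s x := by
  classical
  unfold wt
  refine mul_nonneg (Finset.prod_nonneg fun v _ => ?_)
    (Finset.prod_nonneg fun v _ => Finset.prod_nonneg fun u _ => ?_)
  · split_ifs
    exacts [le_max_left _ _, zero_le_one]
  · split_ifs
    exacts [le_max_left _ _, zero_le_one]

theorem wt_ne {V : Type} [Fintype V] (s : Set V) (x : V → ℝ) :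
    wt s x ≠ 0 ↔ (∀ v ∈ s, 0 < x v) ∧ ∀ v ∈ s, ∀ u, u ∉ s → x u < x v := by
  classical
  unfold wt
  rw [mul_ne_zero_iff, Finset.prod_ne_zero_iff, Finset.prod_ne_zero_iff]
  simp only [Finset.prod_ne_zero_iff]
  constructor
  · rintro ⟨h1, h2⟩
    refine ⟨fun v hv => ?_, fun v hv u hu => ?_⟩
    · have := h1 v (Finset.mem_univ _)
      rw [if_pos hv] at this
      by_contra hcon
      exact this (max_eq_left (not_lt.mp hcon))
    · have := h2 v (Finset.mem_univ _) u (Finset.mem_univ _)
      rw [if_pos ⟨hv, hu⟩] at this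
      by_contra hcon
      exact this (max_eq_left (by linarith [not_lt.mp hcon]))
  · rintro ⟨h1, h2⟩
    refine ⟨fun v _ => ?_, fun v _ u _ => ?_⟩
    · split_ifs with h
      · exact (lt_max_of_lt_right (h1 v h)).ne'
      · exact one_ne_zero
    · split_ifs with h
      · exact (lt_max_of_lt_right (by linarith [h2 v h.1 u h.2])).ne'
      · exact one_ne_zero

theorem wt_mv {V : Type} [Fintype V] [MulAction G V] (g : G) (s : Set V) (x : V → ℝ) :
    wt ((g • ·) '' s) (mv g x) = wt s x := by
  classical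
  unfold wt
  have hmem : ∀ v, g • v ∈ (g • ·) '' s ↔ v ∈ s := by
    intro v
    constructor
    · rintro ⟨u, hu, h⟩
      rw [← MulAction.injective g h]; exact hu
    · intro h; exact ⟨v, h, rfl⟩
  congr 1
  · rw [← Equiv.prod_comp (MulAction.toPerm g)]
    refine Finset.prod_congr rfl fun v _ => ?_
    rw [MulAction.toPerm_apply]
    by_cases h : v ∈ s
    · rw [if_pos h, if_pos ((hmem v).mpr h), mv_apply, inv_smul_smul]
    · rw [if_neg h, if_neg (fun h' => h ((hmem v).mp h'))]
  · rw [← Equiv.prod_comp (MulAction.toPerm g)]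
    refine Finset.prod_congr rfl fun v _ => ?_
    rw [← Equiv.prod_comp (MulAction.toPerm g)]
    refine Finset.prod_congr rfl fun u _ => ?_
    rw [MulAction.toPerm_apply, MulAction.toPerm_apply]
    by_cases h : v ∈ s ∧ u ∉ s
    · rw [if_pos h, if_pos ⟨(hmem v).mpr h.1, fun h' => h.2 ((hmem u).mp h')⟩, mv_apply, mv_apply,
        inv_smul_smul, inv_smul_smul]
    · rw [if_neg h, if_neg (fun h' => h ⟨(hmem v).mp h'.1, fun h2 => h'.2 ((hmem u).mpr h2)⟩)]

/-- `ind K ≤ Xind F(K)` -/
theorem FaceLe.topLe {V : Type} [Fintype V] [MulAction G V] {K : Set (Set V)} {k : ℕ}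
    (hK : IsGC G K) (h : FaceLe G K k) : TopLe G K k := by
  classical
  obtain ⟨f, h1, h2⟩ := h
  have hmemK : ∀ (g : G) s, (g • ·) '' s ∈ K ↔ s ∈ K := by
    intro g s
    constructor
    · intro h
      have := hK.2.2 g⁻¹ _ h
      rw [image_image] at this
      simpa using this
    · exact hK.2.2 g s
  refine (topLe_join k).compN (fun s hs => hs.1)
    (fun x q => ∑ s : Set V, if s ∈ K ∧ f s = q then wt s x else 0) ?_ ?_ ?_ ?_
  · refine Continuous.continuousOn (continuous_pi fun q => continuous_finset_sum _ fun s _ => ?_)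
    by_cases h : s ∈ K ∧ f s = q
    · simp only [if_pos h]
      exact wt_cont s
    · simp only [if_neg h]
      exact continuous_const
  · intro x hx q
    refine Finset.sum_nonneg fun s _ => ?_
    split_ifs
    exacts [wt_nonneg _ _, le_rfl]
  · intro x hx
    have hsupp : ∀ q, (∑ s : Set V, if s ∈ K ∧ f s = q then wt s x else 0) ≠ 0 ↔
        ∃ s, s ∈ K ∧ f s = q ∧ wt s x ≠ 0 := by
      intro q
      constructor
      · intro h
        obtain ⟨s, -, hs⟩ := Finset.exists_ne_zero_of_sum_ne_zero h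
        by_cases hc : s ∈ K ∧ f s = q
        · rw [if_pos hc] at hs
          exact ⟨s, hc.1, hc.2, hs⟩
        · rw [if_neg hc] at hs
          exact absurd rfl hs
      · rintro ⟨s, a1, a2, a3⟩ h
        have := (Finset.sum_eq_zero_iff_of_nonneg (fun s _ => by
          split_ifs
          exacts [wt_nonneg _ _, le_rfl])).mp h s (Finset.mem_univ _)
        rw [if_pos ⟨a1, a2⟩] at this
        exact a3 this
    obtain ⟨v0, hv0⟩ := support_nonempty hx.2.1
    have hne : Nonempty V := ⟨v0⟩
    obtain ⟨vm, hvm⟩ := Finite.exists_max x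
    have hvpos : 0 < x vm := lt_of_lt_of_le (lt_of_le_of_ne (hx.1 v0) (Ne.symm hv0)) (hvm v0)
    have hM : {v | x v = x vm} ∈ K := by
      refine hK.2.1 _ hx.2.2 _ ?_ ⟨vm, rfl⟩
      intro v hv
      have hv' : x v = x vm := hv
      rw [Function.mem_support, hv']
      exact hvpos.ne'
    have hMw : wt {v | x v = x vm} x ≠ 0 := by
      rw [wt_ne]
      refine ⟨fun v hv => ?_, fun v hv u hu => ?_⟩
      · rw [show x v = x vm from hv]; exact hvpos
      · rw [show x v = x vm from hv]
        exact lt_of_le_of_ne (hvm u) hu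
    refine ⟨⟨f {v | x v = x vm}, (hsupp _).mpr ⟨_, hM, rfl, hMw⟩⟩, ?_⟩
    rintro a ha b hb hab
    obtain ⟨s, s1, s2, s3⟩ := (hsupp a).mp ha
    obtain ⟨t, t1, t2, t3⟩ := (hsupp b).mp hb
    rw [wt_ne] at s3 t3
    have hcomp : s ⊆ t ∨ t ⊆ s := by
      by_contra hcon
      push Not at hcon
      obtain ⟨c1, c2⟩ := hcon
      obtain ⟨u, hu1, hu2⟩ := not_subset.mp c1
      obtain ⟨w, hw1, hw2⟩ := not_subset.mp c2
      have e1 := s3.2 u hu1 w hw2
      have e2 := t3.2 w hw1 u hu2
      linarith
    rcases hcomp with hc | hc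
    · have := h2 s s1 t t1 hc
      rw [s2, t2] at this
      rcases this with h | h
      · exact h
      · exact absurd hab (ne_of_lt h)
    · have := h2 t t1 s s1 hc
      rw [s2, t2] at this
      rcases this with h | h
      · exact h.symm
      · exact absurd hab.symm (ne_of_lt h)
  · intro g x hx
    funext q
    show (∑ s : Set V, if s ∈ K ∧ f s = q then wt s (mv g x) else 0) =
      ∑ s : Set V, if s ∈ K ∧ f s = g⁻¹ • q then wt s x else 0
    rw [← Equiv.sum_comp (MulAction.toPerm g : Equiv.Perm (Set V))]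
    refine Finset.sum_congr rfl fun s _ => ?_
    have e : (MulAction.toPerm g : Equiv.Perm (Set V)) s = (g • ·) '' s := rfl
    rw [e]
    by_cases hc : s ∈ K ∧ f s = g⁻¹ • q
    · rw [if_pos hc, if_pos ⟨(hmemK g s).mpr hc.1, by rw [h1 g s hc.1, hc.2, smul_inv_smul]⟩,
        wt_mv]
    · rw [if_neg hc, if_neg]
      rintro ⟨h3, h4⟩
      have h5 := (hmemK g s).mp h3
      refine hc ⟨h5, ?_⟩
      rw [← h4, h1 g s h5, inv_smul_smul]

end

/-- the face poset of `E_m G` maps to `Q_m G` -/
theorem faceLe_join (G : Type) [Group G] [Fintype G] (m : ℕ) : FaceLe G (joinC G m) m := by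
  classical
  have hmax : ∀ s : Set (QP G m), ∃ a : QP G m, s ∈ joinC G m → a ∈ s ∧ ∀ b ∈ s, b.2 ≤ a.2 := by
    intro s
    by_cases hs : s ∈ joinC G m
    · obtain ⟨a, ha, hb⟩ := Set.exists_max_image s (fun a => a.2) (Set.toFinite s) hs.1
      exact ⟨a, fun _ => ⟨ha, hb⟩⟩
    · exact ⟨(1, 0), fun h => absurd h hs⟩
  choose f hf using hmax
  refine ⟨f, fun g s hs => ?_, fun s hs t ht hst => ?_⟩
  · have hgs := (joinC_gc G m).2.2 g s hs
    obtain ⟨a1, a2⟩ := hf s hs
    obtain ⟨b1, b2⟩ := hf _ hgs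
    refine hgs.2 _ b1 _ ⟨_, a1, rfl⟩ ?_
    refine le_antisymm ?_ (b2 _ ⟨_, a1, rfl⟩)
    obtain ⟨c, hc, hce⟩ := b1
    rw [← hce]
    exact a2 c hc
  · obtain ⟨a1, a2⟩ := hf s hs
    obtain ⟨b1, b2⟩ := hf t ht
    rcases lt_or_eq_of_le (b2 _ (hst a1)) with h | h
    · exact Or.inr h
    · exact Or.inl (ht.2 _ (hst a1) _ b1 h)

end Pool.Agent.V11212.XI
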