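import Pool.Agent.V11212.XI.Cone
import Pool.Agent.V11212.XI.Face

set_option autoImplicit false

open Set Filter Topology
open scoped BigOperators

namespace Pool.Agent.V11212.XI

/-- the colouring lemma -/
theorem tree (F : ℕ) : ∃ (L : Type) (_ : Fintype L) (J : L → L → ℕ), (∀ x y, J x y = J y x) ∧
    ∀ c : L → ℕ, (∀ x, c x < F) → ∃ x y, x ≠ y ∧ c x = J x y ∧ c y = J x y := by
  classical
  induction F with
  | zero =>
    exact ⟨Unit, inferInstance, fun _ _ => 0, fun _ _ => rfl, fun c hc => absurd (hc ()) (by omega)⟩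
  | succ F ih =>
    obtain ⟨L, iL, J, hJ, h⟩ := ih
    refine ⟨Bool × L, inferInstance, fun p q => if p.1 = q.1 then J p.2 q.2 else F, ?_, ?_⟩
    · intro x y
      show (if x.1 = y.1 then J x.2 y.2 else F) = (if y.1 = x.1 then J y.2 x.2 else F)
      by_cases hxy : x.1 = y.1
      · rw [if_pos hxy, if_pos hxy.symm, hJ]
      · rw [if_neg hxy, if_neg (fun h => hxy h.symm)]
    · intro c hc
      by_cases hb : ∃ b : Bool, ∀ x, c (b, x) < F
      · obtain ⟨b, hb⟩ := hb
        obtain ⟨x, y, h1, h2, h3⟩ := h (fun x => c (b, x)) hb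
        refine ⟨(b, x), (b, y), fun h => h1 (congrArg Prod.snd h), ?_, ?_⟩
        · show c (b, x) = if b = b then J x y else F
          rw [if_pos rfl]; exact h2
        · show c (b, y) = if b = b then J x y else F
          rw [if_pos rfl]; exact h3
      · push Not at hb
        obtain ⟨x, hx⟩ := hb false
        obtain ⟨y, hy⟩ := hb true
        refine ⟨(false, x), (true, y), fun h => ?_, ?_, ?_⟩
        · have := congrArg Prod.fst h
          exact absurd this (by simp)
        · show c (false, x) = if false = true then J x y else F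
          rw [if_neg (by simp)]
          exact le_antisymm (Nat.lt_succ_iff.mp (hc _)) hx
        · show c (true, y) = if false = true then J x y else F
          rw [if_neg (by simp)]
          exact le_antisymm (Nat.lt_succ_iff.mp (hc _)) hy

/-- the colouring lemma with an ordered set of leaves -/
theorem tree' (W : Type) [Finite W] [Nonempty W] : ∃ (M : ℕ) (J : Fin M → Fin M → W),
    ∀ c : Fin M → W, ∃ x y, x < y ∧ c x = J x y ∧ c y = J x y := by
  classical
  obtain ⟨F, ⟨e⟩⟩ := Finite.exists_equiv_fin W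
  obtain ⟨L, iL, J, hJ, h⟩ := tree F
  obtain ⟨M, ⟨u⟩⟩ := Finite.exists_equiv_fin L
  obtain ⟨w0⟩ := ‹Nonempty W›
  refine ⟨M, fun x y => if h : J (u.symm x) (u.symm y) < F then e.symm ⟨_, h⟩ else w0, ?_⟩
  intro c
  obtain ⟨x, y, h1, h2, h3⟩ := h (fun l => (e (c (u l))).1) (fun l => (e (c (u l))).2)
  have key : ∀ x y : L, (e (c (u x))).1 = J x y →
      c (u x) = if h : J (u.symm (u x)) (u.symm (u y)) < F then e.symm ⟨_, h⟩ else w0 := by
    intro x y h2
    have hlt : J x y < F := by rw [← h2]; exact (e (c (u x))).2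
    have hlt' : J (u.symm (u x)) (u.symm (u y)) < F := by
      rw [u.symm_apply_apply, u.symm_apply_apply]; exact hlt
    rw [dif_pos hlt']
    apply e.injective
    rw [e.apply_symm_apply]
    apply Fin.ext
    show (e (c (u x))).1 = J (u.symm (u x)) (u.symm (u y))
    rw [u.symm_apply_apply, u.symm_apply_apply]
    exact h2
  have keyJ : ∀ x y : L, (if h : J (u.symm (u x)) (u.symm (u y)) < F then e.symm ⟨_, h⟩ else w0) =
      (if h : J (u.symm (u y)) (u.symm (u x)) < F then e.symm ⟨_, h⟩ else w0) := by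
    intro x y
    have : J (u.symm (u x)) (u.symm (u y)) = J (u.symm (u y)) (u.symm (u x)) := hJ _ _
    simp only [this]
  have a1 := key x y h2
  have a2 := key y x (by rw [hJ]; exact h3)
  rcases lt_trichotomy (u x) (u y) with hlt | heq | hgt
  · exact ⟨u x, u y, hlt, a1, a2.trans (keyJ y x)⟩
  · exact absurd (u.injective heq) h1
  · exact ⟨u y, u x, hgt, a2, a1.trans (keyJ x y)⟩

/-- vertices: `M` copies of `V` -/
def LV (M : ℕ) (V : Type) : Type := Fin M × V

instance (M : ℕ) (V : Type) [Fintype V] : Fintype (LV M V) := inferInstanceAs (Fintype (Fin M × V))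

instance (G : Type) (M : ℕ) (V : Type) [Group G] [MulAction G V] : MulAction G (LV M V) where
  smul g p := (p.1, g • p.2)
  one_smul p := by
    show (p.1, (1 : G) • p.2) = p
    rw [one_smul]; rfl
  mul_smul g h p := by
    show (p.1, (g * h) • p.2) = (p.1, g • h • p.2)
    rw [mul_smul]

/-- vertex in copy `c` -/
def lin {M : ℕ} {V : Type} (c : Fin M) (v : V) : LV M V := (c, v)

theorem lin_inj {M : ℕ} {V : Type} {c c' : Fin M} {v v' : V} (h : lin c v = lin c' v') :
    c = c' ∧ v = v' := ⟨congrArg Prod.fst h, congrArg Prod.snd h⟩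

/-- a handle -/
def hdl {G V : Type} [Group G] [MulAction G V] {M : ℕ} (S : Fin M → Fin M → Set V) (h : G)
    (x y : Fin M) (g : G) : Set (LV M V) :=
  {w | (w.1 = x ∧ g⁻¹ • w.2 ∈ S x y) ∨ (w.1 = y ∧ (g * h)⁻¹ • w.2 ∈ S x y)}

/-- copies of `K` joined by handles -/
def hC {G V : Type} [Group G] [MulAction G V] {M : ℕ} (K : Set (Set V))
    (S : Fin M → Fin M → Set V) (h : G) : Set (Set (LV M V)) :=
  {s | (∃ x, ∃ t ∈ K, s = lin x '' t) ∨ (s.Nonempty ∧ ∃ x y g, x < y ∧ s ⊆ hdl S h x y g)}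

/-- everything we need about a complex -/
structure GoodK (G : Type) [Group G] [Fintype G] (V : Type) [Fintype V] [MulAction G V]
    (K : Set (Set V)) (m n : ℕ) : Prop where
  gc : IsGC G K
  pts : ∀ v, {v} ∈ K
  simple : ∀ s ∈ K, ∀ v ∈ s, ∀ g : G, g • v ∈ s → g = 1
  top : TopLe G K m
  topl : ∀ k, TopLe G K k → m ≤ k
  face : FaceLe G K n
  facel : ∀ k, FaceLe G K k → n ≤ k

theorem GoodK.free {G : Type} [Group G] [Fintype G] {V : Type} [Fintype V] [MulAction G V]
    {K : Set (Set V)} {m n : ℕ} (h : GoodK G V K m n) (g : G) (x : V → ℝ) (hx : x ∈ Geo K)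
    (hg : mv g x = x) : g = 1 := by
  obtain ⟨v, hv⟩ := support_nonempty hx.2.1
  refine h.simple _ hx.2.2 v hv g ?_
  rw [Function.mem_support, ← hg, mv_apply, inv_smul_smul]
  exact hv

theorem goodK_base (G : Type) [Group G] [Fintype G] [Nontrivial G] (m : ℕ) :
    GoodK G (QP G m) (joinC G m) m m := by
  refine ⟨joinC_gc G m, fun v => ⟨singleton_nonempty v, ?_⟩, ?_, topLe_join m,
    fun k hk => dold G m k hk, faceLe_join G m, fun k hk => dold G m k (hk.topLe (joinC_gc G m))⟩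
  · rintro b hb c hc -
    rw [mem_singleton_iff] at hb hc
    rw [hb, hc]
  · intro s hs v hv g hg
    have : g • v = v := hs.2 _ hg _ hv rfl
    have : g * v.1 = v.1 := congrArg Prod.fst this
    exact mul_eq_right.mp this

/-- more levels -/
theorem FaceLe.mono {G : Type} [Group G] {V : Type} [MulAction G V] {K : Set (Set V)} {k n : ℕ}
    (h : FaceLe G K k) (hkn : k ≤ n) : FaceLe G K n := by
  obtain ⟨f, h1, h2⟩ := h
  have hkn' : k + 1 ≤ n + 1 := Nat.succ_le_succ hkn
  refine ⟨fun v => ((f v).1, Fin.castLE hkn' (f v).2), fun g s hs => ?_, fun s hs t ht hst => ?_⟩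
  · show ((f _).1, _) = (g * (f s).1, _)
    rw [h1 g s hs]; rfl
  · rcases h2 s hs t ht hst with h | h
    · left
      show ((f s).1, Fin.castLE hkn' (f s).2) = ((f t).1, Fin.castLE hkn' (f t).2)
      rw [h]
    · right
      exact h

section

variable {G V : Type} [Group G] [MulAction G V] {M : ℕ} {K : Set (Set V)}
  {S : Fin M → Fin M → Set V} {h : G}

theorem hC_down (hd : ∀ s ∈ K, ∀ t, t ⊆ s → t.Nonempty → t ∈ K) :
    ∀ s ∈ hC K S h, ∀ t, t ⊆ s → t.Nonempty → t ∈ hC K S h := by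
  rintro s (⟨x, s0, hs0, rfl⟩ | ⟨-, x, y, g, hxy, hs⟩) t hts ht
  · left
    have e : t = lin x '' {v | lin x v ∈ t} := by
      ext w
      constructor
      · intro hw
        obtain ⟨v, hv, rfl⟩ := hts hw
        exact ⟨v, hw, rfl⟩
      · rintro ⟨v, hv, rfl⟩
        exact hv
    refine ⟨x, {v | lin x v ∈ t}, hd _ hs0 _ ?_ ?_, e⟩
    · intro v hv
      obtain ⟨v', hv', h⟩ := hts hv
      rw [← (lin_inj h).2]
      exact hv'
    · rw [e] at ht
      exact ht.of_image
  · exact Or.inr ⟨ht, x, y, g, hxy, hts.trans hs⟩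

theorem hC_gc (hK : IsGC G K) : IsGC G (hC K S h) := by
  refine ⟨?_, hC_down hK.2.1, ?_⟩
  · rintro s (⟨x, s0, hs0, rfl⟩ | ⟨h, -⟩)
    · exact (hK.1 s0 hs0).image _
    · exact h
  · rintro g s (⟨x, s0, hs0, rfl⟩ | ⟨hne, x, y, g', hxy, hs⟩)
    · left
      refine ⟨x, (g • ·) '' s0, hK.2.2 g s0 hs0, ?_⟩
      rw [image_image, image_image]
      rfl
    · right
      refine ⟨hne.image _, x, y, g * g', hxy, ?_⟩
      rintro _ ⟨w, hw, rfl⟩
      rcases hs hw with ⟨h1, h2⟩ | ⟨h1, h2⟩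
      · left
        refine ⟨h1, ?_⟩
        show (g * g')⁻¹ • g • w.2 ∈ S x y
        rw [smul_smul, mul_inv_rev, inv_mul_cancel_right]
        exact h2
      · right
        refine ⟨h1, ?_⟩
        show (g * g' * h)⁻¹ • g • w.2 ∈ S x y
        rw [smul_smul, show (g * g' * h)⁻¹ * g = (g' * h)⁻¹ by group]
        exact h2

/-- a simplex is in one copy, or it is mixed and then in a unique handle -/
theorem hC_cases (hK : IsGC G K) (hS : ∀ x y, S x y ∈ K) {s : Set (LV M V)} (hs : s ∈ hC K S h) :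
    (∃ x, ∃ t ∈ K, s = lin x '' t) ∨ ∃ x y g, x < y ∧ s ⊆ hdl S h x y g ∧
      (∃ v, lin x v ∈ s) ∧ ∃ v, lin y v ∈ s := by
  rcases hs with h1 | ⟨hne, x, y, g, hxy, hs⟩
  · exact Or.inl h1
  · by_cases hx : ∃ v, lin x v ∈ s
    · by_cases hy : ∃ v, lin y v ∈ s
      · exact Or.inr ⟨x, y, g, hxy, hs, hx, hy⟩
      · left
        push Not at hy
        have e : s = lin x '' {v | lin x v ∈ s} := by
          ext w
          constructor
          · intro hw
            rcases hs hw with ⟨h1, h2⟩ | ⟨h1, h2⟩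
            · exact ⟨w.2, by rw [← h1]; exact hw, by rw [← h1]; rfl⟩
            · exact absurd (show lin y w.2 ∈ s by rw [← h1]; exact hw) (hy w.2)
          · rintro ⟨v, hv, rfl⟩
            exact hv
        refine ⟨x, {v | lin x v ∈ s}, hK.2.1 _ (hK.2.2 g _ (hS x y)) _ ?_ hx, e⟩
        intro v hv
        rcases hs hv with ⟨h1, h2⟩ | ⟨h1, h2⟩
        · exact ⟨g⁻¹ • v, h2, smul_inv_smul g v⟩
        · exact absurd (show lin y v ∈ s by
            have : x = y := h1
            rw [← this]; exact hv) (hy v)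
    · left
      push Not at hx
      have e : s = lin y '' {v | lin y v ∈ s} := by
        ext w
        constructor
        · intro hw
          rcases hs hw with ⟨h1, h2⟩ | ⟨h1, h2⟩
          · exact absurd (show lin x w.2 ∈ s by rw [← h1]; exact hw) (hx w.2)
          · exact ⟨w.2, by rw [← h1]; exact hw, by rw [← h1]; rfl⟩
        · rintro ⟨v, hv, rfl⟩
          exact hv
      refine ⟨y, {v | lin y v ∈ s}, hK.2.1 _ (hK.2.2 (g * h) _ (hS x y)) _ ?_ ?_, e⟩
      · intro v hv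
        rcases hs hv with ⟨h1, h2⟩ | ⟨h1, h2⟩
        · exact absurd (show lin x v ∈ s by
            have : y = x := h1
            rw [← this]; exact hv) (hx v)
        · exact ⟨(g * h)⁻¹ • v, h2, smul_inv_smul (g * h) v⟩
      · rw [e] at hne
        exact hne.of_image

/-- uniqueness of the handle of a mixed simplex -/
theorem hdl_unique (hsimple : ∀ s ∈ K, ∀ v ∈ s, ∀ g : G, g • v ∈ s → g = 1)
    (hS : ∀ x y, S x y ∈ K) {s : Set (LV M V)} {x y x' y' : Fin M} {g g' : G} (hxy : x < y)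
    (hs : s ⊆ hdl S h x y g) (hx : ∃ v, lin x v ∈ s) (hy : ∃ v, lin y v ∈ s) (hxy' : x' < y')
    (hs' : s ⊆ hdl S h x' y' g') : x = x' ∧ y = y' ∧ g = g' := by
  obtain ⟨v, hv⟩ := hx
  obtain ⟨u, hu⟩ := hy
  have hx1 : g⁻¹ • v ∈ S x y := by
    rcases hs hv with ⟨-, h2⟩ | ⟨h1, -⟩
    · exact h2
    · exact absurd h1 (ne_of_lt hxy)
  have hxx : x = x' ∧ y = y' := by
    have a1 : x = x' ∨ x = y' := by
      rcases hs' hv with ⟨h1, -⟩ | ⟨h1, -⟩
      · exact Or.inl h1
      · exact Or.inr h1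
    have a2 : y = x' ∨ y = y' := by
      rcases hs' hu with ⟨h1, -⟩ | ⟨h1, -⟩
      · exact Or.inl h1
      · exact Or.inr h1
    omega
  obtain ⟨rfl, rfl⟩ := hxx
  refine ⟨rfl, rfl, ?_⟩
  have hx2 : g'⁻¹ • v ∈ S x y := by
    rcases hs' hv with ⟨-, h2⟩ | ⟨h1, -⟩
    · exact h2
    · exact absurd h1 (ne_of_lt hxy)
  have := hsimple _ (hS x y) _ hx1 (g'⁻¹ * g) (by
    rw [smul_smul, mul_inv_cancel_right]; exact hx2)
  exact (inv_mul_eq_one.mp this).symm

theorem not_mixed {x : Fin M} {t : Set V} {x1 y1 : Fin M} (h : x1 < y1)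
    (h1 : ∃ v, lin x1 v ∈ lin x '' t) (h2 : ∃ v, lin y1 v ∈ lin x '' t) : False := by
  obtain ⟨v, u, -, hv⟩ := h1
  obtain ⟨v', u', -, hv'⟩ := h2
  have a := (lin_inj hv).1
  have b := (lin_inj hv').1
  rw [← a, ← b] at h
  exact lt_irrefl _ h

theorem lin_image_inj {x x' : Fin M} {t t' : Set V} (ht : t.Nonempty)
    (h : lin x '' t ⊆ lin x' '' t') : x = x' ∧ t ⊆ t' := by
  constructor
  · obtain ⟨v, hv⟩ := ht
    obtain ⟨u, -, hu⟩ := h ⟨v, hv, rfl⟩
    exact (lin_inj hu).1.symm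
  · intro v hv
    obtain ⟨u, hu, he⟩ := h ⟨v, hv, rfl⟩
    rw [← (lin_inj he).2]
    exact hu

/-- the new complex has cross-index at most one more -/
theorem hC_face (hK : IsGC G K) (hsimple : ∀ s ∈ K, ∀ v ∈ s, ∀ g : G, g • v ∈ s → g = 1)
    (hS : ∀ x y, S x y ∈ K) {n : ℕ} (hf : FaceLe G K n) : FaceLe G (hC K S h) (n + 1) := by
  classical
  obtain ⟨f, hf1, hf2⟩ := hf
  let F : Set (LV M V) → QP G (n + 1) := fun s =>
    if h1 : ∃ x t, t ∈ K ∧ s = lin x '' t then
      ((f h1.choose_spec.choose).1, (f h1.choose_spec.choose).2.castSucc)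
    else if h2 : ∃ g x y, x < y ∧ s ⊆ hdl S h x y g then (h2.choose, Fin.last (n + 1))
    else (1, 0)
  have hF1 : ∀ x t, t ∈ K → F (lin x '' t) = ((f t).1, (f t).2.castSucc) := by
    intro x t ht
    have h1 : ∃ x' t', t' ∈ K ∧ lin x '' t = lin x' '' t' := ⟨x, t, ht, rfl⟩
    have h2 := h1.choose_spec.choose_spec
    have e : h1.choose_spec.choose = t :=
      subset_antisymm (lin_image_inj (hK.1 _ h2.1) h2.2.ge).2 (lin_image_inj (hK.1 _ ht) h2.2.le).2
    show (if h1 : ∃ x' t', t' ∈ K ∧ lin x '' t = lin x' '' t' then _ else _) = _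
    rw [dif_pos h1, e]
  have hF2 : ∀ s x y g, x < y → s ⊆ hdl S h x y g → (∃ v, lin x v ∈ s) → (∃ v, lin y v ∈ s) →
      F s = (g, Fin.last (n + 1)) := by
    intro s x y g hxy hs hx hy
    have h1 : ¬ ∃ x' t', t' ∈ K ∧ s = lin x' '' t' := by
      rintro ⟨x', t', -, rfl⟩
      exact not_mixed hxy hx hy
    have h2 : ∃ g x y, x < y ∧ s ⊆ hdl S h x y g := ⟨g, x, y, hxy, hs⟩
    obtain ⟨x', y', hxy', hs'⟩ := h2.choose_spec
    have e := (hdl_unique hsimple hS hxy hs hx hy hxy' hs').2.2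
    show (if h1 : ∃ x' t', t' ∈ K ∧ s = lin x' '' t' then _ else _) = _
    rw [dif_neg h1, dif_pos h2, ← e]
  refine ⟨F, ?_, ?_⟩
  · intro g s hs
    rcases hC_cases hK hS hs with ⟨x, t, ht, rfl⟩ | ⟨x, y, g', hxy, hs, hx, hy⟩
    · have e : (g • ·) '' (lin x '' t : Set (LV M V)) = lin x '' ((g • ·) '' t) := by
        rw [image_image, image_image]; rfl
      rw [e, hF1 x _ (hK.2.2 g t ht), hF1 x t ht, hf1 g t ht]
      rfl
    · rw [hF2 s x y g' hxy hs hx hy]
      refine hF2 _ x y (g * g') hxy ?_ ?_ ?_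
      · rintro _ ⟨w, hw, rfl⟩
        rcases hs hw with ⟨h1, h2⟩ | ⟨h1, h2⟩
        · left
          refine ⟨h1, ?_⟩
          show (g * g')⁻¹ • g • w.2 ∈ S x y
          rw [smul_smul, mul_inv_rev, inv_mul_cancel_right]
          exact h2
        · right
          refine ⟨h1, ?_⟩
          show (g * g' * h)⁻¹ • g • w.2 ∈ S x y
          rw [smul_smul, show (g * g' * h)⁻¹ * g = (g' * h)⁻¹ by group]
          exact h2
      · obtain ⟨v, hv⟩ := hx
        exact ⟨g • v, _, hv, rfl⟩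
      · obtain ⟨v, hv⟩ := hy
        exact ⟨g • v, _, hv, rfl⟩
  · intro s hs t ht hst
    rcases hC_cases hK hS ht with ⟨x, t0, ht0, rfl⟩ | ⟨x, y, g, hxy, ht', hx, hy⟩
    · rcases hC_cases hK hS hs with ⟨x', s0, hs0, rfl⟩ | ⟨x', y', g', hxy', hs', hx', hy'⟩
      · obtain ⟨-, h2⟩ := lin_image_inj (hK.1 _ hs0) hst
        rw [hF1 _ _ hs0, hF1 _ _ ht0]
        rcases hf2 s0 hs0 t0 ht0 h2 with h3 | h3
        · left; rw [h3]
        · right
          exact Fin.castSucc_lt_castSucc_iff.mpr h3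
      · exfalso
        refine not_mixed (x := x) (t := t0) hxy' ?_ ?_
        · obtain ⟨v, hv⟩ := hx'
          exact ⟨v, hst hv⟩
        · obtain ⟨v, hv⟩ := hy'
          exact ⟨v, hst hv⟩
    · rw [hF2 t x y g hxy ht' hx hy]
      rcases hC_cases hK hS hs with ⟨x', s0, hs0, rfl⟩ | ⟨x', y', g', hxy', hs', hx', hy'⟩
      · rw [hF1 _ _ hs0]
        right
        exact Fin.castSucc_lt_last _
      · rw [hF2 s x' y' g' hxy' hs' hx' hy']
        left
        rw [(hdl_unique hsimple hS hxy' hs' hx' hy' hxy (hst.trans ht')).2.2]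

end

end Pool.Agent.V11212.XI
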