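import Pool.Agent.V11212.XI.Sub
import Pool.Agent.Y806.NG.LowTwo
import Pool.Agent.Y806.NG.Nice

set_option autoImplicit false

open Set Filter Topology
open scoped BigOperators

namespace Pool.Agent.V11212.XI

open Pool.Agent.Results.MP_19f4d1_co.CyclicOrderFour Pool.Agent.Y806.NG

section

variable {G : Type} [Group G] [Fintype G]

/-- a point of our realisation of `E_k G` as a point of the other one -/
noncomputable def toE (k : ℕ) (y : QP G k → ℝ) (hy : y ∈ Geo (joinC G k)) :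
    (E G k).Realization :=
  letI := joinAction G k
  mkPoint (G := G) (V := Fin (k + 1) × G) (fun q => y (q.2, q.1)) (fun q => hy.1 _)
    (by
      rw [← hy.2.1]
      exact Fintype.sum_equiv (Equiv.prodComm (Fin (k + 1)) G) _ _ fun q => rfl)
    (fun p q hp hq h => by
      have := hy.2.2.2 (p.2, p.1) hp (q.2, q.1) hq h
      exact Prod.ext h (congrArg Prod.fst this))

theorem ind_le_of_topLe {V : Type} [Fintype V] [MulAction G V] (R : V → V → Prop)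
    (hr : ∀ v, R v v) (hG : ∀ (g : G) p q, R p q → R (g • p) (g • q)) (k : ℕ)
    (h : TopLe G {s : Set V | s.Nonempty ∧ ∀ p ∈ s, ∀ q ∈ s, R p q} k) :
    ind G (cliqueComplex V R hr hG).Realization ≤ k := by
  obtain ⟨φ, h1, h2, h3⟩ := h
  have hmem : ∀ x : (cliqueComplex V R hr hG).Realization,
      (x.val : V → ℝ) ∈ Geo {s : Set V | s.Nonempty ∧ ∀ p ∈ s, ∀ q ∈ s, R p q} := by
    intro x
    refine ⟨x.nonneg, x.sum_eq, support_nonempty x.sum_eq, fun p hp q hq => ?_⟩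
    exact rel_of_ne x p q hp hq
  refine sInf_le ⟨k, rfl, fun x => toE k (φ x.val) (h2 _ (hmem x)), ?_, ?_⟩
  · refine (continuous_iff_val (E G k) _).2 fun v => ?_
    have hc : Continuous fun x : (cliqueComplex V R hr hG).Realization => φ x.val :=
      h1.comp_continuous (continuous_val _) hmem
    exact (continuous_apply (v.2, v.1)).comp hc
  · intro g x
    apply GComplex.Realization.ext
    funext v
    have e : φ ((g • x).val) = mv g (φ x.val) := h3 g x.val (hmem x)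
    exact congrFun e (v.2, v.1)

/-- a `G`-map of the face poset gives a map of faces -/
theorem CrossLe.faceLe (X : GCx G) {k : ℕ} (h : CrossLe G X.Face k) : FaceLe G X.K k := by
  classical
  obtain ⟨f, h1, h2⟩ := h
  obtain ⟨F, hF⟩ : ∃ F : Set X.V → QP G k, ∀ s, ∀ hs : s ∈ X.K, F s = f ⟨s, hs⟩ :=
    ⟨fun s => if h : s ∈ X.K then f ⟨s, h⟩ else (1, 0), fun s hs => dif_pos hs⟩
  refine ⟨F, fun g s hs => ?_, fun s hs t ht hst => ?_⟩
  · rw [hF s hs, hF _ (X.gc.2.2 g s hs)]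
    exact h1 g ⟨s, hs⟩
  · rw [hF s hs, hF t ht]
    exact h2 hst

/-- the simplices of the first complex -/
def S1 (z : G) (p : ℕ) : Set (Set (V1 z p)) :=
  {s | s.Nonempty ∧ ∀ f ∈ s, ∀ f' ∈ s, ∀ g, (f.1 g).1 = (f'.1 g).1 → f.1 g = f'.1 g}

/-- the first complex -/
noncomputable def X1 (z : G) (p : ℕ) [NeZero p] : GCx G where
  V := V1 z p
  fin := inferInstance
  act := act1 z p
  K := S1 z p
  gc := by
    let _ := act1 z p
    refine ⟨fun s hs => hs.1, fun s hs t hts ht => ⟨ht, fun f hf f' hf' =>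
      hs.2 f (hts hf) f' (hts hf')⟩, fun g s hs => ⟨hs.1.image _, ?_⟩⟩
    rintro _ ⟨f, hf, rfl⟩ _ ⟨f', hf', rfl⟩ a ha
    exact hs.2 f hf f' hf' (a * g) ha
  pts := by
    intro v
    refine ⟨singleton_nonempty v, ?_⟩
    rintro f hf f' hf' g -
    rw [mem_singleton_iff] at hf hf'
    rw [hf, hf']

/-- the simplices of the second complex -/
def S2 (z : G) : Set (Set (Fin 3 × G)) :=
  {s | s.Nonempty ∧ ∀ p ∈ s, ∀ q ∈ s, (p.1 = q.1 → p = q) ∧ p.2⁻¹ * q.2 ∈ Subgroup.zpowers z}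

/-- the second complex -/
def X2 (z : G) : GCx G where
  V := Fin 3 × G
  fin := inferInstance
  act := joinAction G 2
  K := S2 z
  gc := by
    let _ := joinAction G 2
    refine ⟨fun s hs => hs.1, fun s hs t hts ht => ⟨ht, fun f hf f' hf' =>
      hs.2 f (hts hf) f' (hts hf')⟩, fun g s hs => ⟨hs.1.image _, ?_⟩⟩
    rintro _ ⟨p, hp, rfl⟩ _ ⟨q, hq, rfl⟩
    obtain ⟨h1, h2⟩ := hs.2 p hp q hq
    refine ⟨fun h => ?_, ?_⟩
    · rw [h1 h]
    · show (g * p.2)⁻¹ * (g * q.2) ∈ Subgroup.zpowers z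
      rw [mul_inv_rev, mul_assoc, inv_mul_cancel_left]
      exact h2
  pts := by
    intro v
    refine ⟨singleton_nonempty v, ?_⟩
    intro p hp q hq
    rw [mem_singleton_iff] at hp hq
    rw [hp, hq]
    exact ⟨fun _ => rfl, by rw [inv_mul_cancel]; exact one_mem _⟩

theorem X1_not {p : ℕ} [NeZero p] {c : G} (hp : 2 ≤ p) (hc : orderOf c = p ^ 2)
    (hz : ∀ g, c ^ p * g = g * c ^ p) : ¬ CrossLe G (X1 (c ^ p) p).Face 1 := by
  intro h
  have h1 : TopLe G (X1 (c ^ p) p).K 1 := (CrossLe.faceLe _ h).topLe (X1 (c ^ p) p).gc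
  have h2 : ind G (K1 (c ^ p) p).Realization ≤ 1 := by
    let _ := act1 (c ^ p) p
    exact ind_le_of_topLe (G := G) (V := V1 (c ^ p) p)
      (fun f f' => ∀ g, (f.1 g).1 = (f'.1 g).1 → f.1 g = f'.1 g)
      (fun _ _ _ => rfl) (fun x _ _ h g => h (g * x)) 1 h1
  have h3 := (K1_index hp hc hz).trans h2
  exact absurd h3 (by decide)

theorem X2_not {p : ℕ} {z : G} (hp : 2 ≤ p) (hz : orderOf z = p) :
    ¬ CrossLe G (X2 z).Face 1 := by
  intro h
  have h1 : TopLe G (X2 z).K 1 := (CrossLe.faceLe _ h).topLe (X2 z).gc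
  have h2 : ind G (K2 z).Realization ≤ 1 := by
    let _ := joinAction G 2
    exact ind_le_of_topLe (G := G) (V := Fin 3 × G)
      (fun p q => (p.1 = q.1 → p = q) ∧ p.2⁻¹ * q.2 ∈ Subgroup.zpowers z) _
      (fun g p q h => ⟨fun e => congrArg _ (h.1 e), by
        show (g * p.2)⁻¹ * (g * q.2) ∈ Subgroup.zpowers z
        rw [mul_inv_rev, mul_assoc, inv_mul_cancel_left]
        exact h.2⟩) 1 h1
  have h3 := (K2_index z hp hz).trans h2
  exact absurd h3 (by decide)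

theorem X1_free {z : G} {p : ℕ} [NeZero p] (hp : 2 ≤ p)
    (hU : ∀ g : G, g ≠ 1 → ∃ n : ℕ, g ^ n = z) :
    ∀ (g : G) (s : (X1 z p).Face), g • s = s → g = 1 := by
  intro g s hs
  by_contra hg
  obtain ⟨n, hn⟩ := hU g hg
  have key : ∀ m : ℕ, g ^ m • s = s := by
    intro m
    induction m with
    | zero => rw [pow_zero, one_smul]
    | succ m ih => rw [pow_succ, mul_smul, hs, ih]
  have h2 := key n
  rw [hn] at h2
  obtain ⟨f, hf⟩ : s.1.Nonempty := (X1 z p).gc.1 _ s.2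
  have h3 : z • f ∈ s.1 := by
    have : z • f ∈ (z • s).1 := ⟨f, hf, rfl⟩
    rw [h2] at this
    exact this
  have hS : s.1 ∈ S1 z p := s.2
  have e1 : (z • f : V1 z p).1 1 = ((f.1 1).1, (f.1 1).2 + 1) := by
    show f.1 (1 * z) = _
    rw [one_mul, ← f.2 1, mul_one]
  have h4 := hS.2 f hf (z • f) h3 1 (by rw [e1])
  rw [e1] at h4
  have h5 : (f.1 1).2 = (f.1 1).2 + 1 := congrArg Prod.snd h4
  have h7 : (1 : ZMod p) = 0 := by simpa using h5.symm
  have : Fact (1 < p) := ⟨hp⟩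
  exact one_ne_zero h7

theorem X2_free {z : G} : ∀ (g : G) (s : (X2 z).Face), g • s = s → g = 1 := by
  intro g s hs
  obtain ⟨q, hq⟩ : s.1.Nonempty := (X2 z).gc.1 _ s.2
  have h3 : g • q ∈ s.1 := by
    have : g • q ∈ (g • s).1 := ⟨q, hq, rfl⟩
    rw [hs] at this
    exact this
  have hS : s.1 ∈ S2 z := s.2
  have h4 := (hS.2 _ h3 q hq).1 rfl
  have h5 : g * q.2 = q.2 := congrArg Prod.snd h4
  exact mul_eq_right.mp h5

theorem zpow_val {z : G} {p : ℕ} [NeZero p] (hz : orderOf z = p) (c : ZMod p) (n : ℤ) :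
    z ^ n * z ^ ((c - (n : ZMod p)).val : ℤ) = z ^ (c.val : ℤ) := by
  rw [← zpow_add, ← mul_inv_eq_one, ← zpow_neg, ← zpow_add, ← orderOf_dvd_iff_zpow_eq_one, hz,
    ← ZMod.intCast_zmod_eq_zero_iff_dvd]
  push_cast
  rw [ZMod.natCast_zmod_val, ZMod.natCast_zmod_val]
  ring

/-- the map on the product of the face posets -/
theorem prod_cross {z : G} {p : ℕ} [NeZero p] (hz : orderOf z = p) :
    CrossLe G ((X1 z p).Face × (X2 z).Face) 1 := by
  classical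
  have hM : ∀ (s : (X1 z p).Face) (g : G), ∃ f : V1 z p, f ∈ (s.1 : Set (V1 z p)) ∧
      ∀ f' ∈ (s.1 : Set (V1 z p)), (f'.1 g).1 ≤ (f.1 g).1 := by
    intro s g
    obtain ⟨f, h1, h2⟩ := Set.exists_max_image (s.1 : Set (V1 z p)) (fun f => (f.1 g).1)
      (Set.toFinite _) ((X1 z p).gc.1 _ s.2)
    exact ⟨f, h1, h2⟩
  choose M hM1 hM2 using hM
  have hA : ∀ t : (X2 z).Face, ∃ q : Fin 3 × G, q ∈ (t.1 : Set (Fin 3 × G)) :=
    fun t => (X2 z).gc.1 _ t.2
  choose A hA using hA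
  let Ψ : (X1 z p).Face × (X2 z).Face → QP G 1 := fun w =>
    ((A w.2).2 * z ^ ((((M w.1 (A w.2).2⁻¹).1 (A w.2).2⁻¹).2.val : ℕ) : ℤ),
      ((M w.1 (A w.2).2⁻¹).1 (A w.2).2⁻¹).1)
  have key : ∀ (s : (X1 z p).Face) (t : (X2 z).Face) (a : G) (q : Fin 3 × G) (f : V1 z p),
      q ∈ (t.1 : Set (Fin 3 × G)) → q.2⁻¹ * a ∈ Subgroup.zpowers z → f ∈ (s.1 : Set (V1 z p)) →
      (∀ f' ∈ (s.1 : Set (V1 z p)), (f'.1 a⁻¹).1 ≤ (f.1 a⁻¹).1) →
      Ψ (s, t) = (a * z ^ (((f.1 a⁻¹).2.val : ℕ) : ℤ), (f.1 a⁻¹).1) := by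
    intro s t a q f hq hqa hf hfm
    have hS : (s.1 : Set (V1 z p)) ∈ S1 z p := s.2
    have hT : (t.1 : Set (Fin 3 × G)) ∈ S2 z := t.2
    set a0 := (A t).2 with ha0
    set f0 := M s a0⁻¹ with hf0
    have h1 : a0⁻¹ * a ∈ Subgroup.zpowers z := by
      have h2 := (hT.2 (A t) (hA t) q hq).2
      have : a0⁻¹ * a = (a0⁻¹ * q.2) * (q.2⁻¹ * a) := by group
      rw [this]
      exact mul_mem h2 hqa
    obtain ⟨n, hn⟩ := Subgroup.mem_zpowers_iff.1 h1
    have ha : a = a0 * z ^ n := by rw [hn, mul_inv_cancel_left]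
    have hev : ∀ f : V1 z p, f.1 a⁻¹ = ((f.1 a0⁻¹).1, (f.1 a0⁻¹).2 - (n : ZMod p)) := by
      intro f
      rw [ha, mul_inv_rev, ← zpow_neg, V1_zpow]
      push_cast
      rw [sub_eq_add_neg]
    have hlev : (f0.1 a⁻¹).1 = (f.1 a⁻¹).1 := by
      refine le_antisymm (hfm f0 (hM1 s a0⁻¹)) ?_
      rw [hev f, hev f0]
      exact hM2 s a0⁻¹ f hf
    have heq : f0.1 a⁻¹ = f.1 a⁻¹ := hS.2 f0 (hM1 s a0⁻¹) f hf a⁻¹ hlev
    rw [← heq, hev f0]
    show (a0 * z ^ (((f0.1 a0⁻¹).2.val : ℕ) : ℤ), (f0.1 a0⁻¹).1) =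
      (a * z ^ ((((f0.1 a0⁻¹).2 - (n : ZMod p)).val : ℕ) : ℤ), (f0.1 a0⁻¹).1)
    rw [ha, mul_assoc, zpow_val hz]
  refine ⟨Ψ, ?_, ?_⟩
  · rintro g ⟨s, t⟩
    have h1 := key (g • s) (g • t) (g * (A t).2) ((A t).1, g * (A t).2) (tr g (M s (A t).2⁻¹))
      ⟨A t, hA t, rfl⟩ ?_ ⟨_, hM1 s _, rfl⟩ ?_
    · rw [show g • (s, t) = (g • s, g • t) from rfl, h1]
      have e : (tr g (M s (A t).2⁻¹)).1 (g * (A t).2)⁻¹ =
          (M s (A t).2⁻¹).1 (A t).2⁻¹ := by
        show (M s (A t).2⁻¹).1 ((g * (A t).2)⁻¹ * g) = _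
        rw [mul_inv_rev, inv_mul_cancel_right]
      rw [e]
      show (g * (A t).2 * _, _) = (g * ((A t).2 * _), _)
      rw [mul_assoc]
    · show (g * (A t).2)⁻¹ * (g * (A t).2) ∈ Subgroup.zpowers z
      rw [inv_mul_cancel]
      exact one_mem _
    · rintro _ ⟨f', hf', rfl⟩
      show (f'.1 ((g * (A t).2)⁻¹ * g)).1 ≤ ((M s (A t).2⁻¹).1 ((g * (A t).2)⁻¹ * g)).1
      rw [mul_inv_rev, inv_mul_cancel_right]
      exact hM2 s _ f' hf'
  · rintro ⟨s, t⟩ ⟨s', t'⟩ ⟨hs, ht⟩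
    have hs' : (s.1 : Set (V1 z p)) ⊆ s'.1 := hs
    have ht' : (t.1 : Set (Fin 3 × G)) ⊆ t'.1 := ht
    have h1 := key s t (A t).2 (A t) (M s (A t).2⁻¹) (hA t) (by
      rw [inv_mul_cancel]; exact one_mem _) (hM1 s _) (hM2 s _)
    have h2 := key s' t' (A t).2 (A t) (M s' (A t).2⁻¹) (ht' (hA t)) (by
      rw [inv_mul_cancel]; exact one_mem _) (hM1 s' _) (hM2 s' _)
    rw [h1, h2]
    have h3 := hM2 s' (A t).2⁻¹ (M s (A t).2⁻¹) (hs' (hM1 s _))
    have hS' : (s'.1 : Set (V1 z p)) ∈ S1 z p := s'.2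
    rcases lt_or_eq_of_le h3 with h4 | h4
    · exact Or.inr h4
    · left
      rw [hS'.2 _ (hs' (hM1 s _)) _ (hM1 s' _) _ h4]

/-- the product formula for the cross-index of face posets fails for every nice group whose order
is not a prime -/
theorem hed (hG : IsNice G) (hn : ¬ (Nat.card G).Prime) :
    ∃ X Y : GCx G, (∀ (g : G) (s : X.Face), g • s = s → g = 1) ∧
      (∀ (g : G) (s : Y.Face), g • s = s → g = 1) ∧
      ∃ a b c, IsLeast {k | CrossLe G X.Face k} a ∧ IsLeast {k | CrossLe G Y.Face k} b ∧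
        IsLeast {k | CrossLe G (X.Face × Y.Face) k} c ∧ c < min a b := by
  classical
  obtain ⟨p, c, hp, hc, hcomm, hU⟩ := nice_structure hG hn
  have : NeZero p := ⟨by omega⟩
  have hz : orderOf (c ^ p) = p := by
    have hp0 : p ≠ 0 := by omega
    rw [orderOf_pow_of_dvd hp0 (by rw [hc]; exact dvd_pow_self p (by norm_num)), hc, pow_two,
      Nat.mul_div_cancel _ (by omega)]
  have f1 := X1_free (z := c ^ p) (p := p) hp hU
  have f2 := X2_free (z := c ^ p)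
  have h1 : ∃ k, CrossLe G (X1 (c ^ p) p).Face k := exists_cross G _ (GCx.smul_mono _) f1
  have h2 : ∃ k, CrossLe G (X2 (c ^ p)).Face k := exists_cross G _ (GCx.smul_mono _) f2
  have h3 : ∃ k, CrossLe G ((X1 (c ^ p) p).Face × (X2 (c ^ p)).Face) k := ⟨1, prod_cross hz⟩
  refine ⟨X1 (c ^ p) p, X2 (c ^ p), f1, f2, Nat.find h1, Nat.find h2, Nat.find h3,
    ⟨Nat.find_spec h1, fun k hk => Nat.find_min' h1 hk⟩,
    ⟨Nat.find_spec h2, fun k hk => Nat.find_min' h2 hk⟩,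
    ⟨Nat.find_spec h3, fun k hk => Nat.find_min' h3 hk⟩, ?_⟩
  have e1 : 1 < Nat.find h1 := by
    by_contra hcon
    push Not at hcon
    exact X1_not hp hc hcomm ((Nat.find_spec h1).mono' hcon)
  have e2 : 1 < Nat.find h2 := by
    by_contra hcon
    push Not at hcon
    exact X2_not hp hz ((Nat.find_spec h2).mono' hcon)
  have e3 : Nat.find h3 ≤ 1 := Nat.find_min' h3 (prod_cross hz)
  exact lt_of_le_of_lt e3 (lt_min e1 e2)

end

end Pool.Agent.V11212.XI
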