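import Pool.Agent.V11212.XI.Cone
import Pool.Agent.V11212.XI.Dold

set_option autoImplicit false

open Set

namespace Pool.Agent.V11212.XI

/-- the new poset: `C` copies of `P`, and a new element above every choice of one element in each
copy -/
abbrev PS (C P : Type) : Type := CW C P (C → P)

/-- order of the new poset -/
def psLe {C P : Type} [PartialOrder P] : PS C P → PS C P → Prop
  | Sum.inl x, Sum.inl y => x.1 = y.1 ∧ x.2 ≤ y.2
  | Sum.inl x, Sum.inr z => x.2 ≤ z x.1
  | Sum.inr z, Sum.inr z' => z = z'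
  | Sum.inr _, Sum.inl _ => False

instance (C P : Type) [PartialOrder P] : PartialOrder (PS C P) where
  le := psLe
  le_refl a := by
    rcases a with x | z
    · exact ⟨rfl, le_rfl⟩
    · exact rfl
  le_trans a b c h1 h2 := by
    rcases a with x | z <;> rcases b with y | z' <;> rcases c with w | z''
    · exact ⟨h1.1.trans h2.1, h1.2.trans h2.2⟩
    · obtain ⟨h3, h4⟩ : x.1 = y.1 ∧ x.2 ≤ y.2 := h1
      have h5 : y.2 ≤ z'' y.1 := h2
      show x.2 ≤ z'' x.1
      rw [h3]; exact h4.trans h5
    · exact absurd h2 (fun h => h)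
    · have h5 : x.2 ≤ z' x.1 := h1
      have h6 : z' = z'' := h2
      show x.2 ≤ z'' x.1
      rw [← h6]; exact h5
    · exact absurd h1 (fun h => h)
    · exact absurd h1 (fun h => h)
    · exact absurd h2 (fun h => h)
    · exact Eq.trans (h1 : z = z') (h2 : z' = z'')
  le_antisymm a b h1 h2 := by
    rcases a with x | z <;> rcases b with y | z'
    · obtain ⟨h3, h4⟩ : x.1 = y.1 ∧ x.2 ≤ y.2 := h1
      obtain ⟨h5, h6⟩ : y.1 = x.1 ∧ y.2 ≤ x.2 := h2
      exact congrArg Sum.inl (Prod.ext h3 (le_antisymm h4 h6))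
    · exact absurd h2 (fun h => h)
    · exact absurd h1 (fun h => h)
    · exact congrArg Sum.inr (h1 : z = z')

theorem ps_cc {C P : Type} [PartialOrder P] {c c' : C} {p q : P} :
    (cin c p : PS C P) ≤ cin c' q ↔ c = c' ∧ p ≤ q := Iff.rfl

theorem ps_cz {C P : Type} [PartialOrder P] {c : C} {p : P} {z : C → P} :
    (cin c p : PS C P) ≤ zin z ↔ p ≤ z c := Iff.rfl

theorem ps_zz {C P : Type} [PartialOrder P] {z z' : C → P} :
    (zin z : PS C P) ≤ zin z' ↔ z = z' := Iff.rfl

theorem ps_zc {C P : Type} [PartialOrder P] {c : C} {p : P} {z : C → P} :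
    ¬ (zin z : PS C P) ≤ cin c p := fun h => h

/-- everything we need about a poset -/
structure GoodP (G : Type) [Group G] [Fintype G] (P : Type) [PartialOrder P] [Fintype P]
    [MulAction G P] (m n : ℕ) : Prop where
  mono : ∀ (g : G) (p q : P), p ≤ q → g • p ≤ g • q
  free : ∀ (g : G) (p : P), g • p = p → g = 1
  top : TopLe G (orderC P) m
  topl : ∀ k, TopLe G (orderC P) k → m ≤ k
  cross : CrossLe G P n
  simpl : ∀ k, SimpLe G (orderC P) k → n ≤ k
  ne : Nonempty P

theorem orderC_QP (G : Type) [Group G] (m : ℕ) : orderC (QP G m) = joinC G m := by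
  ext s
  constructor
  · rintro ⟨h1, h2⟩
    refine ⟨h1, fun a ha b hb hab => ?_⟩
    by_contra hne
    rcases h2 ha hb hne with h | h
    · rcases h with h | h
      · exact hne h
      · exact absurd hab (ne_of_lt h)
    · rcases h with h | h
      · exact hne h.symm
      · exact absurd hab.symm (ne_of_lt h)
  · rintro ⟨h1, h2⟩
    refine ⟨h1, fun a ha b hb hne => ?_⟩
    rcases lt_trichotomy a.2 b.2 with h | h | h
    · exact Or.inl (Or.inr h)
    · exact absurd (h2 a ha b hb h) hne
    · exact Or.inr (Or.inr h)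

theorem goodP_base (G : Type) [Group G] [Fintype G] [Nontrivial G] (m : ℕ) :
    GoodP G (QP G m) m m := by
  refine ⟨?_, ?_, ?_, ?_, ?_, ?_, ⟨(1, 0)⟩⟩
  · rintro g p q (h | h)
    · rw [h]
    · exact Or.inr h
  · intro g p h
    have : g * p.1 = p.1 := congrArg Prod.fst h
    exact mul_eq_right.mp this
  · rw [orderC_QP]; exact topLe_join m
  · intro k hk
    rw [orderC_QP] at hk
    exact dold G m k hk
  · exact ⟨id, fun _ _ => rfl, monotone_id⟩
  · intro k hk
    have := hk.topLe
    rw [orderC_QP] at this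
    exact dold G m k this

/-- more levels -/
theorem SimpLe.mono {G : Type} [Group G] {V : Type} [MulAction G V] {K : Set (Set V)} {k n : ℕ}
    (h : SimpLe G K k) (hkn : k ≤ n) : SimpLe G K n := by
  obtain ⟨f, h1, h2⟩ := h
  refine ⟨fun v => ((f v).1, Fin.castLE (by omega) (f v).2), fun g v => ?_, fun s hs =>
    ⟨((h2 s hs).1.of_image).image _, ?_⟩⟩
  · show ((f (g • v)).1, _) = (g * (f v).1, _)
    rw [h1]; rfl
  · rintro _ ⟨a, ha, rfl⟩ _ ⟨b, hb, rfl⟩ hab
    have h3 : (f a).2 = (f b).2 := Fin.castLE_injective (Nat.succ_le_succ hkn : k + 1 ≤ n + 1) hab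
    have h4 := (h2 s hs).2 (f a) ⟨a, ha, rfl⟩ (f b) ⟨b, hb, rfl⟩ h3
    show ((f a).1, _) = ((f b).1, _)
    rw [h4]

/-- every level is attained -/
theorem attain {G : Type} [Group G] {V : Type} [MulAction G V] {K : Set (Set V)} {k : ℕ}
    (hK : ¬ SimpLe G K k) (f : V → QP G (k + 1)) (h1 : ∀ (g : G) v, f (g • v) = g • f v)
    (h2 : ∀ s ∈ K, f '' s ∈ joinC G (k + 1)) (i : Fin (k + 1 + 1)) : ∃ v, (f v).2 = i := by
  by_contra hcon
  push Not at hcon
  have h3 : ∀ v, ∃ j, i.succAbove j = (f v).2 := fun v => Fin.exists_succAbove_eq (hcon v)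
  choose r hr using h3
  apply hK
  refine ⟨fun v => ((f v).1, r v), fun g v => ?_, fun s hs => ⟨((h2 s hs).1.of_image).image _, ?_⟩⟩
  · refine Prod.ext ?_ ?_
    · show (f (g • v)).1 = g * (f v).1
      rw [h1]; rfl
    · show r (g • v) = r v
      apply Fin.succAbove_right_injective (p := i)
      rw [hr, hr, h1]
      rfl
  · rintro _ ⟨a, ha, rfl⟩ _ ⟨b, hb, rfl⟩ hab
    have hab' : r a = r b := hab
    have h3 : (f a).2 = (f b).2 := by rw [← hr, ← hr, hab']
    have h4 := (h2 s hs).2 (f a) ⟨a, ha, rfl⟩ (f b) ⟨b, hb, rfl⟩ h3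
    refine Prod.ext ?_ hab'
    show (f a).1 = (f b).1
    rw [h4]

theorem goodP_step (G : Type) [Group G] [Fintype G] [Nontrivial G] (P : Type) [PartialOrder P]
    [Fintype P] [MulAction G P] (m n : ℕ) (hm : 1 ≤ m) (hn : 1 ≤ n) (hP : GoodP G P m n) :
    GoodP G (PS (Fin (n + 1) × Bool) P) m (n + 1) := by
  classical
  set C := Fin (n + 1) × Bool with hC
  let c0 : C := (0, false)
  obtain ⟨p0⟩ := hP.ne
  have hmono : ∀ (g : G) (p q : PS C P), p ≤ q → g • p ≤ g • q := by
    intro g p q h
    rcases p with x | z <;> rcases q with y | z'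
    · exact ⟨h.1, hP.mono g _ _ h.2⟩
    · exact hP.mono g _ _ (h : x.2 ≤ z' x.1)
    · exact absurd h (fun h => h)
    · have : z = z' := h
      rw [this]
  obtain ⟨f, hf1, hf2⟩ := hP.cross
  have hnz : Nonempty (C → P) := ⟨fun _ => p0⟩
  let ℓ : (C → P) → G := fun z => (f (z c0)).1
  have hℓ : ∀ (g : G) (z : C → P), ℓ (g • z) = g * ℓ z := by
    intro g z
    show (f (g • z c0)).1 = g * (f (z c0)).1
    rw [hf1]; rfl
  refine ⟨hmono, ?_, ?_, ?_, ?_, ?_, ⟨cin c0 p0⟩⟩
  · intro g p h
    rcases CW_cases p with ⟨c, v, rfl⟩ | ⟨z, rfl⟩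
    · exact hP.free g v (cin_inj (h : cin c (g • v) = cin c v)).2
    · have h1 : g • z = z := zin_inj (h : zin (g • z) = zin z)
      exact hP.free g (z c0) (congrFun h1 c0)
  · have hx := top_cone (Z := C → P) (C := C) (orderC_gc G P hP.mono) hP.top hm
      (fun z c => z c) (fun g z c => rfl)
      (fun z c => ⟨singleton_nonempty _, IsChain.singleton⟩) ℓ hℓ
    refine TopLe.mono hx ?_
    rintro s ⟨hs1, hs2⟩
    by_cases hz : ∃ z, zin z ∈ s
    · obtain ⟨z, hz⟩ := hz
      have hle : ∀ c p, cin c p ∈ s → p ≤ z c := by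
        intro c p hp
        rcases hs2 hp hz (by exact cin_ne) with h | h
        · exact h
        · exact absurd h ps_zc
      have hzz : ∀ z', zin z' ∈ s → z' = z := by
        intro z' hz'
        by_contra hne
        rcases hs2 hz' hz (fun h => hne (zin_inj h)) with h | h
        · exact hne h
        · exact hne h.symm
      by_cases hc : ∃ c p, cin c p ∈ s
      · obtain ⟨c, p, hp⟩ := hc
        have hcc : ∀ c' p', cin c' p' ∈ s → c' = c := by
          intro c' p' hp'
          by_cases he : (cin c' p' : PS C P) = cin c p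
          · exact (cin_inj he).1
          · rcases hs2 hp' hp he with h | h
            · exact h.1
            · exact h.1.symm
        refine ⟨hs1, c, {q | cin c q ∈ s}, Or.inr ⟨z, ?_, ?_⟩⟩
        · refine ⟨insert_nonempty _ _, ?_⟩
          have hch : IsChain (· ≤ ·) {q : P | (cin c q : PS C P) ∈ s} := by
            intro a ha b hb hab
            rcases hs2 ha hb (fun h => hab (cin_inj h).2) with h | h
            · exact Or.inl h.2
            · exact Or.inr h.2
          exact hch.insert fun b hb _ => Or.inr (hle c b hb)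
        · ext w
          constructor
          · intro hw
            rcases CW_cases w with ⟨c', v, rfl⟩ | ⟨z', rfl⟩
            · right
              have := hcc c' v hw
              subst this
              exact ⟨v, hw, rfl⟩
            · left
              rw [hzz z' hw]
          · rintro (rfl | ⟨v, hv, rfl⟩)
            · exact hz
            · exact hv
      · push Not at hc
        refine ⟨hs1, c0, ∅, Or.inr ⟨z, ⟨insert_nonempty _ _, ?_⟩, ?_⟩⟩
        · rw [insert_empty_eq]
          exact IsChain.singleton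
        · rw [image_empty, insert_empty_eq]
          ext w
          constructor
          · intro hw
            rcases CW_cases w with ⟨c', v, rfl⟩ | ⟨z', rfl⟩
            · exact absurd hw (hc c' v)
            · rw [hzz z' hw]; rfl
          · rintro rfl
            exact hz
    · push Not at hz
      obtain ⟨w0, hw0⟩ := hs1
      obtain ⟨c, p, rfl⟩ : ∃ c p, w0 = cin c p := by
        rcases CW_cases w0 with h | ⟨z, rfl⟩
        · exact h
        · exact absurd hw0 (hz z)
      have hcc : ∀ c' p', cin c' p' ∈ s → c' = c := by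
        intro c' p' hp'
        by_cases he : (cin c' p' : PS C P) = cin c p
        · exact (cin_inj he).1
        · rcases hs2 hp' hw0 he with h | h
          · exact h.1
          · exact h.1.symm
      refine ⟨⟨_, hw0⟩, c, {q | cin c q ∈ s}, Or.inl ⟨⟨⟨p, hw0⟩, ?_⟩, ?_⟩⟩
      · intro a ha b hb hab
        rcases hs2 ha hb (fun h => hab (cin_inj h).2) with h | h
        · exact Or.inl h.2
        · exact Or.inr h.2
      · ext w
        constructor
        · intro hw
          rcases CW_cases w with ⟨c', v, rfl⟩ | ⟨z', rfl⟩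
          · have := hcc c' v hw
            subst this
            exact ⟨v, hw, rfl⟩
          · exact absurd hw (hz z')
        · rintro ⟨v, hv, rfl⟩
          exact hv
  · intro k hk
    refine hP.topl k (TopLe.pull hk (fun p => (cin c0 p : PS C P)) ?_ fun g p => rfl)
    rintro s ⟨hs1, hs2⟩
    refine ⟨hs1.image _, ?_⟩
    rintro _ ⟨a, ha, rfl⟩ _ ⟨b, hb, rfl⟩ hab
    rcases hs2 ha hb (fun h => hab (by rw [h])) with h | h
    · exact Or.inl ⟨rfl, h⟩
    · exact Or.inr ⟨rfl, h⟩
  · refine ⟨fun w => Sum.elim (fun x => ((f x.2).1, (f x.2).2.castSucc))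
      (fun z => (ℓ z, Fin.last (n + 1))) w, ?_, ?_⟩
    · intro g w
      rcases w with x | z
      · show ((f (g • x.2)).1, (f (g • x.2)).2.castSucc) = (g * (f x.2).1, (f x.2).2.castSucc)
        rw [hf1]; rfl
      · show (ℓ (g • z), Fin.last (n + 1)) = (g * ℓ z, Fin.last (n + 1))
        rw [hℓ]
    · intro a b h
      rcases a with x | z <;> rcases b with y | z'
      · rcases hf2 h.2 with h3 | h3
        · left
          show ((f x.2).1, (f x.2).2.castSucc) = ((f y.2).1, (f y.2).2.castSucc)
          rw [h3]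
        · right
          exact Fin.castSucc_lt_castSucc_iff.mpr h3
      · right
        exact Fin.castSucc_lt_last _
      · exact absurd h (fun h => h)
      · have : z = z' := h
        rw [this]
  · intro k hk
    by_contra hlt
    push Not at hlt
    obtain ⟨F, hF1, hF2⟩ := hk.mono (show k ≤ n by omega)
    obtain ⟨n', rfl⟩ : ∃ n', n = n' + 1 := ⟨n - 1, by omega⟩
    have hno : ¬ SimpLe G (orderC P) n' := fun h => by
      have := hP.simpl n' h
      omega
    have hatt : ∀ (c : C) (i : Fin (n' + 1 + 1)), ∃ p : P, (F (cin c p)).2 = i := by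
      intro c i
      refine attain hno (fun p => F (cin c p)) (fun g p => hF1 g (cin c p)) (fun s hs => ?_) i
      have e : (fun p => F (cin c p)) '' s = F '' ((fun p => (cin c p : PS C P)) '' s) := by
        rw [image_image]
      rw [e]
      apply hF2
      refine ⟨hs.1.image _, ?_⟩
      rintro _ ⟨a, ha, rfl⟩ _ ⟨b, hb, rfl⟩ hab
      rcases hs.2 ha hb (fun h => hab (by rw [h])) with h | h
      · exact Or.inl ⟨rfl, h⟩
      · exact Or.inr ⟨rfl, h⟩
    choose q hq using hatt
    have hg : ∀ i : Fin (n' + 1 + 1), ∃ g : G,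
        g * (F (cin (i, true) (q (i, true) i))).1 ≠ (F (cin (i, false) (q (i, false) i))).1 := by
      intro i
      obtain ⟨x, hx⟩ := exists_ne (F (cin (i, false) (q (i, false) i))).1
      exact ⟨x * ((F (cin (i, true) (q (i, true) i))).1)⁻¹, by rw [inv_mul_cancel_right]; exact hx⟩
    choose g hg using hg
    let z : C → P := fun c => if c.2 then g c.1 • q (c.1, true) c.1 else q (c.1, false) c.1
    let l : Fin (n' + 1 + 1) := (F (zin z)).2
    have key : ∀ c : C, (F (cin c (z c))).2 = l → F (cin c (z c)) = F (zin z) := by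
      intro c hc
      have hch : ({cin c (z c), zin z} : Set (PS C P)) ∈ orderC (PS C P) :=
        ⟨⟨_, Or.inl rfl⟩, IsChain.pair (le_refl (z c))⟩
      exact (hF2 _ hch).2 _ ⟨_, Or.inl rfl, rfl⟩ _ ⟨_, Or.inr rfl, rfl⟩ hc
    have h1 := key (l, false) (hq (l, false) l)
    have h2 := key (l, true) (by
      show (F (g l • cin (l, true) (q (l, true) l))).2 = l
      rw [hF1]
      exact hq (l, true) l)
    rw [← h1] at h2
    have h3 : F (g l • cin (l, true) (q (l, true) l)) = F (cin (l, false) (q (l, false) l)) := h2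
    rw [hF1] at h3
    exact hg l (congrArg Prod.fst h3)

theorem goodP_all (G : Type) [Group G] [Fintype G] [Nontrivial G] (m d : ℕ) (hm : 1 ≤ m) :
    ∃ (P : Type) (_ : Fintype P) (_ : PartialOrder P) (_ : MulAction G P), GoodP G P m (m + d) := by
  induction d with
  | zero => exact ⟨QP G m, inferInstance, inferInstance, inferInstance, goodP_base G m⟩
  | succ d ih =>
    obtain ⟨P, i1, i2, i3, h⟩ := ih
    exact ⟨PS (Fin (m + d + 1) × Bool) P, inferInstance, inferInstance, inferInstance,
      goodP_step G P m (m + d) hm (by omega) h⟩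

end Pool.Agent.V11212.XI
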