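import Pool.Agent.V11212.XI.Hed

set_option autoImplicit false

open Set

namespace Pool.Agent.V11212.XI

/-- A simplicial poset: every principal down-set is isomorphic to the poset of the nonempty subsets
of a finite nonempty set. -/
def IsSimplicialPoset (P : Type) [PartialOrder P] : Prop :=
  ∀ p : P, ∃ n : ℕ, Nonempty ({q : P // q ≤ p} ≃o {s : Finset (Fin (n + 1)) // s.Nonempty})

theorem face_simplicial {G : Type} [Group G] (X : GCx G) : IsSimplicialPoset X.Face := by
  classical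
  rintro ⟨s, hs⟩
  have hne : s.Nonempty := X.gc.1 s hs
  have hfin : Finite s := inferInstance
  obtain ⟨m, ⟨e⟩⟩ := Finite.exists_equiv_fin s
  obtain ⟨n, rfl⟩ : ∃ n, m = n + 1 := by
    obtain ⟨v, hv⟩ := hne
    have := (e ⟨v, hv⟩).2
    exact ⟨m - 1, by omega⟩
  obtain ⟨F, hF⟩ : ∃ F : Set X.V → Finset (Fin (n + 1)), ∀ q i, i ∈ F q ↔ (e.symm i).1 ∈ q :=
    ⟨fun q => Finset.univ.filter (fun i => (e.symm i).1 ∈ q), fun q i => by
      rw [Finset.mem_filter]
      exact ⟨fun h => h.2, fun h => ⟨Finset.mem_univ _, h⟩⟩⟩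
  refine ⟨n, ⟨?_⟩⟩
  refine
    { toFun := fun q => ⟨F q.1.1, ?_⟩
      invFun := fun t => ⟨⟨{v | ∃ i ∈ t.1, (e.symm i).1 = v}, ?_⟩, ?_⟩
      left_inv := ?_
      right_inv := ?_
      map_rel_iff' := ?_ }
  · obtain ⟨v, hv⟩ : q.1.1.Nonempty := X.gc.1 _ q.1.2
    have hq : q.1.1 ⊆ s := q.2
    refine ⟨e ⟨v, hq hv⟩, ?_⟩
    rw [hF, Equiv.symm_apply_apply]
    exact hv
  · refine X.gc.2.1 s hs _ ?_ ?_
    · rintro v ⟨i, -, rfl⟩
      exact (e.symm i).2
    · obtain ⟨i, hi⟩ := t.2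
      exact ⟨_, i, hi, rfl⟩
  · rintro v ⟨i, -, rfl⟩
    exact (e.symm i).2
  · intro q
    have hq : q.1.1 ⊆ s := q.2
    apply Subtype.ext
    apply Subtype.ext
    ext v
    constructor
    · rintro ⟨i, hi, rfl⟩
      exact (hF _ _).mp hi
    · intro hv
      refine ⟨e ⟨v, hq hv⟩, ?_, ?_⟩
      · refine (hF _ _).mpr ?_
        rw [Equiv.symm_apply_apply]
        exact hv
      · rw [Equiv.symm_apply_apply]
  · intro t
    apply Subtype.ext
    ext i
    constructor
    · intro hi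
      obtain ⟨j, hj, he⟩ := (hF _ _).mp hi
      have : j = i := e.symm.injective (Subtype.ext he)
      rw [← this]; exact hj
    · intro hi
      exact (hF _ _).mpr ⟨i, hi, rfl⟩
  · intro q r
    have hq : q.1.1 ⊆ s := q.2
    constructor
    · intro h v hv
      have h1 : e ⟨v, hq hv⟩ ∈ F q.1.1 := by
        rw [hF, Equiv.symm_apply_apply]
        exact hv
      have h3 : e ⟨v, hq hv⟩ ∈ F r.1.1 := h h1
      rw [hF, Equiv.symm_apply_apply] at h3
      exact h3
    · intro h i hi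
      have hi' : i ∈ F q.1.1 := hi
      show i ∈ F r.1.1
      rw [hF] at hi' ⊢
      exact h hi'

end Pool.Agent.V11212.XI
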