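import Pool.Agent.V11212.XI.Handle

set_option autoImplicit false

open Set Filter Topology
open scoped BigOperators

namespace Pool.Agent.V11212.XI

/-- the new vertices for the handles -/
def HZ (M : ℕ) (G : Type) : Type := {p : Fin M × Fin M // p.1 < p.2} × G

instance (M : ℕ) (G : Type) [Fintype G] : Fintype (HZ M G) :=
  inferInstanceAs (Fintype ({p : Fin M × Fin M // p.1 < p.2} × G))

instance (M : ℕ) (G : Type) [Group G] : MulAction G (HZ M G) where
  smul g z := (z.1, g * z.2)
  one_smul z := by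
    show (z.1, (1 : G) * z.2) = z
    rw [one_mul]; rfl
  mul_smul g g' z := by
    show (z.1, g * g' * z.2) = (z.1, g * (g' * z.2))
    rw [mul_assoc]

section

variable {G V : Type} [Group G] [Fintype G] [Fintype V] [MulAction G V] {M : ℕ}

/-- total weight of a set of vertices in one copy -/
noncomputable def sw (c : Fin M) (t : Set V) (x : LV M V → ℝ) : ℝ := by
  classical
  exact ∑ v : V, if v ∈ t then x (lin c v) else 0

theorem sw_cont (c : Fin M) (t : Set V) : Continuous (sw c t : (LV M V → ℝ) → ℝ) := by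
  classical
  unfold sw
  refine continuous_finsetSum _ fun v _ => ?_
  by_cases h : v ∈ t
  · simp only [if_pos h]
    exact continuous_apply _
  · simp only [if_neg h]
    exact continuous_const

theorem sw_nonneg (c : Fin M) (t : Set V) {x : LV M V → ℝ} (h0 : ∀ w, 0 ≤ x w) :
    0 ≤ sw c t x := by
  classical
  unfold sw
  exact Finset.sum_nonneg fun v _ => by split_ifs; exacts [h0 _, le_rfl]

theorem sw_pos (c : Fin M) (t : Set V) {x : LV M V → ℝ} (h0 : ∀ w, 0 ≤ x w) :
    0 < sw c t x ↔ ∃ v ∈ t, x (lin c v) ≠ 0 := by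
  classical
  unfold sw
  constructor
  · intro h
    obtain ⟨v, -, hv⟩ := Finset.exists_ne_zero_of_sum_ne_zero h.ne'
    by_cases hc : v ∈ t
    · rw [if_pos hc] at hv
      exact ⟨v, hc, hv⟩
    · rw [if_neg hc] at hv
      exact absurd rfl hv
  · rintro ⟨v, hv, hx⟩
    refine Finset.sum_pos' (fun v _ => by split_ifs; exacts [h0 _, le_rfl])
      ⟨v, Finset.mem_univ _, ?_⟩
    rw [if_pos hv]
    exact lt_of_le_of_ne (h0 _) (Ne.symm hx)

theorem sw_mv (g : G) (c : Fin M) (t : Set V) (x : LV M V → ℝ) :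
    sw c ((g • ·) '' t) (mv g x) = sw c t x := by
  classical
  unfold sw
  rw [← Equiv.sum_comp (MulAction.toPerm g)]
  refine Finset.sum_congr rfl fun v _ => ?_
  rw [MulAction.toPerm_apply]
  have hmem : g • v ∈ (g • ·) '' t ↔ v ∈ t := by
    constructor
    · rintro ⟨u, hu, h⟩
      rw [← MulAction.injective g h]; exact hu
    · intro h; exact ⟨v, h, rfl⟩
  have e : mv g x (lin c (g • v)) = x (lin c v) := by
    show x (g⁻¹ • g • lin c v) = _
    rw [inv_smul_smul]
  by_cases h : v ∈ t
  · rw [if_pos h, if_pos (hmem.mpr h), e]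
  · rw [if_neg h, if_neg (fun h' => h (hmem.mp h'))]

/-- the map from the complex with handles to the complex with cones -/
noncomputable def mu (S : Fin M → Fin M → Set V) (h : G) (x : LV M V → ℝ) :
    CW (Fin M) V (HZ M G) → ℝ := fun w =>
  Sum.elim (fun p => x (lin p.1 p.2) * max 0 (2 * sw p.1 univ x - 1))
    (fun z => min (sw z.1.1.1 ((z.2 • ·) '' S z.1.1.1 z.1.1.2) x)
      (sw z.1.1.2 (((z.2 * h) • ·) '' S z.1.1.1 z.1.1.2) x)) w

theorem mu_cin (S : Fin M → Fin M → Set V) (h : G) (x : LV M V → ℝ) (c : Fin M) (v : V) :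
    mu S h x (cin c v) = x (lin c v) * max 0 (2 * sw c univ x - 1) := rfl

theorem mu_zin (S : Fin M → Fin M → Set V) (h : G) (x : LV M V → ℝ) (z : HZ M G) :
    mu S h x (zin z) = min (sw z.1.1.1 ((z.2 • ·) '' S z.1.1.1 z.1.1.2) x)
      (sw z.1.1.2 (((z.2 * h) • ·) '' S z.1.1.1 z.1.1.2) x) := rfl

theorem mu_cont (S : Fin M → Fin M → Set V) (h : G) : Continuous (mu S h) := by
  refine continuous_pi fun w => ?_
  rcases CW_cases w with ⟨c, v, rfl⟩ | ⟨z, rfl⟩
  · simp only [mu_cin]
    have := sw_cont c (univ : Set V)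
    fun_prop
  · simp only [mu_zin]
    exact (sw_cont _ _).min (sw_cont _ _)

theorem mu_mv (S : Fin M → Fin M → Set V) (h : G) (g : G) (x : LV M V → ℝ) :
    mu S h (mv g x) = mv g (mu S h x) := by
  funext w
  rcases CW_cases w with ⟨c, v, rfl⟩ | ⟨z, rfl⟩
  · show mv g x (lin c v) * max 0 (2 * sw c univ (mv g x) - 1) =
      x (lin c (g⁻¹ • v)) * max 0 (2 * sw c univ x - 1)
    have e : ((g • ·) '' (univ : Set V)) = univ := by
      ext v
      simp only [mem_image, mem_univ, true_and, iff_true]
      exact ⟨g⁻¹ • v, smul_inv_smul g v⟩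
    have e2 := sw_mv g c univ x
    rw [e] at e2
    rw [e2]
    rfl
  · show min (sw z.1.1.1 ((z.2 • ·) '' S z.1.1.1 z.1.1.2) (mv g x))
        (sw z.1.1.2 (((z.2 * h) • ·) '' S z.1.1.1 z.1.1.2) (mv g x)) =
      min (sw z.1.1.1 (((g⁻¹ * z.2) • ·) '' S z.1.1.1 z.1.1.2) x)
        (sw z.1.1.2 (((g⁻¹ * z.2 * h) • ·) '' S z.1.1.1 z.1.1.2) x)
    have e : ∀ (a : G) (t : Set V), (a • ·) '' t = (g • ·) '' (((g⁻¹ * a) • ·) '' t) := by
      intro a t
      rw [image_image]
      refine image_congr fun v _ => ?_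
      show a • v = g • (g⁻¹ * a) • v
      rw [smul_smul, mul_inv_cancel_left]
    rw [e z.2, e (z.2 * h), sw_mv, sw_mv, mul_assoc]

theorem hC_top {K : Set (Set V)} {S : Fin M → Fin M → Set V} {h : G} {m : ℕ} (hK : IsGC G K)
    (hpts : ∀ v, {v} ∈ K)
    (hsimple : ∀ s ∈ K, ∀ v ∈ s, ∀ g : G, g • v ∈ s → g = 1) (hS : ∀ x y, S x y ∈ K)
    (hM : ∃ x y : Fin M, x < y) (hm : 1 ≤ m) (ht : TopLe G K m) : TopLe G (hC K S h) m := by
  classical
  obtain ⟨x0, y0, hxy0⟩ := hM
  have hZ : Nonempty (HZ M G) := ⟨(⟨(x0, y0), hxy0⟩, 1)⟩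
  choose v hv using fun x y => hK.1 _ (hS x y)
  have hcone := top_cone (Z := HZ M G) (C := Fin M) hK ht hm
    (fun z c => if c = z.1.1.2 then (z.2 * h) • v z.1.1.1 z.1.1.2 else z.2 • v z.1.1.1 z.1.1.2)
    (fun g z c => by
      show (if c = z.1.1.2 then (g * z.2 * h) • v z.1.1.1 z.1.1.2 else
        (g * z.2) • v z.1.1.1 z.1.1.2) = g • (if c = z.1.1.2 then (z.2 * h) • v z.1.1.1 z.1.1.2
          else z.2 • v z.1.1.1 z.1.1.2)
      split_ifs
      · rw [smul_smul, mul_assoc]
      · rw [smul_smul])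
    (fun z c => hpts _) (fun z => z.2) (fun g z => rfl)
  refine hcone.compN (fun s hs => hs.1) (mu S h) (mu_cont S h).continuousOn ?_ ?_
    (fun g x _ => mu_mv S h g x)
  · intro x hx w
    rcases CW_cases w with ⟨c, u, rfl⟩ | ⟨z, rfl⟩
    · rw [mu_cin]
      exact mul_nonneg (hx.1 _) (le_max_left _ _)
    · rw [mu_zin]
      exact le_min (sw_nonneg _ _ hx.1) (sw_nonneg _ _ hx.1)
  · intro x hx
    have hsum : ∑ c : Fin M, sw c univ x = 1 := by
      have h1 : ∑ w, x w = 1 := hx.2.1
      have e : ∑ w, x w = ∑ w : Fin M × V, x w := rfl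
      rw [← h1, e, Fintype.sum_prod_type]
      refine Finset.sum_congr rfl fun c _ => ?_
      unfold sw
      refine Finset.sum_congr rfl fun u _ => ?_
      rw [if_pos (mem_univ u)]
      rfl
    have hsc : ∀ c, (∀ u, x (lin c u) = 0) → sw c univ x = 0 := by
      intro c hc
      unfold sw
      refine Finset.sum_eq_zero fun u _ => ?_
      rw [if_pos (mem_univ u)]
      exact hc u
    rcases hC_cases hK hS hx.2.2 with ⟨c, t, htK, hxt⟩ | ⟨a, b, g, hab, hxs, ⟨u1, hu1⟩, ⟨u2, hu2⟩⟩
    · -- one copy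
      have hz : ∀ c', c' ≠ c → ∀ u, x (lin c' u) = 0 := by
        intro c' hc' u
        by_contra hne
        have : lin c' u ∈ lin c '' t := by rw [← hxt]; exact hne
        obtain ⟨u', -, hu'⟩ := this
        exact hc' (lin_inj hu').1.symm
      have hs1 : sw c univ x = 1 := by
        rw [← hsum, Finset.sum_eq_single c (fun c' _ hc' => hsc c' (hz c' hc'))
          (fun h => absurd (Finset.mem_univ _) h)]
      refine ⟨?_, c, t, Or.inl ⟨htK, ?_⟩⟩
      · obtain ⟨u, hu⟩ := hK.1 _ htK
        refine ⟨cin c u, ?_⟩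
        rw [Function.mem_support, mu_cin, hs1]
        have : lin c u ∈ Function.support x := by rw [hxt]; exact ⟨u, hu, rfl⟩
        refine mul_ne_zero this ?_
        norm_num
      · ext w
        rw [Function.mem_support]
        rcases CW_cases w with ⟨c', u, rfl⟩ | ⟨z, rfl⟩
        · rw [mu_cin]
          constructor
          · intro hne
            have h1 : x (lin c' u) ≠ 0 := left_ne_zero_of_mul hne
            have hcc : c' = c := by
              by_contra hc'
              exact h1 (hz c' hc' u)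
            subst hcc
            have : lin c' u ∈ lin c' '' t := by rw [← hxt]; exact h1
            obtain ⟨u', hu', he⟩ := this
            rw [← (lin_inj he).2]
            exact ⟨u', hu', rfl⟩
          · rintro ⟨u', hu', he⟩
            obtain ⟨rfl, rfl⟩ := cin_inj he
            rw [hs1]
            have : lin c u' ∈ Function.support x := by rw [hxt]; exact ⟨u', hu', rfl⟩
            refine mul_ne_zero this ?_
            norm_num
        · constructor
          · intro hne
            exfalso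
            rw [mu_zin] at hne
            have hpos : 0 < min (sw z.1.1.1 ((z.2 • ·) '' S z.1.1.1 z.1.1.2) x)
                (sw z.1.1.2 (((z.2 * h) • ·) '' S z.1.1.1 z.1.1.2) x) :=
              lt_of_le_of_ne (le_min (sw_nonneg _ _ hx.1) (sw_nonneg _ _ hx.1)) (Ne.symm hne)
            obtain ⟨p1, p2⟩ := lt_min_iff.mp hpos
            obtain ⟨u1, -, hu1⟩ := (sw_pos _ _ hx.1).mp p1
            obtain ⟨u2, -, hu2⟩ := (sw_pos _ _ hx.1).mp p2
            have e1 : z.1.1.1 = c := by
              by_contra hc; exact hu1 (hz _ hc _)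
            have e2 : z.1.1.2 = c := by
              by_contra hc; exact hu2 (hz _ hc _)
            have := z.1.2
            rw [e1, e2] at this
            exact lt_irrefl _ this
          · rintro ⟨u', -, he⟩
            exact absurd he cin_ne
    · -- mixed
      have hz : ∀ c, c ≠ a → c ≠ b → ∀ u, x (lin c u) = 0 := by
        intro c hca hcb u
        by_contra hne
        rcases hxs (show lin c u ∈ Function.support x from hne) with ⟨h1, -⟩ | ⟨h1, -⟩
        · exact hca h1
        · exact hcb h1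
      have hsab : sw a univ x + sw b univ x = 1 := by
        rw [← hsum]
        rw [← Finset.add_sum_erase _ _ (Finset.mem_univ a),
          ← Finset.add_sum_erase _ _ (Finset.mem_erase.mpr ⟨(ne_of_lt hab).symm,
            Finset.mem_univ b⟩), Finset.sum_eq_zero (s := (Finset.univ.erase a).erase b), add_zero]
        intro c hc
        rw [Finset.mem_erase, Finset.mem_erase] at hc
        exact hsc c (hz c hc.2.1 hc.1)
      have hA : ∀ u, x (lin a u) ≠ 0 → u ∈ (g • ·) '' S a b := by
        intro u hu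
        rcases hxs (show lin a u ∈ Function.support x from hu) with ⟨-, h2⟩ | ⟨h1, -⟩
        · exact ⟨g⁻¹ • u, h2, smul_inv_smul g u⟩
        · exact absurd h1 (ne_of_lt hab)
      have hB : ∀ u, x (lin b u) ≠ 0 → u ∈ ((g * h) • ·) '' S a b := by
        intro u hu
        rcases hxs (show lin b u ∈ Function.support x from hu) with ⟨h1, -⟩ | ⟨-, h2⟩
        · exact absurd h1 (ne_of_lt hab).symm
        · exact ⟨(g * h)⁻¹ • u, h2, smul_inv_smul (g * h) u⟩
      let z0 : HZ M G := (⟨(a, b), hab⟩, g)
      have hz0 : mu S h x (zin z0) ≠ 0 := by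
        rw [mu_zin]
        exact (lt_min_iff.mpr ⟨(sw_pos _ _ hx.1).mpr ⟨u1, hA u1 hu1, hu1⟩,
          (sw_pos _ _ hx.1).mpr ⟨u2, hB u2 hu2, hu2⟩⟩).ne'
      have hzu : ∀ z : HZ M G, mu S h x (zin z) ≠ 0 → z = z0 := by
        intro z hne
        rw [mu_zin] at hne
        have hpos : 0 < min (sw z.1.1.1 ((z.2 • ·) '' S z.1.1.1 z.1.1.2) x)
            (sw z.1.1.2 (((z.2 * h) • ·) '' S z.1.1.1 z.1.1.2) x) :=
          lt_of_le_of_ne (le_min (sw_nonneg _ _ hx.1) (sw_nonneg _ _ hx.1)) (Ne.symm hne)
        obtain ⟨p1, p2⟩ := lt_min_iff.mp hpos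
        obtain ⟨w1, hw1, hw1'⟩ := (sw_pos _ _ hx.1).mp p1
        obtain ⟨w2, hw2, hw2'⟩ := (sw_pos _ _ hx.1).mp p2
        obtain ⟨⟨⟨p, q⟩, hpq⟩, g'⟩ := z
        dsimp only at hw1 hw1' hw2 hw2' hpq
        have e1 : p = a ∨ p = b := by
          by_contra hc
          push Not at hc
          exact hw1' (hz _ hc.1 hc.2 _)
        have e2 : q = a ∨ q = b := by
          by_contra hc
          push Not at hc
          exact hw2' (hz _ hc.1 hc.2 _)
        obtain ⟨rfl, rfl⟩ : p = a ∧ q = b := by omega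
        obtain ⟨r1, hr1, e3⟩ := hA w1 hw1'
        obtain ⟨r2, hr2, e4⟩ := hw1
        have e5 : g • r1 = g' • r2 := e3.trans e4.symm
        have := hsimple _ (hS p q) r1 hr1 (g'⁻¹ * g) (by
          rw [← smul_smul, e5, inv_smul_smul]; exact hr2)
        have hgg : g' = g := inv_mul_eq_one.mp this
        subst hgg
        rfl
      have hcin : ∀ c u, mu S h x (cin c u) ≠ 0 → x (lin c u) ≠ 0 ∧ 1 / 2 < sw c univ x := by
        intro c u hne
        rw [mu_cin] at hne
        refine ⟨left_ne_zero_of_mul hne, ?_⟩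
        have := right_ne_zero_of_mul hne
        by_contra hcon
        exact this (max_eq_left (by linarith [not_lt.mp hcon]))
      -- the copy
      obtain ⟨c, hc1, hc2⟩ : ∃ c, (∀ c' u, mu S h x (cin c' u) ≠ 0 → c' = c) ∧
          (∀ u, mu S h x (cin c u) ≠ 0 → u ∈ (if c = b then ((g * h) • ·) '' S a b else
            (g • ·) '' S a b)) := by
        by_cases hsa : 1 / 2 < sw a univ x
        · refine ⟨a, fun c' u hne => ?_, fun u hne => ?_⟩
          · obtain ⟨h1, h2⟩ := hcin c' u hne
            by_contra hca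
            by_cases hcb : c' = b
            · rw [hcb] at h2
              linarith
            · exact h1 (hz c' hca hcb u)
          · rw [if_neg (ne_of_lt hab)]
            exact hA u (hcin a u hne).1
        · refine ⟨b, fun c' u hne => ?_, fun u hne => ?_⟩
          · obtain ⟨h1, h2⟩ := hcin c' u hne
            by_contra hcb
            by_cases hca : c' = a
            · rw [hca] at h2
              exact hsa h2
            · exact h1 (hz c' hca hcb u)
          · rw [if_pos rfl]
            exact hB u (hcin b u hne).1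
      refine ⟨⟨_, hz0⟩, c, {u | mu S h x (cin c u) ≠ 0}, Or.inr ⟨z0, ?_, ?_⟩⟩
      · have hbig : (if c = b then ((g * h) • ·) '' S a b else (g • ·) '' S a b) ∈ K := by
          split_ifs
          · exact hK.2.2 _ _ (hS a b)
          · exact hK.2.2 _ _ (hS a b)
        refine hK.2.1 _ hbig _ ?_ (insert_nonempty _ _)
        rintro w (rfl | hw)
        · show (if c = b then (g * h) • v a b else g • v a b) ∈ _
          split_ifs
          · exact ⟨_, hv a b, rfl⟩
          · exact ⟨_, hv a b, rfl⟩
        · exact hc2 w hw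
      · ext w
        rw [Function.mem_support]
        rcases CW_cases w with ⟨c', u, rfl⟩ | ⟨z, rfl⟩
        · constructor
          · intro hne
            right
            obtain rfl := hc1 c' u hne
            exact ⟨u, hne, rfl⟩
          · rintro (h1 | ⟨u', hu', he⟩)
            · exact absurd h1 cin_ne
            · rw [← he]; exact hu'
        · constructor
          · intro hne
            left
            rw [hzu z hne]
          · rintro (h1 | ⟨u', hu', he⟩)
            · rw [h1]; exact hz0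
            · exact absurd he cin_ne

theorem goodK_step {V : Type} [Fintype V] [MulAction G V] [Nontrivial G] {K : Set (Set V)}
    {m n : ℕ} (hm : 1 ≤ m) (hn : 1 ≤ n) (hK : GoodK G V K m n) :
    ∃ (V' : Type) (_ : Fintype V') (_ : MulAction G V') (K' : Set (Set V')),
      GoodK G V' K' m (n + 1) := by
  classical
  obtain ⟨n', rfl⟩ : ∃ n', n = n' + 1 := ⟨n - 1, by omega⟩
  obtain ⟨h, hh⟩ := exists_ne (1 : G)
  have hKne : Nonempty K := by
    by_contra hcon
    rw [not_nonempty_iff] at hcon
    have : FaceLe G K 0 := ⟨fun _ => (1, 0), fun g s hs => (hcon.false ⟨s, hs⟩).elim,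
      fun s hs => (hcon.false ⟨s, hs⟩).elim⟩
    have := hK.facel 0 this
    omega
  have hW : Nonempty (K × G) := inferInstance
  obtain ⟨M, J, hJ⟩ := tree' (K × G)
  let S : Fin M → Fin M → Set V := fun x y => (J x y).1
  have hS : ∀ x y, S x y ∈ K := fun x y => (J x y).1.2
  obtain ⟨w0⟩ := hW
  obtain ⟨x0, y0, hxy0, -⟩ := hJ (fun _ => w0)
  have hnf : ¬ FaceLe G K n' := fun hf => by
    have := hK.facel n' hf
    omega
  refine ⟨LV M V, inferInstance, inferInstance, hC K S h, hC_gc hK.gc, ?_, ?_, ?_, ?_, ?_, ?_⟩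
  · intro w
    exact Or.inl ⟨w.1, {w.2}, hK.pts w.2, by rw [image_singleton]; rfl⟩
  · intro s hs w hw g hg
    rcases hs with ⟨x, t, ht, rfl⟩ | ⟨-, x, y, g', hxy, hs⟩
    · obtain ⟨u, hu, rfl⟩ := hw
      obtain ⟨u', hu', he⟩ := hg
      have : u' = g • u := (lin_inj (c := x) (c' := x) (v := u') (v' := g • u) he).2
      exact hK.simple t ht u hu g (this ▸ hu')
    · rcases hs hw with ⟨h1, h2⟩ | ⟨h1, h2⟩
      · have h3 : g'⁻¹ • g • w.2 ∈ S x y := by
          rcases hs hg with ⟨-, h4⟩ | ⟨h3, -⟩
          · exact h4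
          · exact absurd (h1.symm.trans h3) (ne_of_lt hxy)
        have := hK.simple _ (hS x y) _ h2 (g'⁻¹ * g * g') (by
          rw [smul_smul, mul_inv_cancel_right, ← smul_smul]; exact h3)
        have h5 : g'⁻¹ * g * g' = 1 := this
        calc g = g' * (g'⁻¹ * g * g') * g'⁻¹ := by group
          _ = 1 := by rw [h5]; group
      · have h3 : (g' * h)⁻¹ • g • w.2 ∈ S x y := by
          rcases hs hg with ⟨h3, -⟩ | ⟨-, h4⟩
          · exact absurd (h3.symm.trans h1) (ne_of_lt hxy)
          · exact h4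
        have := hK.simple _ (hS x y) _ h2 ((g' * h)⁻¹ * g * (g' * h)) (by
          rw [smul_smul, mul_inv_cancel_right, ← smul_smul]; exact h3)
        have h5 : (g' * h)⁻¹ * g * (g' * h) = 1 := this
        calc g = (g' * h) * ((g' * h)⁻¹ * g * (g' * h)) * (g' * h)⁻¹ := by group
          _ = 1 := by rw [h5]; group
  · exact hC_top hK.gc hK.pts hK.simple hS ⟨x0, y0, hxy0⟩ hm hK.top
  · intro k hk
    exact hK.topl k (hk.pull (lin x0) (fun s hs => Or.inl ⟨x0, s, hs, rfl⟩) fun g v => rfl)
  · exact hC_face hK.gc hK.simple hS hK.face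
  · intro k hk
    by_contra hlt
    push Not at hlt
    obtain ⟨f, hf1, hf2⟩ := hk.mono (show k ≤ n' + 1 by omega)
    have himg : ∀ (g : G) (x : Fin M) (t : Set V),
        (g • ·) '' (lin x '' t : Set (LV M V)) = lin x '' ((g • ·) '' t) := by
      intro g x t
      rw [image_image, image_image]; rfl
    have hatt : ∀ x : Fin M, ∃ t, ∃ ht : t ∈ K, (f (lin x '' t)).2 = Fin.last (n' + 1) := by
      intro x
      by_contra hcon
      push Not at hcon
      apply hnf
      refine ⟨fun t => ((f (lin x '' t)).1, if ht : (f (lin x '' t)).2 = Fin.last (n' + 1) then 0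
        else (f (lin x '' t)).2.castPred ht), fun g s hs => ?_, fun s hs t ht hst => ?_⟩
      · have e1 : f (lin x '' ((g • ·) '' s)) = g • f (lin x '' s) := by
          rw [← himg]
          exact hf1 g _ (Or.inl ⟨x, s, hs, rfl⟩)
        have a1 := hcon s hs
        have a2 := hcon _ (hK.gc.2.2 g s hs)
        refine Prod.ext ?_ ?_
        · show (f (lin x '' ((g • ·) '' s))).1 = g * (f (lin x '' s)).1
          rw [e1]; rfl
        · show (if ht : (f (lin x '' ((g • ·) '' s))).2 = Fin.last (n' + 1) then 0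
            else (f (lin x '' ((g • ·) '' s))).2.castPred ht) =
            (if ht : (f (lin x '' s)).2 = Fin.last (n' + 1) then 0
              else (f (lin x '' s)).2.castPred ht)
          rw [dif_neg a1, dif_neg a2]
          apply Fin.ext
          show ((f (lin x '' ((g • ·) '' s))).2 : ℕ) = (f (lin x '' s)).2
          rw [e1]; rfl
      · have a1 := hcon s hs
        have a2 := hcon t ht
        rcases hf2 _ (Or.inl ⟨x, s, hs, rfl⟩) _ (Or.inl ⟨x, t, ht, rfl⟩)
          (image_mono hst : lin x '' s ⊆ lin x '' t) with h3 | h3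
        · left
          show ((f (lin x '' s)).1, _) = ((f (lin x '' t)).1, _)
          rw [h3]
        · right
          show (if ht : (f (lin x '' s)).2 = Fin.last (n' + 1) then 0
              else (f (lin x '' s)).2.castPred ht) <
            (if ht : (f (lin x '' t)).2 = Fin.last (n' + 1) then 0
              else (f (lin x '' t)).2.castPred ht)
          rw [dif_neg a1, dif_neg a2]
          exact h3
    choose t htK htl using hatt
    obtain ⟨x, y, hxy, e1, e2⟩ := hJ (fun x => (⟨t x, htK x⟩, (f (lin x '' t x)).1))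
    have e1' : t x = S x y := congrArg (fun w => (w.1 : Set V)) e1
    have e2' : t y = S x y := congrArg (fun w => (w.1 : Set V)) e2
    have e3 : (f (lin x '' t x)).1 = (f (lin y '' t y)).1 :=
      (congrArg Prod.snd e1).trans (congrArg Prod.snd e2).symm
    have hmem : hdl S h x y 1 ∈ hC K S h := by
      refine Or.inr ⟨?_, x, y, 1, hxy, subset_rfl⟩
      obtain ⟨u, hu⟩ := hK.gc.1 _ (hS x y)
      refine ⟨lin x u, Or.inl ⟨rfl, ?_⟩⟩
      show (1 : G)⁻¹ • u ∈ S x y
      rw [inv_one, one_smul]; exact hu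
    have hsx : lin x '' t x ⊆ hdl S h x y 1 := by
      rintro _ ⟨u, hu, rfl⟩
      left
      refine ⟨rfl, ?_⟩
      show (1 : G)⁻¹ • u ∈ S x y
      rw [inv_one, one_smul, ← e1']; exact hu
    have hsy : lin y '' ((h • ·) '' t y) ⊆ hdl S h x y 1 := by
      rintro _ ⟨_, ⟨u, hu, rfl⟩, rfl⟩
      right
      refine ⟨rfl, ?_⟩
      show (1 * h)⁻¹ • h • u ∈ S x y
      rw [one_mul, inv_smul_smul, ← e2']; exact hu
    have a1 := hf2 _ (Or.inl ⟨x, t x, htK x, rfl⟩) _ hmem hsx
    have a2 := hf2 _ (Or.inl ⟨y, _, hK.gc.2.2 h _ (htK y), rfl⟩) _ hmem hsy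
    have a3 : f (lin y '' ((h • ·) '' t y)) = h • f (lin y '' t y) := by
      rw [← himg]
      exact hf1 h _ (Or.inl ⟨y, t y, htK y, rfl⟩)
    have b1 : f (lin x '' t x) = f (hdl S h x y 1) := by
      rcases a1 with a1 | a1
      · exact a1
      · rw [htl x] at a1
        exact absurd a1 (not_lt_of_ge (Fin.le_last _))
    have b2 : f (lin y '' ((h • ·) '' t y)) = f (hdl S h x y 1) := by
      rcases a2 with a2 | a2
      · exact a2
      · rw [a3] at a2
        have a4 : (f (lin y '' t y)).2 < (f (hdl S h x y 1)).2 := a2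
        rw [htl y] at a4
        exact absurd a4 (not_lt_of_ge (Fin.le_last _))
    have b3 : f (lin x '' t x) = h • f (lin y '' t y) := by rw [b1, ← b2, a3]
    have b4 : (f (lin x '' t x)).1 = h * (f (lin y '' t y)).1 := congrArg Prod.fst b3
    rw [e3] at b4
    exact hh (mul_eq_right.mp b4.symm)

theorem goodK_all (G : Type) [Group G] [Fintype G] [Nontrivial G] (m d : ℕ) (hm : 1 ≤ m) :
    ∃ (V : Type) (_ : Fintype V) (_ : MulAction G V) (K : Set (Set V)), GoodK G V K m (m + d) := by
  induction d with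
  | zero => exact ⟨QP G m, inferInstance, inferInstance, joinC G m, goodK_base G m⟩
  | succ d ih =>
    obtain ⟨V, i1, i2, K, h⟩ := ih
    have h1 : 1 ≤ m + d := by omega
    exact goodK_step hm h1 h

end

end Pool.Agent.V11212.XI
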