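import Pool.Agent.V11212.XI.Face

set_option autoImplicit false

open Set Filter Topology
open scoped BigOperators

namespace Pool.Agent.V11212.XI

/-- A finite `G`-simplicial complex: vertices `V`, simplices `K`, every vertex is a simplex. -/
structure GCx (G : Type) [Group G] where
  /-- the vertices -/
  V : Type
  /-- there are finitely many vertices -/
  fin : Fintype V
  /-- the action on the vertices -/
  act : MulAction G V
  /-- the simplices -/
  K : Set (Set V)
  /-- `K` is a simplicial complex with an action of `G` -/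
  gc : IsGC G K
  /-- every vertex is a simplex -/
  pts : ∀ v, {v} ∈ K

attribute [instance] GCx.fin GCx.act

/-- The face poset: the simplices ordered by inclusion. -/
def GCx.Face {G : Type} [Group G] (X : GCx G) : Type := {s : Set X.V // s ∈ X.K}

instance {G : Type} [Group G] (X : GCx G) : PartialOrder X.Face :=
  inferInstanceAs (PartialOrder {s : Set X.V // s ∈ X.K})

noncomputable instance {G : Type} [Group G] (X : GCx G) : Fintype X.Face :=
  @Fintype.ofFinite _ (inferInstanceAs (Finite {s : Set X.V // s ∈ X.K}))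

/-- `G` acts on the face poset. -/
instance {G : Type} [Group G] (X : GCx G) : MulAction G X.Face where
  smul g s := ⟨(g • ·) '' s.1, X.gc.2.2 g s.1 s.2⟩
  one_smul s := by
    apply Subtype.ext
    show ((1 : G) • ·) '' s.1 = s.1
    simp
  mul_smul g h s := by
    apply Subtype.ext
    show ((g * h) • ·) '' s.1 = (g • ·) '' ((h • ·) '' s.1)
    rw [image_image]
    refine image_congr fun v _ => ?_
    exact mul_smul g h v

theorem GCx.smul_val {G : Type} [Group G] (X : GCx G) (g : G) (s : X.Face) :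
    (g • s).1 = (g • ·) '' s.1 := rfl

theorem GCx.smul_mono {G : Type} [Group G] (X : GCx G) (g : G) (s t : X.Face) (h : s ≤ t) :
    g • s ≤ g • t := by
  have h' : s.1 ⊆ t.1 := h
  show (g • ·) '' s.1 ⊆ (g • ·) '' t.1
  exact image_mono h'

theorem chain_singleton {P : Type} [PartialOrder P] (p : P) : {p} ∈ orderC P :=
  ⟨singleton_nonempty p, IsChain.singleton⟩

/-- Barycentric subdivision: the order complex of the face poset. -/
noncomputable def GCx.sd {G : Type} [Group G] (X : GCx G) : GCx G where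
  V := X.Face
  fin := inferInstance
  act := inferInstance
  K := orderC X.Face
  gc := orderC_gc G X.Face X.smul_mono
  pts := chain_singleton

/-- integer cochains with controlled size -/
def WK {G : Type} [Group G] (γ : G) (n : ℕ) {V : Type} [MulAction G V] (K : Set (Set V)) (B : ℤ) :
    Prop :=
  ∃ (l : V → ZMod n) (c : V → V → ℤ), (∀ v, l (γ • v) = l v + 1) ∧
    (∀ u v w, {u, v, w} ∈ K → c u w = c u v + c v w) ∧
    (∀ u v, {u, v} ∈ K → c (γ • u) (γ • v) = c u v) ∧
    (∀ u v, {u, v} ∈ K → l v = l u + (c u v : ZMod n)) ∧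
    ∀ u v, {u, v} ∈ K → |c u v| ≤ B

theorem WK_of_simpLe {G : Type} [Group G] (γ : G) (n : ℕ) [NeZero n] (ρ : G → ZMod n)
    (hρ : ∀ g, ρ (γ * g) = ρ g + 1) {V : Type} [MulAction G V] {K : Set (Set V)}
    (h : SimpLe G K 1) : WK γ n K n := by
  obtain ⟨f, hf1, hf2⟩ := h
  let C : QP G 1 → QP G 1 → ℤ := fun p q =>
    if p.2 < q.2 then ((ρ q.1 - ρ p.1).val : ℤ) else if q.2 < p.2 then -((ρ p.1 - ρ q.1).val : ℤ)
    else 0
  have hC0 : ∀ p, C p p = 0 := by
    intro p
    show (if p.2 < p.2 then _ else if p.2 < p.2 then _ else 0) = _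
    rw [if_neg (lt_irrefl _), if_neg (lt_irrefl _)]
  have hCa : ∀ p q, C p q + C q p = 0 := by
    intro p q
    show (if p.2 < q.2 then _ else if q.2 < p.2 then _ else 0) +
      (if q.2 < p.2 then _ else if p.2 < q.2 then _ else 0) = _
    rcases lt_trichotomy p.2 q.2 with h | h | h
    · rw [if_pos h, if_neg (not_lt_of_gt h), if_pos h]; ring
    · have a1 : ¬ p.2 < q.2 := by rw [h]; exact lt_irrefl _
      have a2 : ¬ q.2 < p.2 := by rw [h]; exact lt_irrefl _
      rw [if_neg a1, if_neg a2, if_neg a2, if_neg a1, add_zero]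
    · rw [if_neg (not_lt_of_gt h), if_pos h, if_pos h]; ring
  have hval : ∀ a : ZMod n, ((a.val : ℤ) : ZMod n) = a := by
    intro a
    rw [Int.cast_natCast, ZMod.natCast_zmod_val]
  refine ⟨fun v => ρ (f v).1, fun u v => C (f u) (f v), ?_, ?_, ?_, ?_, ?_⟩
  · intro v
    show ρ (f (γ • v)).1 = _
    rw [hf1]
    exact hρ _
  · intro u v w huvw
    have hs := hf2 _ huvw
    have e : ∀ a ∈ ({u, v, w} : Set V), ∀ b ∈ ({u, v, w} : Set V), (f a).2 = (f b).2 →
        f a = f b := fun a ha b hb hab => hs.2 _ ⟨a, ha, rfl⟩ _ ⟨b, hb, rfl⟩ hab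
    have hu : u ∈ ({u, v, w} : Set V) := Or.inl rfl
    have hv : v ∈ ({u, v, w} : Set V) := Or.inr (Or.inl rfl)
    have hw : w ∈ ({u, v, w} : Set V) := Or.inr (Or.inr rfl)
    have hpig : (f u).2 = (f v).2 ∨ (f v).2 = (f w).2 ∨ (f u).2 = (f w).2 := by
      have a1 := (f u).2.2
      have a2 := (f v).2.2
      have a3 := (f w).2.2
      omega
    rcases hpig with h | h | h
    · have := e u hu v hv h
      show C (f u) (f w) = C (f u) (f v) + C (f v) (f w)
      rw [this, hC0, zero_add]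
    · have := e v hv w hw h
      show C (f u) (f w) = C (f u) (f v) + C (f v) (f w)
      rw [this, hC0, add_zero]
    · have := e u hu w hw h
      show C (f u) (f w) = C (f u) (f v) + C (f v) (f w)
      rw [this, hC0, hCa]
  · intro u v _
    have hd : ∀ a b : G, ρ (γ * a) - ρ (γ * b) = ρ a - ρ b := by
      intro a b; rw [hρ, hρ]; ring
    show C (f (γ • u)) (f (γ • v)) = C (f u) (f v)
    rw [hf1, hf1]
    show (if (f u).2 < (f v).2 then ((ρ (γ * (f v).1) - ρ (γ * (f u).1)).val : ℤ) else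
      if (f v).2 < (f u).2 then -((ρ (γ * (f u).1) - ρ (γ * (f v).1)).val : ℤ) else 0) = _
    rw [hd, hd]
  · intro u v huv
    have hs := hf2 _ huv
    show ρ (f v).1 = ρ (f u).1 + ((C (f u) (f v) : ℤ) : ZMod n)
    show ρ (f v).1 = ρ (f u).1 + (((if (f u).2 < (f v).2 then ((ρ (f v).1 - ρ (f u).1).val : ℤ) else
      if (f v).2 < (f u).2 then -((ρ (f u).1 - ρ (f v).1).val : ℤ) else 0) : ℤ) : ZMod n)
    rcases lt_trichotomy (f u).2 (f v).2 with h | h | h
    · rw [if_pos h, hval]; ring
    · have := hs.2 _ ⟨u, Or.inl rfl, rfl⟩ _ ⟨v, Or.inr rfl, rfl⟩ h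
      rw [if_neg (by rw [h]; exact lt_irrefl _), if_neg (by rw [h]; exact lt_irrefl _), this]
      simp
    · rw [if_neg (not_lt_of_gt h), if_pos h, Int.cast_neg, hval]; ring
  · intro u v _
    have hb : ∀ a : ZMod n, |(a.val : ℤ)| ≤ n := by
      intro a
      rw [abs_of_nonneg (Int.natCast_nonneg _)]
      exact_mod_cast (ZMod.val_lt a).le
    show |(if (f u).2 < (f v).2 then ((ρ (f v).1 - ρ (f u).1).val : ℤ) else
      if (f v).2 < (f u).2 then -((ρ (f u).1 - ρ (f v).1).val : ℤ) else 0)| ≤ n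
    split_ifs
    · exact hb _
    · rw [abs_neg]; exact hb _
    · rw [abs_zero]; exact Int.natCast_nonneg _

theorem WK_sd {G : Type} [Group G] (γ : G) (n : ℕ) (X : GCx G) (B : ℤ)
    (h : WK γ n X.sd.K B) : WK γ n X.K (2 * B) := by
  classical
  obtain ⟨l, c, h1, h2, h3, h4, h5⟩ := h
  let P : X.V → X.Face := fun v => ⟨{v}, X.pts v⟩
  let E : X.V → X.V → X.Face := fun u v =>
    if h : ({u, v} : Set X.V) ∈ X.K then ⟨{u, v}, h⟩ else P u
  have hE : ∀ u v, ∀ h : ({u, v} : Set X.V) ∈ X.K, E u v = ⟨{u, v}, h⟩ := fun u v h => dif_pos h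
  have hPγ : ∀ v, P (γ • v) = γ • P v := by
    intro v
    apply Subtype.ext
    show {γ • v} = (γ • ·) '' {v}
    rw [image_singleton]
  have hEγ : ∀ u v, ({u, v} : Set X.V) ∈ X.K → E (γ • u) (γ • v) = γ • E u v := by
    intro u v huv
    have e : (γ • ·) '' ({u, v} : Set X.V) = {γ • u, γ • v} := by rw [image_pair]
    have huv' : ({γ • u, γ • v} : Set X.V) ∈ X.K := by
      rw [← e]; exact X.gc.2.2 γ _ huv
    rw [hE u v huv, hE _ _ huv']
    apply Subtype.ext
    exact e.symm
  have hch2 : ∀ a b : X.Face, a ≤ b ∨ b ≤ a → ({a, b} : Set X.Face) ∈ X.sd.K := by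
    intro a b hab
    refine ⟨⟨a, Or.inl rfl⟩, ?_⟩
    rintro x (rfl | rfl) y (rfl | rfl) hxy
    · exact absurd rfl hxy
    · exact hab
    · exact hab.symm
    · exact absurd rfl hxy
  have hch3 : ∀ a b d : X.Face, (a ≤ b ∨ b ≤ a) → (b ≤ d ∨ d ≤ b) → (a ≤ d ∨ d ≤ a) →
      ({a, b, d} : Set X.Face) ∈ X.sd.K := by
    intro a b d hab hbd had
    refine ⟨⟨a, Or.inl rfl⟩, ?_⟩
    rintro x (rfl | rfl | rfl) y (rfl | rfl | rfl) hxy
    · exact absurd rfl hxy
    · exact hab
    · exact had
    · exact hab.symm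
    · exact absurd rfl hxy
    · exact hbd
    · exact had.symm
    · exact hbd.symm
    · exact absurd rfl hxy
  have hc0 : ∀ a, c a a = 0 := by
    intro a
    have := h2 a a a (hch3 a a a (Or.inl le_rfl) (Or.inl le_rfl) (Or.inl le_rfl))
    linarith
  have hca : ∀ a b : X.Face, a ≤ b ∨ b ≤ a → c a b + c b a = 0 := by
    intro a b hab
    have := h2 a b a (hch3 a b a hab hab.symm (Or.inl le_rfl))
    rw [hc0] at this
    linarith
  have hPE : ∀ u v, ({u, v} : Set X.V) ∈ X.K → P u ≤ E u v ∧ P v ≤ E u v := by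
    intro u v huv
    rw [hE u v huv]
    constructor
    · show ({u} : Set X.V) ⊆ {u, v}
      rw [singleton_subset_iff]; exact Or.inl rfl
    · show ({v} : Set X.V) ⊆ {u, v}
      rw [singleton_subset_iff]; exact Or.inr rfl
  have key : ∀ (t : X.Face) (a b : X.V), a ∈ t.1 → b ∈ t.1 →
      c (P a) (E a b) + c (E a b) (P b) = c (P a) t + c t (P b) := by
    intro t a b ha hb
    have hsub : ({a, b} : Set X.V) ⊆ t.1 := by
      rintro x (rfl | rfl)
      exacts [ha, hb]
    have hab : ({a, b} : Set X.V) ∈ X.K := X.gc.2.1 _ t.2 _ hsub ⟨a, Or.inl rfl⟩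
    have hEt : E a b ≤ t := by
      rw [hE a b hab]; exact hsub
    obtain ⟨p1, p2⟩ := hPE a b hab
    have e1 := h2 (P a) (E a b) t (hch3 _ _ _ (Or.inl p1) (Or.inl hEt) (Or.inl (p1.trans hEt)))
    have e2 := h2 t (E a b) (P b) (hch3 _ _ _ (Or.inr hEt) (Or.inr p2) (Or.inr (p2.trans hEt)))
    have e3 := hca (E a b) t (Or.inl hEt)
    linarith
  refine ⟨fun v => l (P v), fun u v => c (P u) (E u v) + c (E u v) (P v), ?_, ?_, ?_, ?_, ?_⟩
  · intro v
    show l (P (γ • v)) = l (P v) + 1
    rw [hPγ]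
    exact h1 _
  · intro u v w huvw
    let t : X.Face := ⟨{u, v, w}, huvw⟩
    have hu : u ∈ t.1 := Or.inl rfl
    have hv : v ∈ t.1 := Or.inr (Or.inl rfl)
    have hw : w ∈ t.1 := Or.inr (Or.inr rfl)
    have e1 := key t u w hu hw
    have e2 := key t u v hu hv
    have e3 := key t v w hv hw
    have hvt : P v ≤ t := by
      show ({v} : Set X.V) ⊆ t.1
      rw [singleton_subset_iff]; exact hv
    have e4 := hca (P v) t (Or.inl hvt)
    show c (P u) (E u w) + c (E u w) (P w) = c (P u) (E u v) + c (E u v) (P v) +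
      (c (P v) (E v w) + c (E v w) (P w))
    linarith
  · intro u v huv
    obtain ⟨p1, p2⟩ := hPE u v huv
    show c (P (γ • u)) (E (γ • u) (γ • v)) + c (E (γ • u) (γ • v)) (P (γ • v)) = _
    rw [hPγ, hPγ, hEγ u v huv]
    exact congrArg₂ (· + ·) (h3 (P u) (E u v) (hch2 _ _ (Or.inl p1)))
      (h3 (E u v) (P v) (hch2 _ _ (Or.inr p2)))
  · intro u v huv
    obtain ⟨p1, p2⟩ := hPE u v huv
    have e1 := h4 (P u) (E u v) (hch2 _ _ (Or.inl p1))
    have e2 := h4 (E u v) (P v) (hch2 _ _ (Or.inr p2))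
    show l (P v) = l (P u) + ((c (P u) (E u v) + c (E u v) (P v) : ℤ) : ZMod n)
    rw [e2, e1, Int.cast_add]
    ring
  · intro u v huv
    obtain ⟨p1, p2⟩ := hPE u v huv
    have e1 := h5 (P u) (E u v) (hch2 _ _ (Or.inl p1))
    have e2 := h5 (E u v) (P v) (hch2 _ _ (Or.inr p2))
    calc |c (P u) (E u v) + c (E u v) (P v)| ≤ |c (P u) (E u v)| + |c (E u v) (P v)| :=
          abs_add_le _ _
      _ ≤ 2 * B := by linarith

theorem WK_iter {G : Type} [Group G] (γ : G) (n : ℕ) (r : ℕ) : ∀ (X : GCx G) (B : ℤ),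
    WK γ n (GCx.sd^[r] X).K B → WK γ n X.K (2 ^ r * B) := by
  induction r with
  | zero =>
    intro X B h
    rw [pow_zero, one_mul]
    exact h
  | succ r ih =>
    intro X B h
    rw [Function.iterate_succ_apply'] at h
    have := ih X (2 * B) (WK_sd γ n _ B h)
    rw [pow_succ]
    rw [mul_assoc]
    exact this

/-- a finite free `G`-poset has finite cross-index -/
theorem exists_cross (G : Type) [Group G] (P : Type) [Fintype P] [PartialOrder P] [MulAction G P]
    (hm : ∀ (g : G) (p q : P), p ≤ q → g • p ≤ g • q)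
    (hf : ∀ (g : G) (p : P), g • p = p → g = 1) : ∃ k, CrossLe G P k := by
  classical
  let rep : P → P := fun p => (Quotient.mk (MulAction.orbitRel G P) p).out
  have hrep : ∀ p, ∃ g : G, g • rep p = p := by
    intro p
    have h1 : (MulAction.orbitRel G P) (rep p) p := Quotient.exact (Quotient.out_eq _)
    have h2 : rep p ∈ MulAction.orbit G p := h1
    obtain ⟨g, hg⟩ := h2
    exact ⟨g⁻¹, by rw [← hg]; exact inv_smul_smul g p⟩
  have hrepg : ∀ (g : G) p, rep (g • p) = rep p := by
    intro g p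
    have : (Quotient.mk (MulAction.orbitRel G P) (g • p)) =
        (Quotient.mk (MulAction.orbitRel G P) p) := Quotient.sound ⟨g, rfl⟩
    show (Quotient.mk (MulAction.orbitRel G P) (g • p)).out =
      (Quotient.mk (MulAction.orbitRel G P) p).out
    rw [this]
  choose ℓ hℓ using hrep
  have hℓg : ∀ (g : G) p, ℓ (g • p) = g * ℓ p := by
    intro g p
    have h1 : ℓ (g • p) • rep p = g • p := by
      have := hℓ (g • p)
      rw [hrepg] at this
      exact this
    have h2 : (g * ℓ p) • rep p = g • p := by rw [mul_smul, hℓ p]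
    have h3 : ((g * ℓ p)⁻¹ * ℓ (g • p)) • rep p = rep p := by
      rw [mul_smul, h1, ← h2, inv_smul_smul]
    exact (inv_mul_eq_one.mp (hf _ _ h3)).symm
  let ht : P → ℕ := fun p => (Finset.univ.filter (fun q => q < p)).card
  have hlt : ∀ (g : G) (p q : P), p < q → g • p < g • q := by
    intro g p q h
    refine lt_of_le_of_ne (hm g p q h.le) fun he => ?_
    exact absurd (MulAction.injective g he) h.ne
  have hht : ∀ (g : G) p, ht (g • p) = ht p := by
    intro g p
    refine Finset.card_bij (fun q _ => g⁻¹ • q) ?_ ?_ ?_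
    · intro q hq
      rw [Finset.mem_filter] at hq ⊢
      refine ⟨Finset.mem_univ _, ?_⟩
      have := hlt g⁻¹ _ _ hq.2
      rwa [inv_smul_smul] at this
    · intro a _ b _ hab
      exact MulAction.injective g⁻¹ hab
    · intro q hq
      rw [Finset.mem_filter] at hq
      refine ⟨g • q, ?_, inv_smul_smul g q⟩
      rw [Finset.mem_filter]
      exact ⟨Finset.mem_univ _, hlt g _ _ hq.2⟩
  have hhb : ∀ p, ht p < Fintype.card P + 1 := fun p =>
    Nat.lt_succ_of_le (Finset.card_le_univ _)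
  have hhm : ∀ p q, p < q → ht p < ht q := by
    intro p q hpq
    refine Finset.card_lt_card ?_
    rw [Finset.ssubset_iff_of_subset]
    · refine ⟨p, ?_, ?_⟩
      · rw [Finset.mem_filter]; exact ⟨Finset.mem_univ _, hpq⟩
      · rw [Finset.mem_filter]; exact fun h => lt_irrefl _ h.2
    · intro a ha
      rw [Finset.mem_filter] at ha ⊢
      exact ⟨Finset.mem_univ _, ha.2.trans hpq⟩
  refine ⟨Fintype.card P, fun p => (ℓ p, ⟨ht p, hhb p⟩), ?_, ?_⟩
  · intro g p
    refine Prod.ext ?_ ?_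
    · exact hℓg g p
    · apply Fin.ext
      exact hht g p
  · intro p q hpq
    rcases eq_or_lt_of_le hpq with h | h
    · rw [h]
    · right
      exact hhm p q h

/-- freeness on the face poset passes to the subdivision -/
theorem free_sd {G : Type} [Group G] (X : GCx G)
    (h : ∀ (g : G) (s : X.Face), g • s = s → g = 1) :
    ∀ (g : G) (s : X.sd.Face), g • s = s → g = 1 := by
  intro g c hc
  obtain ⟨D, hD⟩ : ∃ D : Set X.Face, D = c.1 := ⟨c.1, rfl⟩
  have hc' : (fun s : X.Face => g • s) '' D = D := by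
    rw [hD]; exact congrArg Subtype.val hc
  have hcc : D.Nonempty ∧ IsChain (· ≤ ·) D := by
    rw [hD]; exact c.2
  have hmin : ∃ s ∈ D, ∀ t ∈ D, s ≤ t := by
    obtain ⟨s, hs⟩ := Set.Finite.exists_minimal (Set.toFinite D) hcc.1
    refine ⟨s, hs.1, fun t ht => ?_⟩
    by_cases he : s = t
    · rw [he]
    · rcases hcc.2 hs.1 ht he with h1 | h1
      · exact h1
      · exact hs.2 ht h1
  obtain ⟨s, hs, hsm⟩ := hmin
  have h1 : g • s ∈ D := by
    rw [← hc']; exact ⟨s, hs, rfl⟩
  have h2 : s ≤ g • s := hsm _ h1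
  have h3 : g • s ≤ s := by
    have : s ∈ (fun s : X.Face => g • s) '' D := by rw [hc']; exact hs
    obtain ⟨t, ht, hts⟩ := this
    have h4 := X.smul_mono g _ _ (hsm t ht)
    have hts' : g • t = s := hts
    rw [hts'] at h4
    exact h4
  exact h g s (le_antisymm h3 h2)

theorem free_iter {G : Type} [Group G] (r : ℕ) (X : GCx G)
    (h : ∀ (g : G) (s : X.Face), g • s = s → g = 1) :
    ∀ (g : G) (s : (GCx.sd^[r] X).Face), g • s = s → g = 1 := by
  induction r with
  | zero => exact h
  | succ r ih =>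
    rw [Function.iterate_succ_apply']
    exact free_sd _ ih

/-- more levels -/
theorem CrossLe.mono' {G : Type} [Group G] {P : Type} [PartialOrder P] [MulAction G P] {k n : ℕ}
    (h : CrossLe G P k) (hkn : k ≤ n) : CrossLe G P n := by
  obtain ⟨f, h1, h2⟩ := h
  have hkn' : k + 1 ≤ n + 1 := Nat.succ_le_succ hkn
  refine ⟨fun v => ((f v).1, Fin.castLE hkn' (f v).2), fun g s => ?_, fun s t hst => ?_⟩
  · show ((f _).1, _) = (g * (f s).1, _)
    rw [h1 g s]; rfl
  · rcases h2 hst with h | h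
    · left
      show ((f s).1, Fin.castLE hkn' (f s).2) = ((f t).1, Fin.castLE hkn' (f t).2)
      rw [h]
    · right
      exact h

end Pool.Agent.V11212.XI
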