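import Pool.Agent.V11212.XI.Wind

set_option autoImplicit false

open Set

namespace Pool.Agent.V11212.XI

/-- the complex `KW` as a bundled complex -/
noncomputable def XW (G : Type) [Group G] [Fintype G] (γ : G) (N : ℕ) : GCx G where
  V := KV G N
  fin := inferInstance
  act := inferInstance
  K := KW γ N
  gc := KW_gc γ N
  pts := KW_pts γ N

theorem sub_final (G : Type) [Group G] [Fintype G] [Nontrivial G] (r : ℕ) :
    ∃ X : GCx G, (∀ (g : G), ∀ x ∈ Geo X.K, mv g x = x → g = 1) ∧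
      ∃ i j, i < j ∧ IsLeast {k | TopLe G X.K k} i ∧
        IsLeast {k | CrossLe G (GCx.sd^[r] X).Face k} j := by
  classical
  obtain ⟨γ, hγ⟩ := exists_ne (1 : G)
  have hn0 : orderOf γ ≠ 0 := (orderOf_pos γ).ne'
  have hn1 : 1 < orderOf γ := by
    have : orderOf γ ≠ 1 := fun h => hγ (orderOf_eq_one_iff.mp h)
    omega
  have : NeZero (orderOf γ) := ⟨hn0⟩
  obtain ⟨ρ, hρ⟩ := exists_rho γ (orderOf γ) rfl hn0
  let B : ℤ := 2 ^ r * (2 * (orderOf γ : ℤ))
  obtain ⟨w, hw⟩ : ∃ w : ℕ, 3 * B < w := ⟨(3 * B).toNat + 1, by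
    have := Int.self_le_toNat (3 * B)
    push_cast
    linarith⟩
  let X : GCx G := XW G γ (2 * w)
  have hfree1 : ∀ (g : G), ∀ x ∈ Geo X.K, mv g x = x → g = 1 := by
    intro g x hx hg
    obtain ⟨v, hv⟩ := support_nonempty hx.2.1
    refine KW_simple γ (2 * w) _ hx.2.2 v hv g ?_
    have hv' : x v ≠ 0 := hv
    show x (g • v) ≠ 0
    have e : x (g • v) = x v := by
      have := congrFun hg (g • v)
      rw [mv_apply, inv_smul_smul] at this
      exact this.symm
    rw [e]; exact hv'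
  have hfree2 : ∀ (g : G) (s : X.Face), g • s = s → g = 1 := by
    intro g s hs
    obtain ⟨v, hv⟩ := X.gc.1 _ s.2
    refine KW_simple γ (2 * w) _ s.2 v hv g ?_
    have h1 : (g • ·) '' s.1 = s.1 := congrArg Subtype.val hs
    have h2 : g • v ∈ (g • ·) '' s.1 := ⟨v, hv, rfl⟩
    rw [h1] at h2
    exact h2
  have htop : ∃ k, TopLe G X.K k := ⟨1, KW_top γ (2 * w)⟩
  have hcr : ∃ k, CrossLe G (GCx.sd^[r] X).Face k :=
    exists_cross G _ (GCx.sd^[r] X).smul_mono (free_iter r X hfree2)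
  have hno : ¬ CrossLe G (GCx.sd^[r] X).Face 1 := by
    intro h
    have h1 : SimpLe G (orderC (GCx.sd^[r] X).Face) 1 := h.simpLe
    have h2 : WK γ (orderOf γ) (orderC (GCx.sd^[r] X).Face) (orderOf γ) :=
      WK_of_simpLe γ _ ρ hρ h1
    have h3 : WK γ (orderOf γ) (GCx.sd^[r] X).K (2 * (orderOf γ : ℤ)) := WK_sd γ _ _ _ h2
    have h4 : WK γ (orderOf γ) X.K B := WK_iter γ _ r X _ h3
    exact KW_wind γ (2 * w) (orderOf γ) hn1 w rfl B hw h4
  refine ⟨X, hfree1, Nat.find htop, Nat.find hcr, ?_, ⟨Nat.find_spec htop, fun k hk =>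
    Nat.find_min' htop hk⟩, ⟨Nat.find_spec hcr, fun k hk => Nat.find_min' hcr hk⟩⟩
  have h1 : Nat.find htop ≤ 1 := Nat.find_min' htop (KW_top γ (2 * w))
  have h2 : 1 < Nat.find hcr := by
    by_contra hcon
    push Not at hcon
    exact hno ((Nat.find_spec hcr).mono' hcon)
  omega

end Pool.Agent.V11212.XI
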