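import Pool.Agent.V11212.XI.Sub

set_option autoImplicit false

open Set Filter Topology
open scoped BigOperators

namespace Pool.Agent.V11212.XI

/-- vertices: those of `E_1 G`, and `G × {0, …, N}` -/
def KV (G : Type) (N : ℕ) : Type := QP G 1 ⊕ QP G N

instance (G : Type) [Fintype G] (N : ℕ) : Fintype (KV G N) :=
  inferInstanceAs (Fintype (QP G 1 ⊕ QP G N))

instance (G : Type) [Group G] (N : ℕ) : MulAction G (KV G N) where
  smul g w := Sum.elim (fun a => Sum.inl (g • a)) (fun z => Sum.inr (g • z)) w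
  one_smul w := by
    rcases w with a | z
    · show Sum.inl ((1 : G) • a) = Sum.inl a
      rw [one_smul]
    · show Sum.inr ((1 : G) • z) = Sum.inr z
      rw [one_smul]
  mul_smul g h w := by
    rcases w with a | z
    · show Sum.inl ((g * h) • a) = Sum.inl (g • (h • a))
      rw [mul_smul]
    · show Sum.inr ((g * h) • z) = Sum.inr (g • (h • z))
      rw [mul_smul]

/-- vertex of `E_1 G` -/
def bL {G : Type} {N : ℕ} (b : QP G 1) : KV G N := Sum.inl b

/-- vertex of a long simplex -/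
def vR {G : Type} {N : ℕ} (q : QP G N) : KV G N := Sum.inr q

theorem bL_inj {G : Type} {N : ℕ} {a b : QP G 1} (h : (bL a : KV G N) = bL b) : a = b :=
  Sum.inl.inj h

theorem vR_inj {G : Type} {N : ℕ} {a b : QP G N} (h : (vR a : KV G N) = vR b) : a = b :=
  Sum.inr.inj h

theorem bL_ne {G : Type} {N : ℕ} {a : QP G 1} {b : QP G N} : (bL a : KV G N) ≠ vR b := by
  intro h
  exact absurd h (by unfold bL vR; simp)

theorem KV_cases {G : Type} {N : ℕ} (w : KV G N) : (∃ b, w = bL b) ∨ ∃ q, w = vR q := by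
  rcases w with a | z
  · exact Or.inl ⟨a, rfl⟩
  · exact Or.inr ⟨z, rfl⟩

/-- the winding path in `E_1 G` -/
def bt {G : Type} [Group G] (γ : G) (i : ℕ) : QP G 1 := (γ ^ (i / 2), ⟨i % 2, by omega⟩)

theorem bt_two {G : Type} [Group G] (γ : G) (i : ℕ) : bt γ (i + 2) = γ • bt γ i := by
  refine Prod.ext ?_ (Fin.ext ?_)
  · show γ ^ ((i + 2) / 2) = γ * γ ^ (i / 2)
    rw [show (i + 2) / 2 = i / 2 + 1 by omega, pow_succ']
  · show (i + 2) % 2 = i % 2
    omega

/-- the tetrahedra connecting the winding path with a long simplex -/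
def tet {G : Type} [Group G] (γ : G) (N : ℕ) (g : G) (j : ℕ) : Set (KV G N) :=
  {w | (∃ i, (i = j ∨ i = j + 1) ∧ w = bL (g • bt γ i)) ∨
    ∃ q : QP G N, w = vR q ∧ q.1 = g ∧ (q.2.val = j ∨ q.2.val = j + 1)}

/-- the complex -/
def KW {G : Type} [Group G] (γ : G) (N : ℕ) : Set (Set (KV G N)) :=
  {s | s.Nonempty ∧ ((∃ t ∈ joinC G 1, s ⊆ bL '' t) ∨
    (∃ g, s ⊆ {w | ∃ q : QP G N, w = vR q ∧ q.1 = g}) ∨ ∃ g j, s ⊆ tet γ N g j)}

section

variable {G : Type} [Group G] (γ : G) (N : ℕ)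

theorem smul_bL (g : G) (b : QP G 1) : g • (bL b : KV G N) = bL (g • b) := rfl

theorem smul_vR (g : G) (b : QP G N) : g • (vR b : KV G N) = vR (g • b) := rfl

theorem KW_gc : IsGC G (KW γ N) := by
  refine ⟨fun s hs => hs.1, ?_, ?_⟩
  · rintro s ⟨-, h⟩ t hts ht
    refine ⟨ht, ?_⟩
    rcases h with ⟨a, ha, h⟩ | ⟨g, h⟩ | ⟨g, j, h⟩
    · exact Or.inl ⟨a, ha, hts.trans h⟩
    · exact Or.inr (Or.inl ⟨g, hts.trans h⟩)
    · exact Or.inr (Or.inr ⟨g, j, hts.trans h⟩)
  · rintro g s ⟨hne, h⟩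
    refine ⟨hne.image _, ?_⟩
    rcases h with ⟨a, ha, h⟩ | ⟨g', h⟩ | ⟨g', j, h⟩
    · left
      refine ⟨_, (joinC_gc G 1).2.2 g a ha, ?_⟩
      rintro _ ⟨w, hw, rfl⟩
      obtain ⟨b, hb, rfl⟩ := h hw
      exact ⟨g • b, ⟨b, hb, rfl⟩, rfl⟩
    · right; left
      refine ⟨g * g', ?_⟩
      rintro _ ⟨w, hw, rfl⟩
      obtain ⟨q, rfl, hq⟩ := h hw
      exact ⟨g • q, rfl, by show g * q.1 = g * g'; rw [hq]⟩
    · right; right
      refine ⟨g * g', j, ?_⟩
      rintro _ ⟨w, hw, rfl⟩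
      rcases h hw with ⟨i, hi, rfl⟩ | ⟨q, rfl, hq, hq2⟩
      · left
        refine ⟨i, hi, ?_⟩
        show g • (bL (g' • bt γ i) : KV G N) = _
        rw [smul_bL, smul_smul]
      · right
        exact ⟨g • q, rfl, by show g * q.1 = g * g'; rw [hq], hq2⟩

theorem KW_pts (w : KV G N) : {w} ∈ KW γ N := by
  refine ⟨singleton_nonempty w, ?_⟩
  rcases KV_cases w with ⟨b, rfl⟩ | ⟨q, rfl⟩
  · left
    refine ⟨{b}, ⟨singleton_nonempty b, ?_⟩, ?_⟩
    · rintro x hx y hy -
      rw [mem_singleton_iff] at hx hy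
      rw [hx, hy]
    · rw [image_singleton]
  · right; left
    refine ⟨q.1, ?_⟩
    rw [singleton_subset_iff]
    exact ⟨q, rfl, rfl⟩

theorem KW_simple (s : Set (KV G N)) (hs : s ∈ KW γ N) (w : KV G N) (hw : w ∈ s) (g : G)
    (hg : g • w ∈ s) : g = 1 := by
  have hb : ∀ b : QP G 1, g • b = b → g = 1 := by
    intro b h
    exact mul_eq_right.mp (congrArg Prod.fst h : g * b.1 = b.1)
  rcases hs.2 with ⟨t, ht, h⟩ | ⟨g', h⟩ | ⟨g', j, h⟩
  · obtain ⟨b, hbt, rfl⟩ := h hw
    obtain ⟨b', hbt', he⟩ := h hg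
    have e : b' = g • b := bL_inj he
    subst e
    exact hb b (ht.2 _ hbt' _ hbt rfl)
  · obtain ⟨q, rfl, hq⟩ := h hw
    obtain ⟨q', he, hq'⟩ := h hg
    have e : g • q = q' := vR_inj he
    have e1 : g * q.1 = q'.1 := congrArg Prod.fst e
    rw [hq, hq'] at e1
    exact mul_eq_right.mp e1
  · rcases h hw with ⟨i, hi, rfl⟩ | ⟨q, rfl, hq, -⟩
    · rcases h hg with ⟨i', hi', he⟩ | ⟨q', he, -⟩
      · have e : g • g' • bt γ i = g' • bt γ i' := bL_inj he
        have e2 : i % 2 = i' % 2 := congrArg (fun b : QP G 1 => b.2.val) e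
        have e3 : i = i' := by omega
        subst e3
        exact hb _ e
      · exact absurd he bL_ne
    · rcases h hg with ⟨i', hi', he⟩ | ⟨q', he, hq', -⟩
      · exact absurd he.symm bL_ne
      · have e : g • q = q' := vR_inj he
        have e1 : g * q.1 = q'.1 := congrArg Prod.fst e
        rw [hq, hq'] at e1
        exact mul_eq_right.mp e1

/-- total weight in a long simplex -/
noncomputable def Wg (g : G) (x : KV G N → ℝ) : ℝ := ∑ i : Fin (N + 1), x (vR (g, i))

/-- position in a long simplex, times the weight -/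
noncomputable def Qg (g : G) (x : KV G N → ℝ) : ℝ := ∑ i : Fin (N + 1), (i : ℝ) * x (vR (g, i))

/-- homogeneous tent function -/
noncomputable def Tg (g : G) (i : Fin (N + 1)) (x : KV G N → ℝ) : ℝ :=
  max 0 (Wg N g x - |Qg N g x - (i : ℝ) * Wg N g x|)

/-- the map to `E_1 G` -/
noncomputable def nu [Fintype G] (x : KV G N → ℝ) : QP G 1 → ℝ := by
  classical
  exact fun b => x (bL b) + ∑ g : G, ∑ i : Fin (N + 1), if g • bt γ i = b then Tg N g i x else 0

theorem Tg_cont (g : G) (i : Fin (N + 1)) : Continuous (Tg N g i) := by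
  unfold Tg Wg Qg
  fun_prop

theorem nu_cont [Fintype G] : Continuous (nu γ N) := by
  classical
  unfold nu
  refine continuous_pi fun b => Continuous.add (continuous_apply _) ?_
  refine continuous_finsetSum _ fun g _ => continuous_finsetSum _ fun i _ => ?_
  by_cases h : g • bt γ i = b
  · simp only [if_pos h]
    exact Tg_cont N g i
  · simp only [if_neg h]
    exact continuous_const

theorem mv_vR (h g : G) (i : Fin (N + 1)) (x : KV G N → ℝ) :
    mv h x (vR (g, i)) = x (vR (h⁻¹ * g, i)) := rfl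

theorem Tg_mv (h g : G) (i : Fin (N + 1)) (x : KV G N → ℝ) :
    Tg N g i (mv h x) = Tg N (h⁻¹ * g) i x := rfl

theorem nu_mv [Fintype G] (h : G) (x : KV G N → ℝ) : nu γ N (mv h x) = mv h (nu γ N x) := by
  classical
  funext b
  show x (bL (h⁻¹ • b)) + (∑ g : G, ∑ i : Fin (N + 1), if g • bt γ i = b then
      Tg N g i (mv h x) else 0) = x (bL (h⁻¹ • b)) + ∑ g : G, ∑ i : Fin (N + 1),
      if g • bt γ i = h⁻¹ • b then Tg N g i x else 0
  congr 1
  rw [← Equiv.sum_comp (Equiv.mulLeft h)]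
  refine Finset.sum_congr rfl fun g _ => Finset.sum_congr rfl fun i _ => ?_
  have e : (Equiv.mulLeft h) g = h * g := rfl
  rw [e, Tg_mv, inv_mul_cancel_left]
  have e2 : (h * g) • bt γ i = b ↔ g • bt γ i = h⁻¹ • b := by
    rw [mul_smul, eq_inv_smul_iff]
  by_cases hc : g • bt γ i = h⁻¹ • b
  · rw [if_pos hc, if_pos (e2.mpr hc)]
  · rw [if_neg hc, if_neg (fun h' => hc (e2.mp h'))]

theorem Tg_nonneg (g : G) (i : Fin (N + 1)) (x : KV G N → ℝ) : 0 ≤ Tg N g i x := le_max_left _ _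

theorem Tg_ne (g : G) (i : Fin (N + 1)) (x : KV G N → ℝ) :
    Tg N g i x ≠ 0 ↔ |Qg N g x - (i : ℝ) * Wg N g x| < Wg N g x := by
  unfold Tg
  constructor
  · intro h
    by_contra hcon
    exact h (max_eq_left (by linarith [not_lt.mp hcon]))
  · intro h
    exact (lt_max_of_lt_right (by linarith)).ne'

theorem nu_nonneg [Fintype G] {x : KV G N → ℝ} (hx : ∀ w, 0 ≤ x w) (b : QP G 1) :
    0 ≤ nu γ N x b := by
  classical
  unfold nu
  refine add_nonneg (hx _) (Finset.sum_nonneg fun g _ => Finset.sum_nonneg fun i _ => ?_)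
  split_ifs
  exacts [Tg_nonneg N g i x, le_rfl]

theorem nu_ne [Fintype G] {x : KV G N → ℝ} (hx : ∀ w, 0 ≤ x w) (b : QP G 1) :
    nu γ N x b ≠ 0 ↔ x (bL b) ≠ 0 ∨ ∃ g, ∃ i : Fin (N + 1), g • bt γ i = b ∧ Tg N g i x ≠ 0 := by
  classical
  have hn : ∀ g, ∀ i : Fin (N + 1), 0 ≤ (if g • bt γ i = b then Tg N g i x else 0) := by
    intro g i
    split_ifs
    exacts [Tg_nonneg N g i x, le_rfl]
  have hn' : ∀ g, 0 ≤ ∑ i : Fin (N + 1), (if g • bt γ i = b then Tg N g i x else 0) :=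
    fun g => Finset.sum_nonneg fun i _ => hn g i
  unfold nu
  constructor
  · intro h
    by_cases h1 : x (bL b) = 0
    · right
      rw [h1, zero_add] at h
      obtain ⟨g, -, hg⟩ := Finset.exists_ne_zero_of_sum_ne_zero h
      obtain ⟨i, -, hi⟩ := Finset.exists_ne_zero_of_sum_ne_zero hg
      by_cases hc : g • bt γ i = b
      · rw [if_pos hc] at hi
        exact ⟨g, i, hc, hi⟩
      · rw [if_neg hc] at hi
        exact absurd rfl hi
    · exact Or.inl h1
  · rintro (h | ⟨g, i, h1, h2⟩)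
    · have a1 : 0 < x (bL b) := lt_of_le_of_ne (hx _) (Ne.symm h)
      have a2 := Finset.sum_nonneg fun g (_ : g ∈ (Finset.univ : Finset G)) => hn' g
      exact (add_pos_of_pos_of_nonneg a1 a2).ne'
    · have a1 : 0 < ∑ g : G, ∑ i : Fin (N + 1), (if g • bt γ i = b then Tg N g i x else 0) := by
        refine Finset.sum_pos' (fun g _ => hn' g) ⟨g, Finset.mem_univ _, ?_⟩
        refine Finset.sum_pos' (fun i _ => hn g i) ⟨i, Finset.mem_univ _, ?_⟩
        rw [if_pos h1]
        exact lt_of_le_of_ne (Tg_nonneg N g i x) (Ne.symm h2)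
      exact (add_pos_of_nonneg_of_pos (hx _) a1).ne'

theorem KW_top [Fintype G] : TopLe G (KW γ N) 1 := by
  classical
  refine (topLe_join 1).compN (fun s hs => hs.1) (nu γ N) (nu_cont γ N).continuousOn
    (fun x hx b => nu_nonneg γ N hx.1 b) ?_ (fun g x _ => nu_mv γ N g x)
  intro x hx
  have h0 := hx.1
  -- bounds
  have hW0 : ∀ g, 0 ≤ Wg N g x := fun g => Finset.sum_nonneg fun i _ => h0 _
  have hQ0 : ∀ g, 0 ≤ Qg N g x := fun g =>
    Finset.sum_nonneg fun i _ => mul_nonneg (Nat.cast_nonneg _) (h0 _)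
  have hQN : ∀ g, Qg N g x ≤ N * Wg N g x := by
    intro g
    unfold Qg Wg
    rw [Finset.mul_sum]
    refine Finset.sum_le_sum fun i _ => mul_le_mul_of_nonneg_right ?_ (h0 _)
    exact_mod_cast Nat.lt_succ_iff.mp i.2
  refine ⟨?_, ?_⟩
  · -- nonempty
    by_cases hb : ∃ b, x (bL b) ≠ 0
    · obtain ⟨b, hb⟩ := hb
      exact ⟨b, (nu_ne γ N h0 b).mpr (Or.inl hb)⟩
    · push Not at hb
      obtain ⟨w, hw⟩ := support_nonempty hx.2.1
      rcases KV_cases w with ⟨b, rfl⟩ | ⟨q, rfl⟩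
      · exact absurd (hb b) hw
      · have hWpos : 0 < Wg N q.1 x := by
          refine Finset.sum_pos' (fun i _ => h0 _) ⟨q.2, Finset.mem_univ _, ?_⟩
          exact lt_of_le_of_ne (h0 _) (Ne.symm hw)
        have hfl : ⌊Qg N q.1 x / Wg N q.1 x⌋₊ < N + 1 := by
          rw [Nat.lt_succ_iff]
          refine Nat.floor_le_of_le ?_
          rw [div_le_iff₀ hWpos]
          exact hQN _
        refine ⟨q.1 • bt γ ⌊Qg N q.1 x / Wg N q.1 x⌋₊, (nu_ne γ N h0 _).mpr (Or.inr
          ⟨q.1, ⟨_, hfl⟩, rfl, (Tg_ne N _ _ x).mpr ?_⟩)⟩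
        show |Qg N q.1 x - (⌊Qg N q.1 x / Wg N q.1 x⌋₊ : ℝ) * Wg N q.1 x| < Wg N q.1 x
        have a1 : (⌊Qg N q.1 x / Wg N q.1 x⌋₊ : ℝ) ≤ Qg N q.1 x / Wg N q.1 x :=
          Nat.floor_le (div_nonneg (hQ0 _) hWpos.le)
        have a2 : Qg N q.1 x / Wg N q.1 x < (⌊Qg N q.1 x / Wg N q.1 x⌋₊ : ℝ) + 1 :=
          Nat.lt_floor_add_one _
        rw [le_div_iff₀ hWpos] at a1
        rw [div_lt_iff₀ hWpos] at a2
        rw [abs_lt]
        constructor <;> linarith
  · -- simplex
    have hclose : ∀ g, ∀ i i' : Fin (N + 1), Tg N g i x ≠ 0 → Tg N g i' x ≠ 0 →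
        (i : ℕ) ≤ i' + 1 := by
      intro g i i' hi hi'
      rw [Tg_ne, abs_lt] at hi hi'
      by_contra hcon
      push Not at hcon
      have hW : 0 < Wg N g x := by linarith [hi.1, hi.2]
      have h1 : ((i' : ℕ) : ℝ) + 2 ≤ ((i : ℕ) : ℝ) := by exact_mod_cast hcon
      nlinarith [hi.1, hi.2, hi'.1, hi'.2, mul_le_mul_of_nonneg_right h1 hW.le]
    rcases hx.2.2.2 with ⟨t, ht, h⟩ | ⟨g0, h⟩ | ⟨g0, j, h⟩
    · have hW : ∀ g, Wg N g x = 0 := by
        intro g
        refine Finset.sum_eq_zero fun i _ => ?_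
        by_contra hne
        obtain ⟨b, -, hb⟩ := h hne
        exact bL_ne hb
      have hb : ∀ b, nu γ N x b ≠ 0 → b ∈ t := by
        intro b hb
        rcases (nu_ne γ N h0 b).mp hb with h1 | ⟨g, i, -, h2⟩
        · obtain ⟨b', hb', he⟩ := h (show bL b ∈ Function.support x from h1)
          rw [← bL_inj he]; exact hb'
        · rw [Tg_ne, hW] at h2
          exact absurd h2 (not_lt_of_ge (abs_nonneg _))
      intro a ha b hb' hab
      exact ht.2 a (hb a ha) b (hb b hb') hab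
    · have hxb : ∀ b, x (bL b) = 0 := by
        intro b
        by_contra hne
        obtain ⟨q, hq, -⟩ := h (show bL b ∈ Function.support x from hne)
        exact bL_ne hq
      have hW : ∀ g, g ≠ g0 → Wg N g x = 0 := by
        intro g hg
        refine Finset.sum_eq_zero fun i _ => ?_
        by_contra hne
        obtain ⟨q, hq, hq1⟩ := h (show vR (g, i) ∈ Function.support x from hne)
        rw [← vR_inj hq] at hq1
        exact hg hq1
      have hb : ∀ b, nu γ N x b ≠ 0 → ∃ i : Fin (N + 1), b = g0 • bt γ i ∧ Tg N g0 i x ≠ 0 := by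
        intro b hb
        rcases (nu_ne γ N h0 b).mp hb with h1 | ⟨g, i, h1, h2⟩
        · exact absurd (hxb b) h1
        · by_cases hg : g = g0
          · subst hg
            exact ⟨i, h1.symm, h2⟩
          · rw [Tg_ne, hW g hg] at h2
            exact absurd h2 (not_lt_of_ge (abs_nonneg _))
      intro a ha b hb' hab
      obtain ⟨i, rfl, hi⟩ := hb a ha
      obtain ⟨i', rfl, hi'⟩ := hb b hb'
      have e1 := hclose g0 i i' hi hi'
      have e2 := hclose g0 i' i hi' hi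
      have e3 : (i : ℕ) % 2 = (i' : ℕ) % 2 := congrArg Fin.val hab
      have e4 : (i : ℕ) = i' := by omega
      rw [e4]
    · have hW : ∀ g, g ≠ g0 → Wg N g x = 0 := by
        intro g hg
        refine Finset.sum_eq_zero fun i _ => ?_
        by_contra hne
        rcases h (show vR (g, i) ∈ Function.support x from hne) with ⟨i', -, he⟩ | ⟨q, hq, hq1, -⟩
        · exact bL_ne he.symm
        · rw [← vR_inj hq] at hq1
          exact hg hq1
      have hxv : ∀ i : Fin (N + 1), x (vR (g0, i)) ≠ 0 → (i : ℕ) = j ∨ (i : ℕ) = j + 1 := by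
        intro i hne
        rcases h (show vR (g0, i) ∈ Function.support x from hne) with ⟨i', -, he⟩ | ⟨q, hq, -, hq2⟩
        · exact absurd he.symm bL_ne
        · rw [← vR_inj hq] at hq2
          exact hq2
      have hlow : (j : ℝ) * Wg N g0 x ≤ Qg N g0 x := by
        unfold Qg Wg
        rw [Finset.mul_sum]
        refine Finset.sum_le_sum fun i _ => ?_
        by_cases hne : x (vR (g0, i)) = 0
        · rw [hne, mul_zero, mul_zero]
        · refine mul_le_mul_of_nonneg_right ?_ (h0 _)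
          have := hxv i hne
          exact_mod_cast (by omega : j ≤ (i : ℕ))
      have hupp : Qg N g0 x ≤ ((j : ℝ) + 1) * Wg N g0 x := by
        unfold Qg Wg
        rw [Finset.mul_sum]
        refine Finset.sum_le_sum fun i _ => ?_
        by_cases hne : x (vR (g0, i)) = 0
        · rw [hne, mul_zero, mul_zero]
        · refine mul_le_mul_of_nonneg_right ?_ (h0 _)
          have := hxv i hne
          exact_mod_cast (by omega : (i : ℕ) ≤ j + 1)
      have hb : ∀ b, nu γ N x b ≠ 0 → ∃ i : ℕ, (i = j ∨ i = j + 1) ∧ b = g0 • bt γ i := by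
        intro b hb
        rcases (nu_ne γ N h0 b).mp hb with h1 | ⟨g, i, h1, h2⟩
        · rcases h (show bL b ∈ Function.support x from h1) with ⟨i', hi', he⟩ | ⟨q, hq, -⟩
          · exact ⟨i', hi', bL_inj he⟩
          · exact absurd hq bL_ne
        · by_cases hg : g = g0
          · subst hg
            refine ⟨i, ?_, h1.symm⟩
            rw [Tg_ne, abs_lt] at h2
            have hWp : 0 < Wg N g x := by linarith [h2.1, h2.2]
            have a1 : (j : ℝ) < (i : ℝ) + 1 := by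
              by_contra hcon
              push Not at hcon
              nlinarith [h2.1, h2.2, mul_le_mul_of_nonneg_right hcon hWp.le]
            have a2 : (i : ℝ) < (j : ℝ) + 2 := by
              by_contra hcon
              push Not at hcon
              nlinarith [h2.1, h2.2, mul_le_mul_of_nonneg_right hcon hWp.le]
            have a1' : j < (i : ℕ) + 1 := by exact_mod_cast a1
            have a2' : (i : ℕ) < j + 2 := by exact_mod_cast a2
            omega
          · rw [Tg_ne, hW g hg] at h2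
            exact absurd h2 (not_lt_of_ge (abs_nonneg _))
      intro a ha b hb' hab
      obtain ⟨i, hi, rfl⟩ := hb a ha
      obtain ⟨i', hi', rfl⟩ := hb b hb'
      have e3 : i % 2 = i' % 2 := congrArg Fin.val hab
      have e4 : i = i' := by omega
      rw [e4]

/-- the winding estimate -/
theorem KW_wind (n : ℕ) (hn : 1 < n) (w : ℕ) (hN : N = 2 * w) (B : ℤ) (hw : 3 * B < w)
    (h : WK γ n (KW γ N) B) : False := by
  obtain ⟨l, c, h1, h2, h3, h4, h5⟩ := h
  have : Fact (1 < n) := ⟨hn⟩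
  let b : ℕ → KV G N := fun i => bL (bt γ i)
  let v : ℕ → KV G N := fun i => vR (1, ⟨min i N, by omega⟩)
  have hb2 : ∀ i, b (i + 2) = γ • b i := by
    intro i
    show bL (bt γ (i + 2)) = _
    rw [bt_two]; rfl
  have htb : ∀ j, b j ∈ tet γ N 1 j ∧ b (j + 1) ∈ tet γ N 1 j := by
    intro j
    constructor
    · left; exact ⟨j, Or.inl rfl, by rw [one_smul]⟩
    · left; exact ⟨j + 1, Or.inr rfl, by rw [one_smul]⟩
  have htv : ∀ j, j + 1 ≤ N → v j ∈ tet γ N 1 j ∧ v (j + 1) ∈ tet γ N 1 j := by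
    intro j hj
    constructor
    · right
      refine ⟨_, rfl, rfl, Or.inl ?_⟩
      show min j N = j
      omega
    · right
      refine ⟨_, rfl, rfl, Or.inr ?_⟩
      show min (j + 1) N = j + 1
      omega
  have htet3 : ∀ j x y z, x ∈ tet γ N 1 j → y ∈ tet γ N 1 j → z ∈ tet γ N 1 j →
      c x z = c x y + c y z := by
    intro j x y z hx hy hz
    refine h2 x y z ⟨⟨x, Or.inl rfl⟩, Or.inr (Or.inr ⟨1, j, ?_⟩)⟩
    rintro u (rfl | rfl | rfl)
    exacts [hx, hy, hz]
  have hlong : ∀ i i' i'', c (v i) (v i'') = c (v i) (v i') + c (v i') (v i'') := by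
    intro i i' i''
    refine h2 _ _ _ ⟨⟨_, Or.inl rfl⟩, Or.inr (Or.inl ⟨1, ?_⟩)⟩
    rintro u (rfl | rfl | rfl)
    exacts [⟨_, rfl, rfl⟩, ⟨_, rfl, rfl⟩, ⟨_, rfl, rfl⟩]
  have hc0 : ∀ j x, x ∈ tet γ N 1 j → c x x = 0 := by
    intro j x hx
    have := htet3 j x x x hx hx hx
    linarith
  have hS : ∀ k, k ≤ N → ∑ j ∈ Finset.range k, c (b j) (b (j + 1)) =
      c (b 0) (v 0) + c (v 0) (v k) + c (v k) (b k) := by
    intro k
    induction k with
    | zero =>
      intro _
      have e1 := hlong 0 0 0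
      by_cases hN0 : 1 ≤ N
      · have e2 := htet3 0 (b 0) (v 0) (b 0) (htb 0).1 (htv 0 hN0).1 (htb 0).1
        rw [hc0 0 (b 0) (htb 0).1] at e2
        rw [Finset.range_zero, Finset.sum_empty]
        linarith
      · have e2 : c (b 0) (b 0) = c (b 0) (v 0) + c (v 0) (b 0) := by
          refine htet3 0 _ _ _ (htb 0).1 ?_ (htb 0).1
          right
          refine ⟨_, rfl, rfl, Or.inl ?_⟩
          show min 0 N = 0
          omega
        rw [hc0 0 (b 0) (htb 0).1] at e2
        rw [Finset.range_zero, Finset.sum_empty]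
        linarith
    | succ k ih =>
      intro hk
      rw [Finset.sum_range_succ, ih (by omega)]
      obtain ⟨q1, q2⟩ := htb k
      obtain ⟨q3, q4⟩ := htv k hk
      have e1 := htet3 k (b k) (v k) (b (k + 1)) q1 q3 q2
      have e2 := htet3 k (v k) (v (k + 1)) (b (k + 1)) q3 q4 q2
      have e3 := htet3 k (b k) (v k) (b k) q1 q3 q1
      rw [hc0 k (b k) q1] at e3
      have e4 := hlong 0 k (k + 1)
      linarith
  have hbb : ∀ j, ({b j, b (j + 1)} : Set (KV G N)) ∈ KW γ N := by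
    intro j
    refine ⟨⟨_, Or.inl rfl⟩, Or.inr (Or.inr ⟨1, j, ?_⟩)⟩
    rintro u (rfl | rfl)
    exacts [(htb j).1, (htb j).2]
  have hper : ∀ j, c (b (j + 2)) (b (j + 3)) = c (b j) (b (j + 1)) := by
    intro j
    rw [hb2 j, show j + 3 = (j + 1) + 2 by ring, hb2 (j + 1)]
    exact h3 _ _ (hbb j)
  have hper0 : ∀ k, c (b (2 * k)) (b (2 * k + 1)) = c (b 0) (b 1) ∧
      c (b (2 * k + 1)) (b (2 * k + 2)) = c (b 1) (b 2) := by
    intro k
    induction k with
    | zero => exact ⟨rfl, rfl⟩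
    | succ k ih =>
      constructor
      · have := hper (2 * k)
        rw [show 2 * (k + 1) = 2 * k + 2 by ring, show 2 * k + 2 + 1 = 2 * k + 3 by ring, this]
        exact ih.1
      · have := hper (2 * k + 1)
        rw [show 2 * (k + 1) + 1 = 2 * k + 1 + 2 by ring,
          show 2 * (k + 1) + 2 = 2 * k + 1 + 3 by ring, this]
        exact ih.2
  have hsum : ∀ k, ∑ j ∈ Finset.range (2 * k), c (b j) (b (j + 1)) =
      k * (c (b 0) (b 1) + c (b 1) (b 2)) := by
    intro k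
    induction k with
    | zero => simp
    | succ k ih =>
      rw [show 2 * (k + 1) = 2 * k + 1 + 1 by ring, Finset.sum_range_succ, Finset.sum_range_succ,
        ih, (hper0 k).1, (hper0 k).2]
      push_cast
      ring
  have hD : c (b 0) (b 1) + c (b 1) (b 2) ≠ 0 := by
    intro h0
    have e1 := h4 (b 0) (b 1) (hbb 0)
    have e2 := h4 (b 1) (b 2) (hbb 1)
    have e3 : l (b 2) = l (b 0) + 1 := by
      rw [hb2 0]; exact h1 _
    rw [e1, add_assoc, ← Int.cast_add, h0, Int.cast_zero, add_zero] at e2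
    rw [e2] at e3
    have : (0 : ZMod n) = 1 := by
      have := congrArg (fun t => t - l (b 0)) e3
      simpa using this
    exact zero_ne_one this
  have hfin := hS N le_rfl
  have hfin' : ∑ j ∈ Finset.range (2 * w), c (b j) (b (j + 1)) =
      c (b 0) (v 0) + c (v 0) (v N) + c (v N) (b N) := by
    rw [← hfin]
    exact congrArg (fun k => ∑ j ∈ Finset.range k, c (b j) (b (j + 1))) hN.symm
  rw [hsum w] at hfin'
  have hB0 : |c (b 0) (v 0)| ≤ B := by
    refine h5 _ _ ⟨⟨_, Or.inl rfl⟩, Or.inr (Or.inr ⟨1, 0, ?_⟩)⟩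
    rintro u (rfl | rfl)
    · exact (htb 0).1
    · right
      refine ⟨_, rfl, rfl, Or.inl ?_⟩
      show min 0 N = 0
      omega
  have hB1 : |c (v 0) (v N)| ≤ B := by
    refine h5 _ _ ⟨⟨_, Or.inl rfl⟩, Or.inr (Or.inl ⟨1, ?_⟩)⟩
    rintro u (rfl | rfl)
    exacts [⟨_, rfl, rfl⟩, ⟨_, rfl, rfl⟩]
  have hB2 : |c (v N) (b N)| ≤ B := by
    refine h5 _ _ ⟨⟨_, Or.inl rfl⟩, Or.inr (Or.inr ⟨1, N, ?_⟩)⟩
    rintro u (rfl | rfl)
    · right
      refine ⟨_, rfl, rfl, Or.inl ?_⟩
      show min N N = N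
      omega
    · exact (htb N).1
  have habs : |(w : ℤ) * (c (b 0) (b 1) + c (b 1) (b 2))| ≤ 3 * B := by
    rw [hfin']
    calc |c (b 0) (v 0) + c (v 0) (v N) + c (v N) (b N)|
        ≤ |c (b 0) (v 0) + c (v 0) (v N)| + |c (v N) (b N)| := abs_add_le _ _
      _ ≤ |c (b 0) (v 0)| + |c (v 0) (v N)| + |c (v N) (b N)| := by
          linarith [abs_add_le (c (b 0) (v 0)) (c (v 0) (v N))]
      _ ≤ 3 * B := by linarith
  rw [abs_mul] at habs
  have h1D : 1 ≤ |c (b 0) (b 1) + c (b 1) (b 2)| := Int.one_le_abs hD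
  have hw0 : |(w : ℤ)| = w := abs_of_nonneg (Int.natCast_nonneg w)
  rw [hw0] at habs
  have : (w : ℤ) ≤ w * |c (b 0) (b 1) + c (b 1) (b 2)| := by
    have hw1 : (0 : ℤ) ≤ w := Int.natCast_nonneg w
    nlinarith
  linarith

end

end Pool.Agent.V11212.XI
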